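import Pool.Graph.R_pool_sql_team_seeded_3997aac3.Results.MP_b6945b_al.WreathProducts

/-!
# The Knörr-Robinson conjecture: basic facts used below
-/

set_option autoImplicit false

open scoped Classical

noncomputable section

namespace Pool.Agent.H373.KR

open Pool.Agent.Y63.KR (chi2 KRC)
open Pool.Agent.Y63.AWC (IsIrreducibleCharacter numDefectZero)
open Pool.Agent.Results.MP_b6945b_al.WreathProducts (err Wr Cy Dz Sf err_def)
open Pool.Agent.Q18.KRX (errZ krSum krSum_iso)

theorem krc_iff (p : ℕ) (H : Type) [Group H] : KRC p H ↔ err p H = 0 := by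
  unfold KRC err
  exact sub_eq_zero.symm

/-- `err` is an isomorphism invariant -/
theorem err_congr (p : ℕ) [Fact p.Prime] (H K : Type) [Group H] [Group K] [Finite H] [Finite K]
    (e : H ≃* K) : err p H = err p K := by
  rw [err_def, err_def]
  congr 1
  unfold errZ
  rw [Pool.Agent.Y63.AWC.numDefectZero_congr e, show krSum p H = krSum p K from
    krSum_iso (p := p) _ _ ⟨e⟩]

/-- the wreath product formula -/
theorem err_wr (p : ℕ) [Fact p.Prime] (G A Ω : Type) [Group G] [Group A] [MulAction A Ω]
    [Finite G] [Finite A] [Finite Ω] (h : KRC p G) :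
    (Nat.card A : ℚ) * err p (Wr G A Ω) =
        ∑ᶠ f : Ω → Dz p G, (Nat.card (Sf (A := A) f) : ℚ) * err p (Sf (A := A) f) :=
  ((Pool.Agent.Results.MP_b6945b_al.WreathProducts.result p).2.1 G A Ω h).1

end Pool.Agent.H373.KR
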