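import Pool.Agent.H373.KR.K0

set_option autoImplicit false

open scoped Classical

noncomputable section

namespace Pool.Agent.H373.KR

open Pool.Agent.Y63.KR (chi2 KRC)
open Pool.Agent.Y63.AWC (IsIrreducibleCharacter numDefectZero)
open Pool.Agent.Results.MP_b6945b_al.WreathProducts (err Wr Cy Dz Sf err_def)
open Pool.Agent.Helper884.IC (Irr mem_Irr IsIrrChar)

/-- a group of order prime to `p` has as many irreducible characters of `p`-defect zero as conjugacy
classes (all irreducible characters have `p`-defect zero) -/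
theorem numDz_coprime (p : ℕ) [Fact p.Prime] (Z : Type) [Group Z] [Finite Z]
    (h : ¬ p ∣ Nat.card Z) : numDefectZero p Z = Nat.card (ConjClasses Z) := by
  have : Fintype Z := Fintype.ofFinite Z
  have h1 : Nat.card (ConjClasses Z) = (Irr Z).card := by
    rw [← Pool.Agent.Y63.KR.surfaceCount_one,
      show (1 : ℕ) = 0 + 1 from rfl, Pool.Agent.Y63.KR.surfaceCount_eq]
    unfold Pool.Agent.Y63.KR.zsum
    simp
  rw [h1]
  unfold numDefectZero
  have h2 : ∀ χ : Z → ℂ, (IsIrreducibleCharacter χ ∧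
      ∃ n : ℕ, χ 1 = (n : ℂ) ∧ n.factorization p = (Nat.card Z).factorization p) ↔
      χ ∈ Irr Z := by
    intro χ
    rw [mem_Irr]
    constructor
    · exact fun h => h.1
    · intro hχ
      refine ⟨hχ, Pool.Agent.Y63.KR.dg χ, (Pool.Agent.Y63.KR.dg_spec hχ).1, ?_⟩
      have h3 := Pool.Agent.Y63.AWC.deg_dvd hχ (Pool.Agent.Y63.KR.dg_spec hχ).1
      rw [Nat.factorization_eq_zero_of_not_dvd h,
        Nat.factorization_eq_zero_of_not_dvd (fun hh => h (hh.trans h3))]
  rw [Nat.card_congr (Equiv.subtypeEquivRight h2)]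
  simp

/-- there are no nontrivial `p`-subgroups -/
theorem chi2_coprime (p : ℕ) [Fact p.Prime] (Z : Type) [Group Z] [Finite Z]
    (h : ¬ p ∣ Nat.card Z) : chi2 p Z = 0 := by
  unfold chi2
  have h1 : ∀ K : Set Z, Pool.Agent.Y63.KR.fixedPoset p K = ∅ := by
    intro K
    rw [Set.eq_empty_iff_forall_notMem]
    rintro P ⟨hP, hne, -⟩
    obtain ⟨n, hn⟩ := IsPGroup.iff_card.mp hP
    have h2 : Nat.card P ∣ Nat.card Z := P.card_subgroup_dvd_card
    rcases Nat.eq_zero_or_pos n with h0 | h0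
    · rw [h0, pow_zero] at hn
      exact hne (Subgroup.card_eq_one.mp hn)
    · exact h ((dvd_pow_self p h0.ne').trans (hn ▸ h2))
  have h2 : Pool.Agent.Y63.KR.eulerChar (∅ : Set (Subgroup Z)) = 0 := by
    unfold Pool.Agent.Y63.KR.eulerChar
    have : IsEmpty {σ : Set (Subgroup Z) // σ ⊆ ∅ ∧ σ.Nonempty ∧ IsChain (· ≤ ·) σ} := by
      refine ⟨fun σ => ?_⟩
      obtain ⟨x, hx⟩ := σ.2.2.1
      exact σ.2.1 hx
    exact finsum_of_isEmpty _
  simp only [h1, h2]
  simp

theorem krc_coprime (p : ℕ) [Fact p.Prime] (Z : Type) [Group Z] [Finite Z]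
    (h : ¬ p ∣ Nat.card Z) : KRC p Z := by
  unfold KRC
  rw [chi2_coprime p Z h, numDz_coprime p Z h, sub_self]

theorem card_Dz (p l : ℕ) [Fact p.Prime] [Fact l.Prime] (h : l ≠ p) :
    Nat.card (Dz p (Cy l)) = l := by
  have h0 : Nat.card (Cy l) = l := by
    rw [Nat.card_congr Multiplicative.toAdd, Nat.card_zmod]
  have h1 : ¬ p ∣ Nat.card (Cy l) := by
    rw [h0]
    intro hh
    exact h ((Nat.prime_dvd_prime_iff_eq Fact.out Fact.out).mp hh).symm
  have h2 : Nat.card (Dz p (Cy l)) = numDefectZero p (Cy l) := rfl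
  rw [h2, numDz_coprime p (Cy l) h1]
  have h3 : Function.Bijective (ConjClasses.mk : Cy l → ConjClasses (Cy l)) :=
    ConjClasses.mk_bijective
  rw [← Nat.card_congr (Equiv.ofBijective _ h3), h0]

end Pool.Agent.H373.KR
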