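import Pool.Agent.H373.KR.KW

set_option autoImplicit false

open scoped Classical

noncomputable section

namespace Pool.Agent.H373.KR


section

variable (l : ℕ) [Fact l.Prime] (A Ω : Type) [Group A] [Finite A] [MulAction A Ω] [Finite Ω]

/-- the action on the base group -/
theorem kb_act (a : A) (f : Ω → CY l) (ω : Ω) :
    (mulAutArrow (G := A) (A := Ω) (M := CY l) a) f ω = f (a⁻¹ • ω) := rfl

theorem kb_act_inv (a : A) (f : Ω → CY l) (hf : ∀ (a : A) (ω : Ω), f (a • ω) = f ω) :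
    (mulAutArrow (G := A) (A := Ω) (M := CY l) a) f = f := by
  funext ω
  rw [kb_act, hf]

theorem kb_pow (f : Ω → CY l) : f ^ l = 1 := by
  funext ω
  show (f ω) ^ l = 1
  have h1 : Nat.card (CY l) = l := by
    show Nat.card (ZMod l) = l
    exact Nat.card_zmod l
  have h2 := pow_card_eq_one' (x := f ω)
  rwa [h1] at h2

/-- the `A`-invariant functions in the base group -/
def ZZ : Subgroup (WR (CY l) A Ω) where
  carrier := {x | x.right = 1 ∧ ∀ (a : A) (ω : Ω), x.left (a • ω) = x.left ω}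
  one_mem' := ⟨rfl, fun _ _ => rfl⟩
  mul_mem' := by
    rintro x y ⟨hx1, hx2⟩ ⟨hy1, hy2⟩
    refine ⟨?_, fun a ω => ?_⟩
    · rw [SemidirectProduct.mul_right, hx1, hy1, one_mul]
    · rw [SemidirectProduct.mul_left, kb_act_inv l A Ω _ _ hy2, Pi.mul_apply, Pi.mul_apply, hx2, hy2]
  inv_mem' := by
    rintro x ⟨hx1, hx2⟩
    refine ⟨?_, fun a ω => ?_⟩
    · rw [SemidirectProduct.inv_right, hx1, inv_one]
    · rw [SemidirectProduct.inv_left, kb_act_inv l A Ω _ _ (fun a ω => by
        rw [Pi.inv_apply, Pi.inv_apply, hx2]), Pi.inv_apply, Pi.inv_apply, hx2]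

theorem kb_mem (x : WR (CY l) A Ω) :
    x ∈ ZZ l A Ω ↔ x.right = 1 ∧ ∀ (a : A) (ω : Ω), x.left (a • ω) = x.left ω := Iff.rfl

theorem kb_inl (z : WR (CY l) A Ω) (hz : z ∈ ZZ l A Ω) : z = SemidirectProduct.inl z.left := by
  apply SemidirectProduct.ext
  · rw [SemidirectProduct.left_inl]
  · rw [SemidirectProduct.right_inl, hz.1]

theorem zz_exp (z : WR (CY l) A Ω) (hz : z ∈ ZZ l A Ω) : z ^ l = 1 := by
  rw [kb_inl l A Ω z hz, ← map_pow, kb_pow, map_one]

theorem zz_central (z : WR (CY l) A Ω) (hz : z ∈ ZZ l A Ω) (x : WR (CY l) A Ω) :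
    z * x = x * z := by
  apply SemidirectProduct.ext
  · rw [SemidirectProduct.mul_left, SemidirectProduct.mul_left, kb_act_inv l A Ω _ _ hz.2, hz.1,
      map_one, MulAut.one_apply, mul_comm]
  · rw [SemidirectProduct.mul_right, SemidirectProduct.mul_right, hz.1, one_mul, mul_one]

/-- the norm -/
def kbN : (Ω → CY l) →* (Ω → CY l) where
  toFun v := ∏ᶠ b : A, (mulAutArrow (G := A) (A := Ω) (M := CY l) b) v
  map_one' := by simp
  map_mul' v w := by
    simp only [map_mul]
    exact finprod_mul_distrib (Set.toFinite _) (Set.toFinite _)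

theorem kbN_apply (v : Ω → CY l) :
    kbN l A Ω v = ∏ᶠ b : A, (mulAutArrow (G := A) (A := Ω) (M := CY l) b) v := rfl

theorem kbN_act (a : A) (v : Ω → CY l) :
    kbN l A Ω ((mulAutArrow (G := A) (A := Ω) (M := CY l) a) v) = kbN l A Ω v := by
  rw [kbN_apply, kbN_apply]
  refine finprod_eq_of_bijective (fun b => b * a) (Group.mulRight_bijective a) ?_
  intro b
  rw [map_mul]
  rfl

theorem act_kbN (a : A) (v : Ω → CY l) :
    (mulAutArrow (G := A) (A := Ω) (M := CY l) a) (kbN l A Ω v) = kbN l A Ω v := by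
  rw [kbN_apply]
  rw [MulEquiv.map_finprod _ _ ]
  refine finprod_eq_of_bijective (fun b => a * b) (Group.mulLeft_bijective a) ?_
  intro b
  rw [map_mul]
  rfl

theorem kbN_inv (v : Ω → CY l) (a : A) (ω : Ω) : kbN l A Ω v (a • ω) = kbN l A Ω v ω := by
  have h := congrFun (act_kbN l A Ω a⁻¹ v) ω
  rw [kb_act, inv_inv] at h
  exact h

theorem kbN_fix (v : Ω → CY l) (hv : ∀ (a : A) (ω : Ω), v (a • ω) = v ω) :
    kbN l A Ω v = v ^ Nat.card A := by
  rw [kbN_apply]
  have h1 : ∀ b : A, (mulAutArrow (G := A) (A := Ω) (M := CY l) b) v = v := fun b =>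
    kb_act_inv l A Ω b v hv
  simp only [h1]
  have : Fintype A := Fintype.ofFinite A
  rw [finprod_eq_prod_of_fintype, Finset.prod_const, Finset.card_univ, Nat.card_eq_fintype_card]

/-- `w ^ |A|` is the norm times a commutator -/
theorem kb_norm (w : Ω → CY l) : ∃ d : Ω → CY l, w ^ Nat.card A = kbN l A Ω w * d ∧
    (SemidirectProduct.inl d : WR (CY l) A Ω) ∈ commutator (WR (CY l) A Ω) := by
  have : Fintype A := Fintype.ofFinite A
  refine ⟨∏ a : A, (w * ((mulAutArrow (G := A) (A := Ω) (M := CY l) a) w)⁻¹), ?_, ?_⟩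
  · rw [kbN_apply, finprod_eq_prod_of_fintype, ← Finset.prod_mul_distrib]
    have h1 : ∀ a : A, (mulAutArrow (G := A) (A := Ω) (M := CY l) a) w *
        (w * ((mulAutArrow (G := A) (A := Ω) (M := CY l) a) w)⁻¹) = w := by
      intro a
      rw [mul_comm w, mul_inv_cancel_left]
    rw [Finset.prod_congr rfl (fun a _ => h1 a), Finset.prod_const, Finset.card_univ,
      Nat.card_eq_fintype_card]
  · have h0 : ∀ a : A, w * ((mulAutArrow (G := A) (A := Ω) (M := CY l) a) w)⁻¹ ∈
        (commutator (WR (CY l) A Ω)).comap (SemidirectProduct.inl : (Ω → CY l) →* WR (CY l) A Ω) := by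
      intro a
      rw [Subgroup.mem_comap]
      have e : (SemidirectProduct.inl (w * ((mulAutArrow (G := A) (A := Ω) (M := CY l) a) w)⁻¹) :
          WR (CY l) A Ω) = (SemidirectProduct.inl w : WR (CY l) A Ω) * SemidirectProduct.inr a *
            (SemidirectProduct.inl w)⁻¹ * (SemidirectProduct.inr a)⁻¹ := by
        rw [map_mul, map_inv, SemidirectProduct.inl_aut, map_inv]
        group
      rw [e, ← commutatorElement_def, commutator_def]
      exact Subgroup.commutator_mem_commutator (Subgroup.mem_top _) (Subgroup.mem_top _)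
    have h1 := Subgroup.prod_mem _ (fun (a : A) (_ : a ∈ (Finset.univ : Finset A)) => h0 a)
    exact h1

theorem kb_unit (hd : Nat.card A < l) : ∃ m : ℕ, ∀ f : Ω → CY l, f ^ (Nat.card A * m) = f := by
  have hl : l.Prime := Fact.out
  have hcop : Nat.Coprime (Nat.card A) l := by
    rw [Nat.coprime_comm, hl.coprime_iff_not_dvd]
    exact Nat.not_dvd_of_pos_of_lt Nat.card_pos hd
  obtain ⟨m, _, hm⟩ := Nat.exists_mul_mod_eq_one_of_coprime hcop hl.one_lt
  refine ⟨m, fun f => ?_⟩
  rw [← Nat.div_add_mod (Nat.card A * m) l, hm, pow_add, pow_mul, kb_pow, one_pow, one_mul, pow_one]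

/-- for `v` in the base group, `v ^ |A| = ∏_a v (a v)⁻¹ * ∏_a (a v)`, and the second factor is
invariant; `|A|` is prime to `l` -/
theorem zz_sup (hA : commutator A = ⊤) (hd : Nat.card A < l) (x : WR (CY l) A Ω) :
    ∃ z ∈ ZZ l A Ω, ∃ d ∈ commutator (WR (CY l) A Ω), x = z * d := by
  obtain ⟨m, hm⟩ := kb_unit l A Ω hd
  obtain ⟨d, hd1, hd2⟩ := kb_norm l A Ω (x.left ^ m)
  have h1 : (SemidirectProduct.inr x.right : WR (CY l) A Ω) ∈ commutator (WR (CY l) A Ω) := by
    have h2 : x.right ∈ commutator A := by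
      rw [hA]
      exact Subgroup.mem_top _
    have h3 : (commutator A).map (SemidirectProduct.inr : A →* WR (CY l) A Ω) ≤
        commutator (WR (CY l) A Ω) := by
      rw [commutator_def, commutator_def, Subgroup.map_commutator]
      exact Subgroup.commutator_mono le_top le_top
    exact h3 (Subgroup.mem_map_of_mem _ h2)
  refine ⟨SemidirectProduct.inl (kbN l A Ω (x.left ^ m)), ⟨rfl, fun a ω => kbN_inv l A Ω _ a ω⟩,
    SemidirectProduct.inl d * SemidirectProduct.inr x.right, Subgroup.mul_mem _ hd2 h1, ?_⟩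
  rw [← mul_assoc, ← map_mul, ← hd1, ← pow_mul, mul_comm m, hm,
    SemidirectProduct.inl_left_mul_inr_right]

/-- the homomorphism to the base group -/
def kbP : WR (CY l) A Ω →* (Ω → CY l) where
  toFun x := kbN l A Ω x.left
  map_one' := by
    rw [SemidirectProduct.one_left, map_one]
  map_mul' x y := by
    rw [SemidirectProduct.mul_left, map_mul, kbN_act]

/-- the homomorphism `(v, a) ↦ ∏_b b v` to the base group kills commutators, and is `z ↦ z ^ |A|` on
`ZZ` -/
theorem zz_inf (hd : Nat.card A < l) (x : WR (CY l) A Ω) (hx : x ∈ ZZ l A Ω)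
    (hx' : x ∈ commutator (WR (CY l) A Ω)) : x = 1 := by
  obtain ⟨m, hm⟩ := kb_unit l A Ω hd
  have h1 := Abelianization.commutator_subset_ker (kbP l A Ω) hx'
  rw [MonoidHom.mem_ker] at h1
  have h2 : kbN l A Ω x.left = 1 := h1
  rw [kbN_fix l A Ω x.left hx.2] at h2
  have h3 := hm x.left
  rw [pow_mul, h2, one_pow] at h3
  rw [kb_inl l A Ω x hx, ← h3, map_one]

open scoped commutatorElement in
theorem split_comm {X : Type} [Group X] {z w : X} (hz : ∀ x, z * x = x * z) (hw : ∀ x, w * x = x * w)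
    (d e : X) : ⁅z * d, w * e⁆ = ⁅d, e⁆ := by
  rw [commutatorElement_def, commutatorElement_def]
  calc z * d * (w * e) * (z * d)⁻¹ * (w * e)⁻¹
      = (z * (d * (w * e))) * d⁻¹ * z⁻¹ * e⁻¹ * w⁻¹ := by group
    _ = ((d * (w * e)) * z) * d⁻¹ * z⁻¹ * e⁻¹ * w⁻¹ := by rw [hz]
    _ = d * (w * e) * (z * d⁻¹) * z⁻¹ * e⁻¹ * w⁻¹ := by group
    _ = d * (w * e) * (d⁻¹ * z) * z⁻¹ * e⁻¹ * w⁻¹ := by rw [hz d⁻¹]
    _ = d * (w * (e * d⁻¹ * e⁻¹)) * w⁻¹ := by group
    _ = d * ((e * d⁻¹ * e⁻¹) * w) * w⁻¹ := by rw [hw]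
    _ = d * e * d⁻¹ * e⁻¹ := by group

/-- the commutator subgroup is perfect: `X = Z D`, `Z` central, so `D = [X, X] = [D, D]` -/
theorem comm_perfect (hA : commutator A = ⊤) (hd : Nat.card A < l) :
    commutator (commutator (WR (CY l) A Ω)) = ⊤ := by
  have key : commutator (WR (CY l) A Ω) ≤
      ⁅commutator (WR (CY l) A Ω), commutator (WR (CY l) A Ω)⁆ := by
    rw [commutator_def (WR (CY l) A Ω), Subgroup.commutator_le]
    intro x _ y _
    obtain ⟨z, hz, d, hd', rfl⟩ := zz_sup l A Ω hA hd x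
    obtain ⟨w, hw, e, he, rfl⟩ := zz_sup l A Ω hA hd y
    rw [split_comm (zz_central l A Ω z hz) (zz_central l A Ω w hw)]
    rw [commutator_def (WR (CY l) A Ω)] at hd' he
    exact Subgroup.commutator_mem_commutator hd' he
  rw [eq_top_iff]
  rintro ⟨x, hx⟩ -
  have hx' := key hx
  rw [← Subgroup.map_subtype_commutator, Subgroup.mem_map] at hx'
  obtain ⟨y, hy, hyx⟩ := hx'
  have e : y = ⟨x, hx⟩ := Subtype.ext hyx
  rwa [e] at hy

theorem comm_split (hA : commutator A = ⊤) (hd : Nat.card A < l) :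
    Nonempty (WR (CY l) A Ω ≃* ZZ l A Ω × commutator (WR (CY l) A Ω)) := by
  let f : ZZ l A Ω × commutator (WR (CY l) A Ω) →* WR (CY l) A Ω :=
    { toFun := fun p => (p.1 : WR (CY l) A Ω) * (p.2 : WR (CY l) A Ω)
      map_one' := by
        show ((1 : ZZ l A Ω) : WR (CY l) A Ω) * ((1 : commutator (WR (CY l) A Ω)) : WR (CY l) A Ω) = 1
        rw [Subgroup.coe_one, Subgroup.coe_one, one_mul]
      map_mul' := by
        rintro ⟨z, d⟩ ⟨w, e⟩
        show ((z * w : ZZ l A Ω) : WR (CY l) A Ω) * ((d * e : commutator (WR (CY l) A Ω)) : WR (CY l) A Ω) =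
          (z : WR (CY l) A Ω) * d * (w * e)
        rw [Subgroup.coe_mul, Subgroup.coe_mul]
        have h := zz_central l A Ω w w.2 d
        calc (z : WR (CY l) A Ω) * w * (d * e) = z * (w * d) * e := by group
          _ = z * (d * w) * e := by rw [h]
          _ = z * d * (w * e) := by group }
  have hf : Function.Bijective f := by
    constructor
    · rw [injective_iff_map_eq_one]
      rintro ⟨z, d⟩ h
      have h1 : (z : WR (CY l) A Ω) * d = 1 := h
      have h2 : (z : WR (CY l) A Ω) = (d : WR (CY l) A Ω)⁻¹ := eq_inv_of_mul_eq_one_left h1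
      have h3 : (z : WR (CY l) A Ω) = 1 := by
        refine zz_inf l A Ω hd z z.2 ?_
        rw [h2]
        exact Subgroup.inv_mem _ d.2
      have h4 : (d : WR (CY l) A Ω) = 1 := by
        rw [h3, one_mul] at h1
        exact h1
      exact Prod.ext (Subtype.ext h3) (Subtype.ext h4)
    · intro x
      obtain ⟨z, hz, d, hd', rfl⟩ := zz_sup l A Ω hA hd x
      exact ⟨(⟨z, hz⟩, ⟨d, hd'⟩), rfl⟩
  exact ⟨(MulEquiv.ofBijective f hf).symm⟩

end

end Pool.Agent.H373.KR
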