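import Pool.Agent.H373.KR.KW

set_option autoImplicit false

open scoped Classical

noncomputable section

namespace Pool.Agent.H373.KR

/-- the function with the value `c` at `ω` and `1` elsewhere -/
def kb_e {G Ω : Type} [Group G] (ω : Ω) (c : G) : Ω → G := fun x => if x = ω then c else 1

theorem kc_act {G A Ω : Type} [Group G] [Group A] [MulAction A Ω] (a : A) (f : Ω → G) (x : Ω) :
    (mulAutArrow (G := A) (A := Ω) (M := G)) a f x = f (a⁻¹ • x) := rfl

theorem kb_act_e {G A Ω : Type} [Group G] [Group A] [MulAction A Ω] (a : A) (ω : Ω) (c : G) :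
    (mulAutArrow (G := A) (A := Ω) (M := G)) a (kb_e ω c) = kb_e (a • ω) c := by
  funext x
  rw [kc_act]
  unfold kb_e
  by_cases h : x = a • ω
  · rw [if_pos h, if_pos (by rw [h, inv_smul_smul])]
  · rw [if_neg h, if_neg (fun h' => h (by rw [← h', smul_inv_smul]))]

/-- `V` = the elements of the commutator subgroup `D` with trivial second component. If `(w, a)` in `D`
centralises `V` then `a = 1`: otherwise `a ω ≠ ω` for some `ω`, and the element
`e_ω (e_{a ω})⁻¹` (a commutator, `e_ω` the function with the value `c` at `ω` and `1` elsewhere,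
`c` a generator of `CY l`) is not fixed by `a` since `l > 2`. -/
theorem comm_selfCent (p l : ℕ) [Fact l.Prime] (hl : l ≠ p) (A Ω : Type) [Group A] [Finite A]
    [MulAction A Ω] [Finite Ω] (hf : ∀ a : A, (∀ ω : Ω, a • ω = ω) → a = 1)
    (hd : Nat.card A < l) : SelfCent p (commutator (WR (CY l) A Ω)) := by
  refine ⟨l, Fact.out, hl,
    (SemidirectProduct.rightHom.comp (commutator (WR (CY l) A Ω)).subtype).ker, inferInstance, ?_, ?_⟩
  · intro v hv
    have hr : (v : WR (CY l) A Ω).right = 1 := hv
    have hv1 : (v : WR (CY l) A Ω) = SemidirectProduct.inl (v : WR (CY l) A Ω).left := by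
      ext
      · rw [SemidirectProduct.left_inl]
      · rw [hr, SemidirectProduct.right_inl]
    have h1 : (v : WR (CY l) A Ω).left ^ l = 1 := by
      funext ω
      rw [Pi.pow_apply, Pi.one_apply]
      generalize (v : WR (CY l) A Ω).left ω = x
      have h2 : x = Multiplicative.ofAdd (Multiplicative.toAdd x) := rfl
      rw [h2, ← ofAdd_nsmul, nsmul_eq_mul, CharP.cast_eq_zero, zero_mul, ofAdd_zero]
    apply Subtype.ext
    rw [Subgroup.coe_pow, Subgroup.coe_one, hv1, ← map_pow, h1, map_one]
  · apply le_antisymm
    · intro d hdc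
      rw [Subgroup.mem_centralizer_iff] at hdc
      show (d : WR (CY l) A Ω).right = 1
      by_contra hne
      obtain ⟨ω, hω⟩ : ∃ ω : Ω, (d : WR (CY l) A Ω).right • ω ≠ ω := by
        by_contra hcon
        push Not at hcon
        exact hne (hf _ hcon)
      set a := (d : WR (CY l) A Ω).right with ha
      -- the order is at least three
      have hcard : 3 ≤ l := by
        have h2 : 1 < Nat.card A := by
          rw [Finite.one_lt_card_iff_nontrivial]
          exact ⟨⟨a, 1, hne⟩⟩
        omega
      set c : CY l := Multiplicative.ofAdd 1 with hc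
      -- the commutator
      have hmem : (SemidirectProduct.inl (kb_e ω c) * SemidirectProduct.inr a *
          (SemidirectProduct.inl (kb_e ω c))⁻¹ * (SemidirectProduct.inr a)⁻¹ : WR (CY l) A Ω) ∈
          commutator (WR (CY l) A Ω) :=
        Subgroup.commutator_mem_commutator (Subgroup.mem_top _) (Subgroup.mem_top _)
      set v : commutator (WR (CY l) A Ω) := ⟨_, hmem⟩ with hv
      have hvi : (v : WR (CY l) A Ω) = SemidirectProduct.inl (kb_e ω c * (kb_e (a • ω) c)⁻¹) := by
        show (SemidirectProduct.inl (kb_e ω c) * SemidirectProduct.inr a *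
          (SemidirectProduct.inl (kb_e ω c))⁻¹ * (SemidirectProduct.inr a)⁻¹ : WR (CY l) A Ω) = _
        rw [map_mul, map_inv, ← kb_act_e, SemidirectProduct.inl_aut]
        simp only [mul_inv_rev, map_inv, inv_inv, mul_assoc]
      have hvr : (v : WR (CY l) A Ω).right = 1 := by
        rw [hvi, SemidirectProduct.right_inl]
      have hvl : (v : WR (CY l) A Ω).left = kb_e ω c * (kb_e (a • ω) c)⁻¹ := by
        rw [hvi, SemidirectProduct.left_inl]
      have hcomm := hdc v hvr
      have h3 := congrArg (fun w : commutator (WR (CY l) A Ω) => (w : WR (CY l) A Ω).left (a • ω)) hcomm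
      simp only [Subgroup.coe_mul, SemidirectProduct.mul_left, hvr, hvl, map_one, Pi.mul_apply,
        MulAut.one_apply, kc_act] at h3
      have q1 : kb_e ω c (a • ω) = 1 := if_neg hω
      have q2 : kb_e (a • ω) c (a • ω) = c := if_pos rfl
      have q3 : kb_e ω c ω = c := if_pos rfl
      have q4 : kb_e (a • ω) c ω = 1 := if_neg (fun h => hω h.symm)
      rw [← ha, inv_smul_smul, Pi.inv_apply, Pi.inv_apply, q1, q2, q3, q4, one_mul, inv_one,
        mul_one, mul_comm] at h3
      have h4 : c⁻¹ = c := mul_left_cancel h3
      have h5 : c * c = 1 := by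
        nth_rewrite 1 [← h4]
        exact inv_mul_cancel c
      have h6 : ((2 : ℕ) : ZMod l) = 0 := by
        have h7 : Multiplicative.ofAdd ((1 : ZMod l) + 1) = Multiplicative.ofAdd 0 := h5
        have h8 := Multiplicative.ofAdd.injective h7
        rw [Nat.cast_ofNat, ← one_add_one_eq_two]
        exact h8
      rw [ZMod.natCast_eq_zero_iff] at h6
      have h9 := Nat.le_of_dvd (by norm_num) h6
      omega
    · intro d hd1
      have hdr : (d : WR (CY l) A Ω).right = 1 := hd1
      rw [Subgroup.mem_centralizer_iff]
      intro v hv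
      have hvr : (v : WR (CY l) A Ω).right = 1 := hv
      apply Subtype.ext
      rw [Subgroup.coe_mul, Subgroup.coe_mul]
      ext
      · rw [SemidirectProduct.mul_left, SemidirectProduct.mul_left, hvr, hdr, map_one,
          MulAut.one_apply, MulAut.one_apply, mul_comm]
      · rw [SemidirectProduct.mul_right, SemidirectProduct.mul_right, hvr, hdr]

end Pool.Agent.H373.KR
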