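import Mathlib

/-!
# The Knörr-Robinson conjecture and perfect groups: a definition

`SelfCent p X`: the group `X` has, for some prime `l ≠ p`, a normal subgroup `V` of exponent dividing
`l` with `C_X(V) = V`.
-/

set_option autoImplicit false

namespace Pool.Agent.H373.KR

/-- For some prime `l` different from `p` the group `X` has a normal subgroup `V`, all of whose
elements satisfy `v ^ l = 1`, which is equal to its own centraliser. (So `V` is an elementary abelian
`l`-group.) -/
def SelfCent (p : ℕ) (X : Type) [Group X] : Prop :=
  ∃ l : ℕ, l.Prime ∧ l ≠ p ∧ ∃ V : Subgroup X, V.Normal ∧ (∀ v ∈ V, v ^ l = 1) ∧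
    Subgroup.centralizer (V : Set X) = V

end Pool.Agent.H373.KR
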