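import Pool.Agent.H373.KR.K0
import Pool.Agent.H373.KR.KS

set_option autoImplicit false

open scoped Classical

noncomputable section

namespace Pool.Agent.H373.KR

open Pool.Agent.Y63.KR (chi2 KRC)
open Pool.Agent.Results.MP_b6945b_al.WreathProducts (err Wr Cy Dz Sf err_def)

/-- trivial action on a point -/
@[reducible] def triv (D : Type) [Group D] : MulAction D Unit where
  smul _ x := x
  one_smul _ := rfl
  mul_smul _ _ _ := rfl

/-- `Z × D` is the wreath product of `Z` with `D` acting (trivially) on one point; use `err_wr`, all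
stabilisers `Sf f` are `⊤`, and `err_congr` -/
theorem krc_prod (p : ℕ) [Fact p.Prime] (Z D : Type) [Group Z] [Group D] [Finite Z] [Finite D]
    (hZ : KRC p Z) (hD : KRC p D) : KRC p (Z × D) := by
  letI := triv D
  have e : Wr Z D Unit ≃* Z × D :=
    { toFun := fun x => (x.left (), x.right)
      invFun := fun x => ⟨fun _ => x.1, x.2⟩
      left_inv := fun x => SemidirectProduct.ext (funext fun _ => rfl) rfl
      right_inv := fun x => rfl
      map_mul' := fun x y => rfl }
  rw [krc_iff, ← err_congr p _ _ e]
  have h1 := err_wr p Z D Unit hZ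
  have h2 : ∀ f : Unit → Dz p Z, err p (Sf (A := D) f) = 0 := by
    intro f
    have h3 : Sf (A := D) f = ⊤ := by
      rw [eq_top_iff]
      exact fun a _ ω => rfl
    rw [h3, err_congr p _ _ Subgroup.topEquiv]
    exact (krc_iff p D).mp hD
  rw [finsum_eq_zero_of_forall_eq_zero (fun f => by rw [h2 f, mul_zero])] at h1
  refine (mul_eq_zero.mp h1).resolve_left ?_
  have : 0 < Nat.card D := Nat.card_pos
  positivity

end Pool.Agent.H373.KR
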