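import Mathlib

/-!
# Combinatorial lemmas: Möbius inversion, invariant functions, a polynomial argument
-/

set_option autoImplicit false

open scoped Classical

noncomputable section

namespace Pool.Agent.H373.KR

theorem sum_le_eq {α : Type} [Fintype α] [PartialOrder α] (g : α → ℚ) (x : α) :
    ∑ y ∈ Finset.univ.filter (fun y => y ≤ x), g y =
      g x + ∑ y ∈ Finset.univ.filter (fun y => y < x), g y := by
  have h1 : Finset.univ.filter (fun y => y ≤ x) =
      insert x (Finset.univ.filter (fun y => y < x)) := by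
    ext y
    simp only [Finset.mem_filter, Finset.mem_univ, true_and, Finset.mem_insert]
    exact le_iff_eq_or_lt
  rw [h1, Finset.sum_insert (by simp)]

/-- Möbius inversion on a finite poset (strong induction, e.g. `WellFounded.fix`) -/
theorem exists_mob {α : Type} [Fintype α] [PartialOrder α] (F : α → ℚ) :
    ∃ g : α → ℚ, ∀ x, F x = ∑ y ∈ Finset.univ.filter (fun y => y ≤ x), g y := by
  have wf : WellFounded ((· < ·) : α → α → Prop) := wellFounded_lt
  obtain ⟨g, hg⟩ : ∃ g : α → ℚ, ∀ x,
      g x = F x - ∑ y ∈ Finset.univ.filter (fun y => y < x), g y := by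
    refine ⟨wf.fix (fun x G => F x - ∑ y ∈ (Finset.univ.filter (fun y => y < x)).attach,
      G y.1 (Finset.mem_filter.1 y.2).2), fun x => ?_⟩
    rw [wf.fix_eq]
    congr 1
    exact Finset.sum_attach (Finset.univ.filter (fun y => y < x))
      (wf.fix (fun x G => F x - ∑ y ∈ (Finset.univ.filter (fun y => y < x)).attach,
        G y.1 (Finset.mem_filter.1 y.2).2))
  refine ⟨g, fun x => ?_⟩
  rw [sum_le_eq, hg x]
  ring

/-- by induction `g y = 0` for all `y < x` -/
theorem mob_eq {α : Type} [Fintype α] [PartialOrder α] (F g : α → ℚ)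
    (h : ∀ x, F x = ∑ y ∈ Finset.univ.filter (fun y => y ≤ x), g y) (x : α)
    (hx : ∀ y, y < x → F y = 0) : g x = F x := by
  have wf : WellFounded ((· < ·) : α → α → Prop) := wellFounded_lt
  have key : ∀ y, y < x → g y = 0 := by
    intro y
    induction y using wf.induction with
    | _ y ih =>
      intro hy
      have h1 := h y
      rw [hx y hy, sum_le_eq, Finset.sum_eq_zero, add_zero] at h1
      · exact h1.symm
      · intro z hz
        have hz' : z < y := (Finset.mem_filter.1 hz).2
        exact ih z hz' (hz'.trans hy)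
  have h1 := h x
  rw [sum_le_eq, Finset.sum_eq_zero, add_zero] at h1
  · exact h1.symm
  · intro z hz
    exact key z (Finset.mem_filter.1 hz).2

/-- the number of orbits of the subgroup `K` on `Ω` -/
def orb {A Ω : Type} [Group A] [MulAction A Ω] (K : Subgroup A) : ℕ :=
  Nat.card (MulAction.orbitRel.Quotient K Ω)

/-- the number of `K`-invariant functions -/
theorem card_inv {A Ω X : Type} [Group A] [MulAction A Ω] [Finite A] [Finite Ω] [Finite X]
    (K : Subgroup A) :
    Nat.card {f : Ω → X // ∀ k ∈ K, ∀ ω, f (k • ω) = f ω} = Nat.card X ^ orb (Ω := Ω) K := by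
  have hfin : Finite (MulAction.orbitRel.Quotient K Ω) := inferInstance
  let e : {f : Ω → X // ∀ k ∈ K, ∀ ω, f (k • ω) = f ω} ≃ (MulAction.orbitRel.Quotient K Ω → X) :=
    { toFun := fun f => Quotient.lift (s := MulAction.orbitRel K Ω) f.1 (by
        intro x y hxy
        obtain ⟨k, hk⟩ := MulAction.orbitRel_apply.1 hxy
        rw [← hk]
        exact f.2 k.1 k.2 y)
      invFun := fun g => ⟨fun ω => g (Quotient.mk (MulAction.orbitRel K Ω) ω), by
        intro k hk ω
        exact congrArg g (Quotient.sound (s := MulAction.orbitRel K Ω) (MulAction.orbitRel_apply.2 ⟨⟨k, hk⟩, rfl⟩))⟩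
      left_inv := fun f => rfl
      right_inv := fun g => by
        funext q
        induction q using Quotient.inductionOn
        rfl }
  rw [Nat.card_congr e, Nat.card_fun]
  rfl

/-- a polynomial with infinitely many zeros vanishes -/
theorem coeff_of_primes {ι : Type} [Fintype ι] (g : ι → ℚ) (c : ι → ℕ) (M : ℕ)
    (h : ∀ l : ℕ, l.Prime → M < l → ∑ i, g i * (l : ℚ) ^ c i = 0) (c0 : ℕ) :
    ∑ i ∈ Finset.univ.filter (fun i => c i = c0), g i = 0 := by
  let P : Polynomial ℚ := ∑ i, Polynomial.C (g i) * Polynomial.X ^ c i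
  have hinf : {l : ℕ | l.Prime ∧ M < l}.Infinite := by
    rw [Set.infinite_iff_exists_gt]
    intro a
    obtain ⟨q, hq, hp⟩ := Nat.exists_infinite_primes (max a M + 1)
    exact ⟨q, ⟨hp, by omega⟩, by omega⟩
  have h0 : P = 0 := by
    apply Polynomial.eq_zero_of_infinite_isRoot
    refine (hinf.image (f := fun l : ℕ => (l : ℚ)) (Nat.cast_injective.injOn)).mono ?_
    rintro _ ⟨l, ⟨hl, hM⟩, rfl⟩
    simp only [Set.mem_ofPred_eq, Polynomial.IsRoot.def, P, Polynomial.eval_finsetSum,
      Polynomial.eval_mul, Polynomial.eval_C, Polynomial.eval_pow, Polynomial.eval_X]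
    exact h l hl hM
  have h1 : P.coeff c0 = 0 := by rw [h0, Polynomial.coeff_zero]
  rw [← h1]
  simp only [P, Polynomial.finsetSum_coeff, Polynomial.coeff_C_mul, Polynomial.coeff_X_pow]
  rw [Finset.sum_filter]
  refine Finset.sum_congr rfl fun i _ => ?_
  by_cases hi : c i = c0
  · rw [if_pos hi, if_pos hi.symm, mul_one]
  · rw [if_neg hi, if_neg (Ne.symm hi), mul_zero]

/-- double counting: `S f` the stabiliser of `f` -/
theorem double_count {A Ω X : Type} [Group A] [MulAction A Ω] [Finite A] [Finite Ω] [Finite X]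
    [Fintype (Subgroup A)] (F g : Subgroup A → ℚ)
    (h : ∀ x, F x = ∑ y ∈ Finset.univ.filter (fun y => y ≤ x), g y)
    (S : (Ω → X) → Subgroup A) (hS : ∀ f a, a ∈ S f ↔ ∀ ω, f (a • ω) = f ω) :
    ∑ᶠ f : Ω → X, F (S f) = ∑ K : Subgroup A, g K * (Nat.card X : ℚ) ^ orb (Ω := Ω) K := by
  have : Fintype (Ω → X) := Fintype.ofFinite _
  rw [finsum_eq_sum_of_fintype]
  have h1 : ∀ f : Ω → X, F (S f) = ∑ K : Subgroup A, if K ≤ S f then g K else 0 := fun f => by
    rw [h (S f), Finset.sum_filter]
  rw [Finset.sum_congr rfl fun f _ => h1 f, Finset.sum_comm]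
  refine Finset.sum_congr rfl fun K _ => ?_
  rw [← Finset.sum_filter, Finset.sum_const, nsmul_eq_mul, mul_comm]
  congr 1
  rw [← Nat.cast_pow, ← card_inv (Ω := Ω) (X := X) K]
  congr 1
  rw [Nat.card_eq_fintype_card, Fintype.card_subtype]
  congr 1
  ext f
  simp only [Finset.mem_filter, Finset.mem_univ, true_and]
  constructor
  · intro hf k hk ω
    exact (hS f k).1 (hf hk) ω
  · intro hf k hk
    exact (hS f k).2 (hf k hk)

end Pool.Agent.H373.KR
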