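import Pool.Agent.H373.KR.KW

/-!
# Every finite group embeds into a perfect group
-/

set_option autoImplicit false

open scoped Classical

noncomputable section

namespace Pool.Agent.H373.KR

/-- alternating group of degree `n + 5`; `2 |Alt| = (n + 5)!` is divisible by `2 n` -/
theorem exists_alt (n : ℕ) (hn : 0 < n) : ∃ (P : Type) (_ : Group P), Finite P ∧
    commutator P = ⊤ ∧ n ∣ Nat.card P := by
  have hc : 5 ≤ Nat.card (Fin (n + 5)) := by
    rw [Nat.card_eq_fintype_card, Fintype.card_fin]
    omega
  have hnt : Nontrivial (Fin (n + 5)) := inferInstance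
  refine ⟨alternatingGroup (Fin (n + 5)), inferInstance, inferInstance, ?_, ?_⟩
  · exact commutator_alternatingGroup_eq_top hc
  · have h1 : 2 * Nat.card (alternatingGroup (Fin (n + 5))) = (n + 5).factorial := by
      rw [two_mul_nat_card_alternatingGroup, Nat.card_perm, Nat.card_eq_fintype_card,
        Fintype.card_fin]
    have h2 : 2 * n ∣ (n + 5).factorial := by
      have e : (n + 5).factorial = (n + 5) * ((n + 4) * ((n + 3) * ((n + 2) * ((n + 1) *
          (n * (n - 1).factorial))))) := by
        have h3 : n.factorial = n * (n - 1).factorial :=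
          (Nat.mul_factorial_pred hn.ne').symm
        rw [← h3]
        simp only [Nat.factorial_succ]
      have h4 : 2 ∣ (n + 2) * (n + 1) := by
        rcases Nat.even_or_odd n with h | h
        · exact Dvd.dvd.mul_right (by
            obtain ⟨k, hk⟩ := h
            exact ⟨k + 1, by omega⟩) _
        · exact Dvd.dvd.mul_left (by
            obtain ⟨k, hk⟩ := h
            exact ⟨k + 1, by omega⟩) _
      obtain ⟨c, hc⟩ := h4
      rw [e]
      refine ⟨(n + 5) * (n + 4) * (n + 3) * c * (n - 1).factorial, ?_⟩
      calc (n + 5) * ((n + 4) * ((n + 3) * ((n + 2) * ((n + 1) * (n * (n - 1).factorial)))))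
          = (n + 5) * (n + 4) * (n + 3) * ((n + 2) * (n + 1)) * n * (n - 1).factorial := by ring
        _ = 2 * n * ((n + 5) * (n + 4) * (n + 3) * c * (n - 1).factorial) := by
            rw [hc]
            ring
    rw [← h1] at h2
    exact Nat.dvd_of_mul_dvd_mul_left two_pos h2

section

variable (G P : Type) [Group G] [Finite G] [Group P] [Finite P]

/-- the normal closure of `P` in the regular wreath product -/
def NN : Subgroup (WR G P P) :=
  Subgroup.normalClosure (Set.range (SemidirectProduct.inr : P → WR G P P))

/-- `⁅N, N⁆` is normal and contains `⁅P, P⁆ = P` -/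
theorem nn_perfect (hP : commutator P = ⊤) : commutator (NN G P) = ⊤ := by
  have hN : (NN G P).Normal := Subgroup.normalClosure_normal
  have h1 : (⊤ : Subgroup P).map (SemidirectProduct.inr : P →* WR G P P) ≤ NN G P := by
    rintro _ ⟨x, _, rfl⟩
    exact Subgroup.subset_normalClosure ⟨x, rfl⟩
  have h2 : (⊤ : Subgroup P).map (SemidirectProduct.inr : P →* WR G P P) ≤
      ⁅NN G P, NN G P⁆ := by
    have h3 : (⊤ : Subgroup P) = ⁅(⊤ : Subgroup P), ⊤⁆ := by
      rw [← commutator_def, hP]
    rw [h3, Subgroup.map_commutator]
    exact Subgroup.commutator_mono h1 h1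
  have h4 : NN G P ≤ ⁅NN G P, NN G P⁆ := by
    apply Subgroup.normalClosure_le_normal
    rintro _ ⟨x, rfl⟩
    exact h2 ⟨x, Subgroup.mem_top x, rfl⟩
  apply Subgroup.map_injective (NN G P).subtype_injective
  rw [Subgroup.map_subtype_commutator]
  refine le_antisymm (Subgroup.commutator_le_left _ _) ?_ |>.trans ?_
  · exact h4
  · rw [← MonoidHom.range_eq_map, Subgroup.range_subtype]

/-- in the quotient by `N` the images of `mulSingle i g` and `mulSingle j g` are equal, so the image of
the constant function `g` (the product of the commuting elements `mulSingle i g`,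
`Finset.noncommProd_mulSingle`) is `(the image of mulSingle 1 g) ^ |P| = 1` -/
theorem const_mem (h : Nat.card G ∣ Nat.card P) (g : G) :
    (SemidirectProduct.inl (fun _ : P => g) : WR G P P) ∈ NN G P := by
  have hN : (NN G P).Normal := Subgroup.normalClosure_normal
  have : Fintype P := Fintype.ofFinite P
  obtain ⟨π, hπ⟩ : ∃ π : WR G P P →* WR G P P ⧸ NN G P, π = QuotientGroup.mk' (NN G P) := ⟨_, rfl⟩
  have hker : ∀ x, π x = 1 ↔ x ∈ NN G P := by
    intro x
    rw [hπ]
    exact QuotientGroup.eq_one_iff x
  have hr : ∀ p : P, π (SemidirectProduct.inr p) = 1 := fun p =>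
    (hker _).2 (Subgroup.subset_normalClosure ⟨p, rfl⟩)
  -- translation
  have ht : ∀ (p : P) (f : P → G),
      π (SemidirectProduct.inl (fun x => f (p⁻¹ * x))) = π (SemidirectProduct.inl f) := by
    intro p f
    have e : (SemidirectProduct.inl (fun x => f (p⁻¹ * x)) : WR G P P) =
        SemidirectProduct.inr p * SemidirectProduct.inl f * SemidirectProduct.inr p⁻¹ :=
      SemidirectProduct.inl_aut p f
    rw [e, map_mul, map_mul, hr, hr, one_mul, mul_one]
  obtain ⟨s, hs⟩ : ∃ s : P → P → G, s = fun i x => if x = i then g else 1 := ⟨_, rfl⟩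
  have h1 : ∀ i, π (SemidirectProduct.inl (s i)) = π (SemidirectProduct.inl (s 1)) := by
    intro i
    rw [← ht i (s 1)]
    congr 2
    funext x
    rw [hs]
    simp only [inv_mul_eq_one]
    by_cases hx : x = i
    · rw [if_pos hx, if_pos hx.symm]
    · rw [if_neg hx, if_neg (Ne.symm hx)]
  have h2 : ∀ S : Finset P, π (SemidirectProduct.inl fun x => if x ∈ S then g else 1) =
      π (SemidirectProduct.inl (s 1)) ^ S.card := by
    intro S
    induction S using Finset.induction_on with
    | empty =>
      have e : (fun x : P => if x ∈ (∅ : Finset P) then g else 1) = 1 := by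
        funext x
        simp
      rw [e, map_one, map_one, Finset.card_empty, pow_zero]
    | insert a S ha ih =>
      have e : (fun x : P => if x ∈ insert a S then g else 1) =
          s a * fun x => if x ∈ S then g else 1 := by
        funext x
        rw [Pi.mul_apply, hs]
        by_cases hx : x = a
        · subst hx
          simp [ha]
        · simp [hx]
      rw [e, map_mul, map_mul, ih, h1, Finset.card_insert_of_notMem ha, pow_succ']
  have h3 : (s 1) ^ Fintype.card P = 1 := by
    funext x
    rw [Pi.pow_apply, hs, Pi.one_apply]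
    have hg : g ^ Fintype.card P = 1 := by
      rw [← Nat.card_eq_fintype_card]
      exact orderOf_dvd_iff_pow_eq_one.1 ((orderOf_dvd_natCard g).trans h)
    show (if x = 1 then g else 1) ^ Fintype.card P = 1
    by_cases hx : x = 1
    · rw [if_pos hx, hg]
    · rw [if_neg hx, one_pow]
  rw [← hker]
  have h4 := h2 Finset.univ
  simp only [Finset.mem_univ, if_true] at h4
  rw [h4, Finset.card_univ, ← map_pow, ← map_pow, h3, map_one, map_one]

end

end Pool.Agent.H373.KR
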