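import Pool.Agent.H373.KR.KW
import Pool.Agent.H373.KR.KC

/-!
# Subgroups of the regular wreath product with given numbers of orbits
-/

set_option autoImplicit false

open scoped Classical

noncomputable section

namespace Pool.Agent.H373.KR

section

variable {A Ω Ω' : Type} [Group A] [MulAction A Ω] [MulAction A Ω'] [Finite A] [Finite Ω] [Finite Ω']

/-- orbits of a sum -/
def sumOrb (K : Subgroup A) : MulAction.orbitRel.Quotient K (Ω ⊕ Ω') ≃
    MulAction.orbitRel.Quotient K Ω ⊕ MulAction.orbitRel.Quotient K Ω' where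
  toFun := Quotient.lift
    (Sum.elim (fun a => Sum.inl (Quotient.mk (MulAction.orbitRel K Ω) a))
      (fun b => Sum.inr (Quotient.mk (MulAction.orbitRel K Ω') b))) (by
      rintro (a | a) (b | b) ⟨k, hk⟩
      · refine congrArg Sum.inl (Quotient.sound ⟨k, ?_⟩)
        exact Sum.inl_injective hk
      · exact absurd hk (by simp)
      · exact absurd hk (by simp)
      · refine congrArg Sum.inr (Quotient.sound ⟨k, ?_⟩)
        exact Sum.inr_injective hk)
  invFun := Sum.elim
    (Quotient.lift (fun a => Quotient.mk (MulAction.orbitRel K (Ω ⊕ Ω')) (Sum.inl a)) (by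
      rintro a b ⟨k, hk⟩
      exact Quotient.sound ⟨k, congrArg Sum.inl hk⟩))
    (Quotient.lift (fun a => Quotient.mk (MulAction.orbitRel K (Ω ⊕ Ω')) (Sum.inr a)) (by
      rintro a b ⟨k, hk⟩
      exact Quotient.sound ⟨k, congrArg Sum.inr hk⟩))
  left_inv x := by
    induction x using Quotient.inductionOn with
    | h a => rcases a with a | a <;> rfl
  right_inv x := by
    rcases x with x | x
    · induction x using Quotient.inductionOn with
      | h a => rfl
    · induction x using Quotient.inductionOn with
      | h a => rfl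

theorem orb_sum (K : Subgroup A) : orb (Ω := Ω ⊕ Ω') K = orb (Ω := Ω) K + orb (Ω := Ω') K := by
  unfold orb
  rw [Nat.card_congr (sumOrb K), Nat.card_sum]

/-- `T` copies -/
@[reducible] def copyAct (A Ω T : Type) [Group A] [MulAction A Ω] : MulAction A (Ω × T) where
  smul a x := (a • x.1, x.2)
  one_smul x := Prod.ext (one_smul A x.1) rfl
  mul_smul a b x := Prod.ext (mul_smul a b x.1) rfl

/-- orbits of copies -/
def copyOrb (K : Subgroup A) (T : Type) :
    @MulAction.orbitRel.Quotient K (Ω × T) _ (@Subgroup.instMulAction _ _ _ (copyAct A Ω T) K) ≃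
      MulAction.orbitRel.Quotient K Ω × T :=
  letI := copyAct A Ω T
  { toFun := Quotient.lift (fun a : Ω × T => (Quotient.mk (MulAction.orbitRel K Ω) a.1, a.2)) (by
      rintro ⟨a, t⟩ ⟨b, u⟩ ⟨k, hk⟩
      have h1 : k • b = a := congrArg Prod.fst hk
      have h2 : u = t := congrArg Prod.snd hk
      exact Prod.ext (Quotient.sound ⟨k, h1⟩) h2.symm)
    invFun := fun x => Quotient.lift
      (fun a : Ω => Quotient.mk (MulAction.orbitRel K (Ω × T)) (a, x.2)) (by
      rintro a b ⟨k, hk⟩
      exact Quotient.sound ⟨k, Prod.ext hk rfl⟩) x.1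
    left_inv := fun x => by
      induction x using Quotient.inductionOn with
      | h a => rfl
    right_inv := fun x => by
      obtain ⟨x, t⟩ := x
      induction x using Quotient.inductionOn with
      | h a => rfl }

theorem orb_copy (K : Subgroup A) (T : ℕ) :
    @orb A (Ω × Fin T) _ (copyAct A Ω (Fin T)) K = orb (Ω := Ω) K * T := by
  unfold orb
  rw [Nat.card_congr (copyOrb K (Fin T)), Nat.card_prod]
  simp

/-- the regular action -/
theorem orb_reg (K : Subgroup A) : orb (Ω := A) K * Nat.card K = Nat.card A := by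
  have h1 : orb (Ω := A) K = K.index := by
    unfold orb Subgroup.index
    exact Nat.card_congr (QuotientGroup.quotientRightRelEquivQuotientLeftRel K)
  rw [h1]
  exact K.index_mul_card

theorem orb_le (K : Subgroup A) : orb (Ω := Ω) K ≤ Nat.card Ω := by
  unfold orb
  exact Nat.card_le_card_of_surjective (fun a => Quotient.mk (MulAction.orbitRel K Ω) a)
    Quotient.mk_surjective

end

section

variable (G P : Type) [Group G] [Finite G] [Group P] [Finite P]

/-- the action of the regular wreath product on the blocks -/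
@[reducible] def actP : MulAction (WR G P P) P where
  smul x i := x.right * i
  one_smul i := one_mul i
  mul_smul x y i := mul_assoc x.right y.right i

/-- the imprimitive action -/
@[reducible] def actGP : MulAction (WR G P P) (G × P) where
  smul x q := (x.left (x.right * q.2) * q.1, x.right * q.2)
  one_smul q := by
    change (((1 : WR G P P).left ((1 : WR G P P).right * q.2) * q.1,
      (1 : WR G P P).right * q.2) : G × P) = q
    rw [SemidirectProduct.one_left, SemidirectProduct.one_right, one_mul, Pi.one_apply, one_mul]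
  mul_smul x y q := by
    change (((x * y).left ((x * y).right * q.2) * q.1, (x * y).right * q.2) : G × P) =
      (x.left (x.right * (y.right * q.2)) * (y.left (y.right * q.2) * q.1),
        x.right * (y.right * q.2))
    have e : (x * y).left ((x * y).right * q.2) =
        x.left (x.right * (y.right * q.2)) * y.left (y.right * q.2) := by
      rw [SemidirectProduct.mul_left, SemidirectProduct.mul_right, Pi.mul_apply, mul_assoc]
      congr 1
      change y.left (x.right⁻¹ • (x.right * (y.right * q.2))) = _
      rw [smul_eq_mul, inv_mul_cancel_left]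
    rw [e, SemidirectProduct.mul_right, mul_assoc, mul_assoc]

/-- a map which is constant on orbits and surjective -/
theorem inj_of_card {A Ω Y : Type} [Group A] [MulAction A Ω] [Finite Ω] (K : Subgroup A)
    (π : Ω → Y) (hπ : Function.Surjective π) (hK : ∀ k ∈ K, ∀ ω : Ω, π (k • ω) = π ω)
    (h : orb (Ω := Ω) K = Nat.card Y) (a b : Ω) (hab : π a = π b) : ∃ k ∈ K, k • b = a := by
  have hfin : Finite (MulAction.orbitRel.Quotient K Ω) := Quotient.finite _
  let q : MulAction.orbitRel.Quotient K Ω → Y := Quotient.lift π (by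
    rintro x y ⟨k, rfl⟩
    exact hK k.1 k.2 y)
  have hq : Function.Surjective q := fun y => by
    obtain ⟨x, rfl⟩ := hπ y
    exact ⟨Quotient.mk _ x, rfl⟩
  have hb : Function.Bijective q := (Nat.bijective_iff_surjective_and_card q).2 ⟨hq, h⟩
  have h1 : (Quotient.mk (MulAction.orbitRel K Ω) a) = Quotient.mk (MulAction.orbitRel K Ω) b :=
    hb.1 hab
  obtain ⟨k, hk⟩ := Quotient.exact h1
  exact ⟨k.1, k.2, hk⟩

theorem card_of_inj {A Ω Y : Type} [Group A] [MulAction A Ω] [Finite Ω] (K : Subgroup A)
    (π : Ω → Y) (hπ : Function.Surjective π) (hK : ∀ k ∈ K, ∀ ω : Ω, π (k • ω) = π ω)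
    (h : ∀ a b : Ω, π a = π b → ∃ k ∈ K, k • b = a) : orb (Ω := Ω) K = Nat.card Y := by
  let q : MulAction.orbitRel.Quotient K Ω → Y := Quotient.lift π (by
    rintro x y ⟨k, rfl⟩
    exact hK k.1 k.2 y)
  refine Nat.card_congr (Equiv.ofBijective q ⟨?_, fun y => ?_⟩)
  · rintro ⟨a⟩ ⟨b⟩ hab
    obtain ⟨k, hk, hkb⟩ := h a b hab
    exact Quotient.sound ⟨⟨k, hk⟩, hkb⟩
  · obtain ⟨x, rfl⟩ := hπ y
    exact ⟨Quotient.mk _ x, rfl⟩

/-- if `K` has as many orbits on `P` as the trivial group then it lies in the base group, and if it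
also has `|P|` orbits on `G × P` then all projections of `K` to `G` are surjective; so they are
bijective if `|K| = |G|` -/
theorem iso_of_orb (N : Subgroup (WR G P P)) (K : Subgroup N)
    (h0 : Nat.card K = Nat.card G)
    (h1 : @orb N P _ (@Subgroup.instMulAction _ _ _ (actP G P) N) K = Nat.card P)
    (h2 : @orb N (G × P) _ (@Subgroup.instMulAction _ _ _ (actGP G P) N) K = Nat.card P) :
    Nonempty (K ≃* G) := by
  -- the elements of `K` lie in the base group
  have hr : ∀ k ∈ K, (k : WR G P P).right = 1 := by
    intro k hk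
    letI : MulAction N P := @Subgroup.instMulAction _ _ _ (actP G P) N
    let π : P → MulAction.orbitRel.Quotient K P := fun i => Quotient.mk _ i
    have hπ : Function.Surjective π := fun y => Quotient.inductionOn y fun i => ⟨i, rfl⟩
    have hb : Function.Bijective π := (Nat.bijective_iff_surjective_and_card π).2 ⟨hπ, h1.symm⟩
    have h3 : π (k • (1 : P)) = π 1 := Quotient.sound ⟨⟨k, hk⟩, rfl⟩
    have h4 : k • (1 : P) = 1 := hb.1 h3
    have h5 : (k : WR G P P).right * 1 = 1 := h4
    rwa [mul_one] at h5
  have hs : ∀ g : G, ∃ k ∈ K, (k : WR G P P).left 1 = g := by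
    intro g
    letI : MulAction N (G × P) := @Subgroup.instMulAction _ _ _ (actGP G P) N
    obtain ⟨k, hk, hkb⟩ := inj_of_card K (fun q : G × P => q.2) (fun i => ⟨(1, i), rfl⟩)
      (by
        intro k hk q
        change (k : WR G P P).right * q.2 = q.2
        rw [hr k hk, one_mul]) h2 (g, 1) (1, 1) rfl
    refine ⟨k, hk, ?_⟩
    have h3 : ((k : WR G P P).left ((k : WR G P P).right * 1) * 1, (k : WR G P P).right * 1) =
        ((g, 1) : G × P) := hkb
    have h4 := congrArg Prod.fst h3
    simp only at h4
    rwa [hr k hk, mul_one, mul_one] at h4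
  let φ : K →* G :=
    { toFun := fun k => ((k : N) : WR G P P).left 1
      map_one' := rfl
      map_mul' := fun k k' => by
        change (((k : N) : WR G P P) * ((k' : N) : WR G P P)).left 1 = _
        rw [SemidirectProduct.mul_left, Pi.mul_apply, hr k.1 k.2, map_one]
        rfl }
  have hφ : Function.Surjective φ := fun g => by
    obtain ⟨k, hk, h⟩ := hs g
    exact ⟨⟨k, hk⟩, h⟩
  have hfin : Finite K := Nat.finite_of_card_ne_zero (by
    rw [h0]
    exact Nat.card_pos.ne')
  exact ⟨MulEquiv.ofBijective φ ((Nat.bijective_iff_surjective_and_card φ).2 ⟨hφ, h0⟩)⟩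

/-- the diagonal -/
theorem orb_diag (N : Subgroup (WR G P P)) (K : Subgroup N)
    (hN : ∀ g : G, (SemidirectProduct.inl (fun _ : P => g) : WR G P P) ∈ N)
    (hK : ∀ x : N, x ∈ K ↔ ∃ g : G, (x : WR G P P) = SemidirectProduct.inl (fun _ : P => g)) :
    @orb N P _ (@Subgroup.instMulAction _ _ _ (actP G P) N) K = Nat.card P ∧
    @orb N (G × P) _ (@Subgroup.instMulAction _ _ _ (actGP G P) N) K = Nat.card P := by
  have hr : ∀ k ∈ K, (k : WR G P P).right = 1 := by
    intro k hk
    obtain ⟨g, hg⟩ := (hK k).1 hk
    rw [hg, SemidirectProduct.right_inl]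
  constructor
  · letI : MulAction N P := @Subgroup.instMulAction _ _ _ (actP G P) N
    refine card_of_inj K id Function.surjective_id ?_ ?_
    · intro k hk i
      change (k : WR G P P).right * i = i
      rw [hr k hk, one_mul]
    · intro a b hab
      exact ⟨1, K.one_mem, (one_smul N b).trans hab.symm⟩
  · letI : MulAction N (G × P) := @Subgroup.instMulAction _ _ _ (actGP G P) N
    refine card_of_inj K (fun q : G × P => q.2) (fun i => ⟨(1, i), rfl⟩) ?_ ?_
    · intro k hk q
      change (k : WR G P P).right * q.2 = q.2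
      rw [hr k hk, one_mul]
    · rintro ⟨a, i⟩ ⟨b, j⟩ hij
      have hij' : i = j := hij
      subst hij'
      refine ⟨⟨SemidirectProduct.inl (fun _ : P => a * b⁻¹), hN _⟩, (hK _).2 ⟨_, rfl⟩, ?_⟩
      change ((SemidirectProduct.inl (fun _ : P => a * b⁻¹) : WR G P P).left
        ((SemidirectProduct.inl (fun _ : P => a * b⁻¹) : WR G P P).right * i) * b,
        (SemidirectProduct.inl (fun _ : P => a * b⁻¹) : WR G P P).right * i) = ((a, i) : G × P)
      rw [SemidirectProduct.left_inl, SemidirectProduct.right_inl, one_mul, inv_mul_cancel_right]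

end

end Pool.Agent.H373.KR
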