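import Pool.Agent.H373.KR.KA
import Pool.Agent.H373.KR.KB
import Pool.Agent.H373.KR.KB2
import Pool.Agent.H373.KR.KB3
import Pool.Agent.H373.KR.KC
import Pool.Agent.H373.KR.KD
import Pool.Agent.H373.KR.KE

/-!
# The Knörr-Robinson conjecture for perfect groups implies it for all groups
-/

set_option autoImplicit false

open scoped Classical

noncomputable section

namespace Pool.Agent.H373.KR

open Pool.Agent.Y63.KR (chi2 KRC)
open Pool.Agent.Y63.AWC (IsIrreducibleCharacter numDefectZero)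
open Pool.Agent.Results.MP_b6945b_al.WreathProducts (err Wr Cy Dz Sf err_def)

theorem digits3 (T a v u a' v' u' : ℕ) (h : a + (v * T + u * T ^ 2) = a' + (v' * T + u' * T ^ 2))
    (ha : a < T) (ha' : a' < T) (hv : v < T) (hv' : v' < T) : a = a' ∧ v = v' ∧ u = u' := by
  have h1 : a + T * (v + T * u) = a' + T * (v' + T * u') := by
    calc a + T * (v + T * u) = a + (v * T + u * T ^ 2) := by ring
      _ = a' + (v' * T + u' * T ^ 2) := h
      _ = a' + T * (v' + T * u') := by ring
  have hT : 0 < T := by omega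
  have h2 : a = a' := by
    have := congrArg (· % T) h1
    simpa [Nat.add_mul_mod_self_left, Nat.mod_eq_of_lt ha, Nat.mod_eq_of_lt ha'] using this
  subst h2
  have h3 : v + T * u = v' + T * u' := Nat.eq_of_mul_eq_mul_left hT (Nat.add_left_cancel h1)
  have h4 : v = v' := by
    have := congrArg (· % T) h3
    simpa [Nat.add_mul_mod_self_left, Nat.mod_eq_of_lt hv, Nat.mod_eq_of_lt hv'] using this
  subst h4
  exact ⟨rfl, rfl, Nat.eq_of_mul_eq_mul_left hT (Nat.add_left_cancel h3)⟩

section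

variable (p : ℕ) [Fact p.Prime]
  (H : ∀ (X : Type) [Group X] [Finite X], commutator X = ⊤ → SelfCent p X → KRC p X)

include H

theorem krc_wr (l : ℕ) [Fact l.Prime] (hl : l ≠ p) (A Ω : Type) [Group A] [Finite A]
    [MulAction A Ω] [Finite Ω] (hA : commutator A = ⊤)
    (hf : ∀ a : A, (∀ ω : Ω, a • ω = ω) → a = 1) (hd : Nat.card A < l) :
    KRC p (Wr (Cy l) A Ω) := by
  obtain ⟨e⟩ := comm_split l A Ω hA hd
  have h0 : Finite (Wr (Cy l) A Ω) :=
    Finite.of_injective (fun x => (x.left, x.right)) (fun x y hxy =>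
      SemidirectProduct.ext (congrArg Prod.fst hxy) (congrArg Prod.snd hxy))
  have h1 : KRC p (commutator (WR (CY l) A Ω)) :=
    H _ (comm_perfect l A Ω hA hd) (comm_selfCent p l hl A Ω hf hd)
  have h2 : KRC p (ZZ l A Ω) := by
    refine krc_coprime p _ ?_
    have h3 : IsPGroup l (ZZ l A Ω) := fun z => ⟨1, by
      rw [pow_one]
      exact Subtype.ext (zz_exp l A Ω z.1 z.2)⟩
    obtain ⟨n, hn⟩ := IsPGroup.iff_card.mp h3
    rw [hn]
    intro hh
    exact hl ((Nat.prime_dvd_prime_iff_eq Fact.out Fact.out).mp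
      ((Fact.out : p.Prime).dvd_of_dvd_pow hh)).symm
  have h3 : KRC p (ZZ l A Ω × commutator (WR (CY l) A Ω)) := krc_prod p _ _ h2 h1
  rw [krc_iff] at h3 ⊢
  rw [err_congr p _ _ e]
  exact h3

theorem step_zero (A Ω : Type) [Group A] [Finite A] [MulAction A Ω] [Finite Ω]
    (hA : commutator A = ⊤) (hf : ∀ a : A, (∀ ω : Ω, a • ω = ω) → a = 1)
    [Fintype (Subgroup A)] (g : Subgroup A → ℚ)
    (hg : ∀ x : Subgroup A, (Nat.card x : ℚ) * err p x =
      ∑ y ∈ Finset.univ.filter (fun y => y ≤ x), g y) (c0 : ℕ) :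
    ∑ K ∈ Finset.univ.filter (fun K : Subgroup A => orb (Ω := Ω) K = c0), g K = 0 := by
  refine coeff_of_primes g (fun K : Subgroup A => orb (Ω := Ω) K) (Nat.card A + p) ?_ c0
  intro l hl hM
  have : Fact l.Prime := ⟨hl⟩
  have hlp : l ≠ p := by omega
  have hd : Nat.card A < l := by omega
  have h1 := krc_wr p H l hlp A Ω hA hf hd
  rw [krc_iff] at h1
  have h2 : KRC p (Cy l) := by
    refine krc_coprime p _ ?_
    rw [show Nat.card (Cy l) = l by rw [Nat.card_congr Multiplicative.toAdd, Nat.card_zmod]]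
    intro hh
    exact hlp ((Nat.prime_dvd_prime_iff_eq Fact.out Fact.out).mp hh).symm
  have h3 := err_wr p (Cy l) A Ω h2
  rw [h1, mul_zero] at h3
  have hfin : Finite (Dz p (Cy l)) := Nat.finite_of_card_ne_zero (by
    rw [card_Dz p l hlp]
    exact hl.ne_zero)
  have h4 := double_count (Ω := Ω) (X := Dz p (Cy l)) (fun S : Subgroup A =>
    (Nat.card S : ℚ) * err p S) g hg (fun f => Sf (A := A) f) (fun f a => Iff.rfl)
  rw [card_Dz p l hlp] at h4
  rw [← h4]
  exact h3.symm

theorem krc_of_smaller (G : Type) [Group G] [Finite G]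
    (ih : ∀ (K : Type) [Group K] [Finite K], Nat.card K < Nat.card G → KRC p K) : KRC p G := by
  obtain ⟨P, _, _, hP, hn⟩ := exists_alt (Nat.card G) Nat.card_pos
  let N := NN G P
  have hWfin : Finite (WR G P P) :=
    Finite.of_injective (fun x => (x.left, x.right)) (fun x y hxy =>
      SemidirectProduct.ext (congrArg Prod.fst hxy) (congrArg Prod.snd hxy))
  have hN : commutator N = ⊤ := nn_perfect G P hP
  have hc : ∀ g : G, (SemidirectProduct.inl (fun _ : P => g) : WR G P P) ∈ N :=
    const_mem G P hn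
  -- the actions
  let T := Nat.card N + Nat.card (G × P) + 1
  let i1 : MulAction N P := @Subgroup.instMulAction _ _ _ (actP G P) N
  let i2 : MulAction N (G × P) := @Subgroup.instMulAction _ _ _ (actGP G P) N
  let i3 : MulAction N ((G × P) × Fin T) := copyAct N (G × P) (Fin T)
  let i4 : MulAction N (P × Fin (T ^ 2)) := copyAct N P (Fin (T ^ 2))
  let i5 : MulAction N (((G × P) × Fin T) ⊕ (P × Fin (T ^ 2))) := inferInstance
  let i6 : MulAction N (N ⊕ (((G × P) × Fin T) ⊕ (P × Fin (T ^ 2)))) := inferInstance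
  let Ω := N ⊕ (((G × P) × Fin T) ⊕ (P × Fin (T ^ 2)))
  have hΩ : ∀ K : Subgroup N, orb (Ω := N ⊕ (((G × P) × Fin T) ⊕ (P × Fin (T ^ 2)))) K =
      orb (Ω := N) K + (@orb N (G × P) _ i2 K * T + @orb N P _ i1 K * T ^ 2) := by
    intro K
    rw [orb_sum, orb_sum]
    congr 2
    · exact orb_copy K T
    · exact orb_copy K (T ^ 2)
  have : Fintype (Subgroup N) := Fintype.ofFinite _
  obtain ⟨g, hg⟩ := exists_mob (fun x : Subgroup N => (Nat.card x : ℚ) * err p x)
  have hfaith : ∀ a : N, (∀ ω : N ⊕ (((G × P) × Fin T) ⊕ (P × Fin (T ^ 2))), a • ω = ω) →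
      a = 1 := by
    intro a ha
    have h1 : (Sum.inl (a * 1) : N ⊕ (((G × P) × Fin T) ⊕ (P × Fin (T ^ 2)))) = Sum.inl 1 :=
      ha (Sum.inl 1)
    rw [mul_one] at h1
    exact Sum.inl_injective h1
  -- the diagonal
  let D : Subgroup N := Subgroup.subgroupOf (MonoidHom.range
    ((SemidirectProduct.inl : (P → G) →* WR G P P).comp (Pi.constMonoidHom P G))) N
  have hD : ∀ x : N, x ∈ D ↔
      ∃ g : G, (x : WR G P P) = SemidirectProduct.inl (fun _ : P => g) := by
    intro x
    rw [Subgroup.mem_subgroupOf, MonoidHom.mem_range]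
    constructor
    · rintro ⟨g, hg⟩
      exact ⟨g, hg.symm⟩
    · rintro ⟨g, hg⟩
      exact ⟨g, hg.symm⟩
  have hcD : Nat.card D = Nat.card G := by
    let f : G → D := fun g => ⟨⟨SemidirectProduct.inl (fun _ : P => g), hc g⟩,
      (hD _).mpr ⟨g, rfl⟩⟩
    have hf : Function.Bijective f := by
      constructor
      · intro a b hab
        have h1 : (SemidirectProduct.inl (fun _ : P => a) : WR G P P) =
            SemidirectProduct.inl (fun _ : P => b) :=
          congrArg (fun x : D => ((x : N) : WR G P P)) hab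
        exact congrFun (SemidirectProduct.inl_injective h1) 1
      · intro x
        obtain ⟨g, hg⟩ := (hD x.1).mp x.2
        exact ⟨g, Subtype.ext (Subtype.ext hg.symm)⟩
    exact (Nat.card_congr (Equiv.ofBijective f hf)).symm
  obtain ⟨hD1, hD2⟩ := orb_diag G P N D hc hD
  have key := step_zero p H N (N ⊕ (((G × P) × Fin T) ⊕ (P × Fin (T ^ 2)))) hN hfaith g hg
    (orb (Ω := N ⊕ (((G × P) × Fin T) ⊕ (P × Fin (T ^ 2)))) D)
  have hK : ∀ K ∈ Finset.univ.filter (fun K : Subgroup N =>
      orb (Ω := N ⊕ (((G × P) × Fin T) ⊕ (P × Fin (T ^ 2)))) K =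
      orb (Ω := N ⊕ (((G × P) × Fin T) ⊕ (P × Fin (T ^ 2)))) D),
      g K = (Nat.card G : ℚ) * err p G := by
    intro K hK
    have h1 := (Finset.mem_filter.mp hK).2
    rw [hΩ, hΩ] at h1
    have ha : orb (Ω := N) K < T := lt_of_le_of_lt (orb_le (Ω := N) K) (by
      simp only [T]; omega)
    have ha' : orb (Ω := N) D < T := lt_of_le_of_lt (orb_le (Ω := N) D) (by
      simp only [T]; omega)
    have hv : @orb N (G × P) _ i2 K < T := lt_of_le_of_lt (orb_le (Ω := G × P) K) (by
      simp only [T]; omega)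
    have hv' : @orb N (G × P) _ i2 D < T := lt_of_le_of_lt (orb_le (Ω := G × P) D) (by
      simp only [T]; omega)
    have h2 : orb (Ω := N) K = orb (Ω := N) D ∧ @orb N (G × P) _ i2 K = @orb N (G × P) _ i2 D ∧
        @orb N P _ i1 K = @orb N P _ i1 D :=
      digits3 T _ _ _ _ _ _ h1 ha ha' hv hv'
    obtain ⟨e1, e2, e3⟩ := h2
    have h3 : Nat.card K = Nat.card G := by
      have r1 := orb_reg K
      have r2 := orb_reg D
      rw [← hcD]
      rw [e1] at r1
      have hpos : 0 < orb (Ω := N) D := by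
        rcases Nat.eq_zero_or_pos (orb (Ω := N) D) with h | h
        · rw [h, zero_mul] at r2
          have : 0 < Nat.card N := Nat.card_pos
          omega
        · exact h
      exact Nat.eq_of_mul_eq_mul_left hpos (r1.trans r2.symm)
    obtain ⟨e⟩ := iso_of_orb G P N K h3 (e3.trans hD1) (e2.trans hD2)
    have h4 := mob_eq _ g hg K (fun y hy => by
      have h5 : Nat.card y < Nat.card G := by
        rw [← h3]
        rcases lt_or_ge (Nat.card y) (Nat.card K) with h | h
        · exact h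
        · exact absurd (Subgroup.eq_of_le_of_card_ge hy.le h) hy.ne
      have h6 := ih y h5
      rw [krc_iff] at h6
      show (Nat.card y : ℚ) * err p y = 0
      rw [h6, mul_zero])
    rw [h4]
    show (Nat.card K : ℚ) * err p K = _
    rw [h3, err_congr p _ _ e]
  rw [Finset.sum_congr rfl hK, Finset.sum_const, nsmul_eq_mul] at key
  rw [krc_iff]
  have h7 : (Finset.univ.filter (fun K : Subgroup N =>
      orb (Ω := N ⊕ (((G × P) × Fin T) ⊕ (P × Fin (T ^ 2)))) K =
      orb (Ω := N ⊕ (((G × P) × Fin T) ⊕ (P × Fin (T ^ 2)))) D)).card ≠ 0 :=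
    Finset.card_ne_zero_of_mem (a := D) (Finset.mem_filter.mpr ⟨Finset.mem_univ _, rfl⟩)
  have h8 : (Nat.card G : ℚ) ≠ 0 := by
    have : 0 < Nat.card G := Nat.card_pos
    positivity
  have h9 : ((Finset.univ.filter (fun K : Subgroup N =>
      orb (Ω := N ⊕ (((G × P) × Fin T) ⊕ (P × Fin (T ^ 2)))) K =
      orb (Ω := N ⊕ (((G × P) × Fin T) ⊕ (P × Fin (T ^ 2)))) D)).card : ℚ) ≠ 0 :=
    Nat.cast_ne_zero.mpr h7
  exact ((mul_eq_zero.mp ((mul_eq_zero.mp key).resolve_left h9))).resolve_left h8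

theorem krc_all (G : Type) [Group G] [Finite G] : KRC p G := by
  have h : ∀ n : ℕ, ∀ (G : Type) [Group G] [Finite G], Nat.card G = n → KRC p G := by
    intro n
    induction n using Nat.strong_induction_on with
    | _ n ih =>
      intro G _ _ hG
      exact krc_of_smaller p H G (fun K _ _ hK => ih (Nat.card K) (hG ▸ hK) K rfl)
  exact h _ G rfl

end

end Pool.Agent.H373.KR
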