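import Mathlib
import Pool.Agent.H373.KR.KS

/-!
# Wreath products (the same abbreviations as in the library)
-/

set_option autoImplicit false

namespace Pool.Agent.H373.KR

/-- the wreath product of `G` with the group `A` acting on `Ω` -/
abbrev WR (G A Ω : Type) [Group G] [Group A] [MulAction A Ω] : Type :=
  (Ω → G) ⋊[mulAutArrow (G := A) (A := Ω) (M := G)] A

/-- the cyclic group of order `r` -/
abbrev CY (r : ℕ) : Type := Multiplicative (ZMod r)

end Pool.Agent.H373.KR
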