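import Mathlib

/-!
# Affine primitive groups
-/

set_option autoImplicit false

namespace Pool.Agent.H373.KR

/-- `X` has a normal subgroup `V` of exponent dividing `l`, equal to its own centraliser, contained in
all nontrivial normal subgroups of `X`, and with a complement `H`. (So `X` is trivial, or `l` is not a
unit and, for `l` prime, `X` is a primitive permutation group of affine type on the cosets of `H`, of
degree `|V|`, a power of `l`.) -/
def PrimAffine (l : ℕ) (X : Type) [Group X] : Prop :=
  ∃ V H : Subgroup X, V.Normal ∧ (∀ v ∈ V, v ^ l = 1) ∧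
    Subgroup.centralizer (V : Set X) = V ∧ (∀ M : Subgroup X, M.Normal → M ≠ ⊥ → V ≤ M) ∧
    V ⊓ H = ⊥ ∧ V ⊔ H = ⊤

end Pool.Agent.H373.KR
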