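import Pool.Agent.H373.KR.KW
import Pool.Agent.H373.KR.LS

set_option autoImplicit false

open scoped Classical

noncomputable section

namespace Pool.Agent.H373.KR

/-- the subgroup in additive notation -/
def s337W {l : ℕ} (U : Subgroup (Fin 5 → CY l)) : AddSubgroup (Fin 5 → ZMod l) where
  carrier := {f | (fun i => Multiplicative.ofAdd (f i) : Fin 5 → CY l) ∈ U}
  add_mem' ha hb := U.mul_mem ha hb
  zero_mem' := U.one_mem
  neg_mem' ha := U.inv_mem ha

theorem s337_smul {l : ℕ} [Fact l.Prime] {U : Subgroup (Fin 5 → CY l)} {f : Fin 5 → ZMod l}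
    (hf : f ∈ s337W U) (c : ZMod l) : (fun x => c * f x) ∈ s337W U := by
  have h := nsmul_mem hf c.val
  have e : (fun x => c * f x) = c.val • f := by
    funext x
    rw [Pi.smul_apply, nsmul_eq_mul, ZMod.natCast_zmod_val]
  rw [e]
  exact h

theorem s337_even {i j k m : Fin 5} (h1 : i ≠ j) (h2 : k ≠ m) :
    Equiv.swap i j * Equiv.swap k m ∈ alternatingGroup (Fin 5) := by
  rw [Equiv.Perm.mem_alternatingGroup, Equiv.Perm.sign_mul, Equiv.Perm.sign_swap h1,
    Equiv.Perm.sign_swap h2]
  rfl

theorem s337_act {l : ℕ} {U : Subgroup (Fin 5 → CY l)}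
    (hU : ∀ u ∈ U, ∀ a ∈ alternatingGroup (Fin 5), (fun i => u (a⁻¹ i)) ∈ U)
    {f : Fin 5 → ZMod l} (hf : f ∈ s337W U) {i j k m : Fin 5} (h1 : i ≠ j) (h2 : k ≠ m) :
    (fun x => f (Equiv.swap k m (Equiv.swap i j x))) ∈ s337W U := by
  have h := hU _ hf _ (s337_even h1 h2)
  rw [mul_inv_rev, Equiv.swap_inv, Equiv.swap_inv] at h
  exact h

theorem s337_cover : ∀ i j k : Fin 5, i ≠ j → i ≠ k → j ≠ k → ∃ m n : Fin 5, m ≠ n ∧
    m ≠ i ∧ m ≠ j ∧ m ≠ k ∧ n ≠ i ∧ n ≠ j ∧ n ≠ k ∧
    ∀ x : Fin 5, x = i ∨ x = j ∨ x = k ∨ x = m ∨ x = n := by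
  decide

theorem s337_third : ∀ i j : Fin 5, ∃ k : Fin 5, i ≠ k ∧ j ≠ k := by
  decide

/-- the main step -/
theorem s337_step {l : ℕ} {U : Subgroup (Fin 5 → CY l)}
    (hU : ∀ u ∈ U, ∀ a ∈ alternatingGroup (Fin 5), (fun i => u (a⁻¹ i)) ∈ U)
    {f : Fin 5 → ZMod l} (hf : f ∈ s337W U) {i j k : Fin 5} (hij : i ≠ j) (hik : i ≠ k)
    (hjk : j ≠ k) :
    (fun x => (f k - 2 * f i + f j) * ((if x = i then 1 else 0) - (if x = j then 1 else 0))) ∈
      s337W U := by
  obtain ⟨m, n, hmn, hmi, hmj, hmk, hni, hnj, hnk, hx⟩ := s337_cover i j k hij hik hjk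
  have h1 := sub_mem (s337_act hU hf hij hjk) hf
  have h2 := sub_mem h1 (s337_act hU h1 hij hmn)
  have e : (fun x => (f k - 2 * f i + f j) * ((if x = i then 1 else 0) -
      (if x = j then 1 else 0))) =
      ((fun x => f (Equiv.swap j k (Equiv.swap i j x))) - f) -
      (fun x => ((fun x => f (Equiv.swap j k (Equiv.swap i j x))) - f)
        (Equiv.swap m n (Equiv.swap i j x))) := by
    funext x
    rcases hx x with h | h | h | h | h
    all_goals
      rw [h]
      simp [Equiv.swap_apply_def, hij, hik, hjk, hmn, hmi, hmj, hmk, hni, hnj, hnk, hij.symm,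
        hik.symm, hjk.symm, hmn.symm, hmi.symm, hmj.symm, hmk.symm, hni.symm, hnj.symm, hnk.symm]
      try ring
  rw [e]
  exact h2

/-- irreducibility of the augmentation module of the natural permutation module of `A_5` in
characteristic `l > 5`: take `v` in `U` not constant (the only constant function with product `1` is
`1`), apply a 3-cycle and take the quotient: an element of `U` supported on three points `i, j, k` with
values `a, b, c`, `a b c = 1`, not all `1`; apply `(i j)(l m)` and take the quotient: values `a/b`, `b/a`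
at `i, j`, and `1` elsewhere (if `a = b` use another pair). So `U` contains `e_i(c) e_j(c)⁻¹` for a
generator `c` and some `i ≠ j`, hence for all `i ≠ j` (`A_5` is 2-transitive), and these generate. -/
theorem aug_irred (l : ℕ) [Fact l.Prime] (hl : 5 < l) (U : Subgroup (Fin 5 → CY l))
    (hU : ∀ u ∈ U, ∀ a ∈ alternatingGroup (Fin 5), (fun i => u (a⁻¹ i)) ∈ U)
    (u : Fin 5 → CY l) (hu : u ∈ U) (hne : u ≠ 1) (hp : ∏ i, u i = 1)
    (v : Fin 5 → CY l) (hv : ∏ i, v i = 1) : v ∈ U := by
  have hnum : ∀ k : ℕ, 0 < k → k ≤ 5 → (k : ZMod l) ≠ 0 := by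
    intro k h0 h5 hk
    rw [ZMod.natCast_eq_zero_iff] at hk
    have := Nat.le_of_dvd h0 hk
    omega
  obtain ⟨f, hf⟩ : ∃ f : Fin 5 → ZMod l, f = fun i => Multiplicative.toAdd (u i) := ⟨_, rfl⟩
  have hfW : f ∈ s337W U := by
    rw [hf]
    exact hu
  have hsum : ∑ i, f i = 0 := by
    rw [hf]
    have h := congrArg Multiplicative.toAdd hp
    rw [toAdd_prod] at h
    exact h
  -- not constant
  have hnc : ∃ i j, f i ≠ f j := by
    by_contra hcon
    push Not at hcon
    have h1 : ∀ i, f i = 0 := by
      have h2 : ∑ i, f i = ∑ _i : Fin 5, f 0 := Finset.sum_congr rfl fun i _ => hcon i 0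
      rw [hsum, Finset.sum_const, Finset.card_univ, Fintype.card_fin, nsmul_eq_mul] at h2
      have h3 : f 0 = 0 := by
        rcases mul_eq_zero.1 h2.symm with h | h
        · exact absurd h (hnum 5 (by norm_num) le_rfl)
        · exact h
      intro i
      rw [hcon i 0, h3]
    apply hne
    funext i
    have h4 := h1 i
    rw [hf] at h4
    exact h4
  -- one difference
  have key : ∃ i j : Fin 5, i ≠ j ∧
      (fun x => ((if x = i then 1 else 0) - (if x = j then 1 else 0) : ZMod l)) ∈ s337W U := by
    obtain ⟨i, j, hij'⟩ := hnc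
    have hij : i ≠ j := fun h => hij' (by rw [h])
    obtain ⟨k, hik, hjk⟩ := s337_third i j
    have hs : ∀ (i j k : Fin 5), i ≠ j → i ≠ k → j ≠ k → f k - 2 * f i + f j ≠ 0 →
        (fun x => ((if x = i then 1 else 0) - (if x = j then 1 else 0) : ZMod l)) ∈ s337W U := by
      intro i j k hij hik hjk hc
      have h1 := s337_smul (s337_step hU hfW hij hik hjk) (f k - 2 * f i + f j)⁻¹
      have e : (fun x => ((if x = i then 1 else 0) - (if x = j then 1 else 0) : ZMod l)) =
          fun x => (f k - 2 * f i + f j)⁻¹ * ((f k - 2 * f i + f j) *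
            ((if x = i then 1 else 0) - (if x = j then 1 else 0))) := by
        funext x
        rw [inv_mul_cancel_left₀ hc]
      rw [e]
      exact h1
    by_cases hc : f k - 2 * f i + f j = 0
    · refine ⟨j, i, hij.symm, hs j i k hij.symm hjk hik fun hc' => ?_⟩
      have h3 : (3 : ℕ) * (f j - f i) = 0 := by
        push_cast
        linear_combination hc - hc'
      rcases mul_eq_zero.1 h3 with h | h
      · exact hnum 3 (by norm_num) (by norm_num) h
      · exact hij' (sub_eq_zero.1 h).symm
    · exact ⟨i, j, hij, hs i j k hij hik hjk hc⟩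
  obtain ⟨i, j, hij, hd⟩ := key
  -- all differences with `j`
  have hall : ∀ k : Fin 5, (fun x => ((if x = j then 1 else 0) - (if x = k then 1 else 0) :
      ZMod l)) ∈ s337W U := by
    intro k
    by_cases hkj : k = j
    · have e : (fun x => ((if x = j then 1 else 0) - (if x = k then 1 else 0) : ZMod l)) = 0 := by
        funext x
        rw [hkj, sub_self]
        rfl
      rw [e]
      exact zero_mem _
    by_cases hki : k = i
    · have e : (fun x => ((if x = j then 1 else 0) - (if x = k then 1 else 0) : ZMod l)) =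
          -(fun x => ((if x = i then 1 else 0) - (if x = j then 1 else 0) : ZMod l)) := by
        funext x
        rw [hki, Pi.neg_apply, neg_sub]
      rw [e]
      exact neg_mem hd
    · have hik : i ≠ k := fun h => hki h.symm
      have hjk : j ≠ k := fun h => hkj h.symm
      have h1 := s337_act hU hd hij hjk
      have e : (fun x => ((if x = j then 1 else 0) - (if x = k then 1 else 0) : ZMod l)) =
          (fun x => (fun x => ((if x = i then 1 else 0) - (if x = j then 1 else 0) : ZMod l))
            (Equiv.swap j k (Equiv.swap i j x))) := by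
        funext x
        have a1 : (Equiv.swap j k (Equiv.swap i j x) = i) ↔ x = j := by
          rw [Equiv.swap_apply_eq_iff, Equiv.swap_apply_of_ne_of_ne hij hik,
            Equiv.swap_apply_eq_iff, Equiv.swap_apply_left]
        have a2 : (Equiv.swap j k (Equiv.swap i j x) = j) ↔ x = k := by
          rw [Equiv.swap_apply_eq_iff, Equiv.swap_apply_left, Equiv.swap_apply_eq_iff,
            Equiv.swap_apply_of_ne_of_ne hik.symm hjk.symm]
        simp only [a1, a2]
      rw [e]
      exact h1
  -- the end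
  obtain ⟨g, hg⟩ : ∃ g : Fin 5 → ZMod l, g = fun i => Multiplicative.toAdd (v i) := ⟨_, rfl⟩
  have hgsum : ∑ i, g i = 0 := by
    rw [hg]
    have h := congrArg Multiplicative.toAdd hv
    rw [toAdd_prod] at h
    exact h
  have hgW : g ∈ s337W U := by
    have e : g = -∑ k, (fun x => g k * ((if x = j then 1 else 0) - (if x = k then 1 else 0) :
        ZMod l)) := by
      funext x
      rw [Pi.neg_apply, Finset.sum_apply]
      simp only [mul_sub, Finset.sum_sub_distrib, mul_ite, mul_one, mul_zero]
      rw [Finset.sum_ite_eq]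
      by_cases hxj : x = j
      · simp [hxj, hgsum]
      · simp [hxj]
    rw [e]
    exact neg_mem (sum_mem fun k _ => s337_smul (hall k) (g k))
  rw [hg] at hgW
  exact hgW

end Pool.Agent.H373.KR
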