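import Pool.Agent.H373.KR.L1

set_option autoImplicit false

open scoped Classical

noncomputable section

namespace Pool.Agent.H373.KR

/-- the function with the value `c` at `ω` and `1` elsewhere -/
def h100_e {G Ω : Type} [Group G] (ω : Ω) (c : G) : Ω → G := fun x => if x = ω then c else 1

theorem h100_act {G A Ω : Type} [Group G] [Group A] [MulAction A Ω] (a : A) (f : Ω → G) (x : Ω) :
    (mulAutArrow (G := A) (A := Ω) (M := G)) a f x = f (a⁻¹ • x) := rfl

theorem h100_act_e {G A Ω : Type} [Group G] [Group A] [MulAction A Ω] (a : A) (ω : Ω) (c : G) :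
    (mulAutArrow (G := A) (A := Ω) (M := G)) a (h100_e ω c) = h100_e (a • ω) c := by
  funext x
  rw [h100_act]
  unfold h100_e
  by_cases h : x = a • ω
  · rw [if_pos h, if_pos (by rw [h, inv_smul_smul])]
  · rw [if_neg h, if_neg (fun h' => h (by rw [← h', smul_inv_smul]))]

/-- the centraliser of `V` (after helper588) -/
theorem h100_cent (l : ℕ) [Fact l.Prime] (h3l : 3 ≤ l) (A Ω : Type) [Group A]
    [MulAction A Ω] (hf : ∀ a : A, (∀ ω : Ω, a • ω = ω) → a = 1) :
    (∀ v ∈ (SemidirectProduct.rightHom.comp (commutator (WR (CY l) A Ω)).subtype).ker,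
      v ^ l = 1) ∧
    Subgroup.centralizer
      ((SemidirectProduct.rightHom.comp (commutator (WR (CY l) A Ω)).subtype).ker :
        Set (commutator (WR (CY l) A Ω))) =
      (SemidirectProduct.rightHom.comp (commutator (WR (CY l) A Ω)).subtype).ker := by
  refine ⟨?_, ?_⟩
  · intro v hv
    have hr : (v : WR (CY l) A Ω).right = 1 := hv
    have hv1 : (v : WR (CY l) A Ω) = SemidirectProduct.inl (v : WR (CY l) A Ω).left := by
      ext
      · rw [SemidirectProduct.left_inl]
      · rw [hr, SemidirectProduct.right_inl]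
    have h1 : (v : WR (CY l) A Ω).left ^ l = 1 := by
      funext ω
      rw [Pi.pow_apply, Pi.one_apply]
      generalize (v : WR (CY l) A Ω).left ω = x
      have h2 : x = Multiplicative.ofAdd (Multiplicative.toAdd x) := rfl
      rw [h2, ← ofAdd_nsmul, nsmul_eq_mul, CharP.cast_eq_zero, zero_mul, ofAdd_zero]
    apply Subtype.ext
    rw [Subgroup.coe_pow, Subgroup.coe_one, hv1, ← map_pow, h1, map_one]
  · apply le_antisymm
    · intro d hdc
      rw [Subgroup.mem_centralizer_iff] at hdc
      show (d : WR (CY l) A Ω).right = 1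
      by_contra hne
      obtain ⟨ω, hω⟩ : ∃ ω : Ω, (d : WR (CY l) A Ω).right • ω ≠ ω := by
        by_contra hcon
        push Not at hcon
        exact hne (hf _ hcon)
      set a := (d : WR (CY l) A Ω).right with ha
      set c : CY l := Multiplicative.ofAdd 1 with hc
      -- the commutator
      have hmem : (SemidirectProduct.inl (h100_e ω c) * SemidirectProduct.inr a *
          (SemidirectProduct.inl (h100_e ω c))⁻¹ * (SemidirectProduct.inr a)⁻¹ : WR (CY l) A Ω) ∈
          commutator (WR (CY l) A Ω) :=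
        Subgroup.commutator_mem_commutator (Subgroup.mem_top _) (Subgroup.mem_top _)
      set v : commutator (WR (CY l) A Ω) := ⟨_, hmem⟩ with hv
      have hvi : (v : WR (CY l) A Ω) =
          SemidirectProduct.inl (h100_e ω c * (h100_e (a • ω) c)⁻¹) := by
        show (SemidirectProduct.inl (h100_e ω c) * SemidirectProduct.inr a *
          (SemidirectProduct.inl (h100_e ω c))⁻¹ * (SemidirectProduct.inr a)⁻¹ : WR (CY l) A Ω) = _
        rw [map_mul, map_inv, ← h100_act_e, SemidirectProduct.inl_aut]
        simp only [mul_inv_rev, map_inv, inv_inv, mul_assoc]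
      have hvr : (v : WR (CY l) A Ω).right = 1 := by
        rw [hvi, SemidirectProduct.right_inl]
      have hvl : (v : WR (CY l) A Ω).left = h100_e ω c * (h100_e (a • ω) c)⁻¹ := by
        rw [hvi, SemidirectProduct.left_inl]
      have hcomm := hdc v hvr
      have h3 := congrArg (fun w : commutator (WR (CY l) A Ω) =>
        (w : WR (CY l) A Ω).left (a • ω)) hcomm
      simp only [Subgroup.coe_mul, SemidirectProduct.mul_left, hvr, hvl, map_one, Pi.mul_apply,
        MulAut.one_apply, h100_act] at h3
      have q1 : h100_e ω c (a • ω) = 1 := if_neg hω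
      have q2 : h100_e (a • ω) c (a • ω) = c := if_pos rfl
      have q3 : h100_e ω c ω = c := if_pos rfl
      have q4 : h100_e (a • ω) c ω = 1 := if_neg (fun h => hω h.symm)
      rw [← ha, inv_smul_smul, Pi.inv_apply, Pi.inv_apply, q1, q2, q3, q4, one_mul, inv_one,
        mul_one, mul_comm] at h3
      have h4 : c⁻¹ = c := mul_left_cancel h3
      have h5 : c * c = 1 := by
        nth_rewrite 1 [← h4]
        exact inv_mul_cancel c
      have h6 : ((2 : ℕ) : ZMod l) = 0 := by
        have h7 : Multiplicative.ofAdd ((1 : ZMod l) + 1) = Multiplicative.ofAdd 0 := h5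
        have h8 := Multiplicative.ofAdd.injective h7
        rw [Nat.cast_ofNat, ← one_add_one_eq_two]
        exact h8
      rw [ZMod.natCast_eq_zero_iff] at h6
      have h9 := Nat.le_of_dvd (by norm_num) h6
      omega
    · intro d hd1
      have hdr : (d : WR (CY l) A Ω).right = 1 := hd1
      rw [Subgroup.mem_centralizer_iff]
      intro v hv
      have hvr : (v : WR (CY l) A Ω).right = 1 := hv
      apply Subtype.ext
      rw [Subgroup.coe_mul, Subgroup.coe_mul]
      ext
      · rw [SemidirectProduct.mul_left, SemidirectProduct.mul_left, hvr, hdr, map_one,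
          MulAut.one_apply, MulAut.one_apply, mul_comm]
      · rw [SemidirectProduct.mul_right, SemidirectProduct.mul_right, hvr, hdr]

/-- the product homomorphism -/
def h100_prod (G A Ω : Type) [CommGroup G] [Group A] [MulAction A Ω] [Fintype Ω] :
    WR G A Ω →* G :=
  SemidirectProduct.lift
    { toFun := fun u => ∏ i, u i
      map_one' := by simp
      map_mul' := fun u v => Finset.prod_mul_distrib }
    (1 : A →* G) (by
      intro a
      ext u
      simp only [MonoidHom.comp_apply, MonoidHom.one_apply, map_one, MonoidHom.coe_mk,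
        OneHom.coe_mk, MulEquiv.coe_toMonoidHom, MulAut.one_apply, h100_act]
      exact Fintype.prod_equiv (MulAction.toPerm a⁻¹) _ _ (fun i => rfl))

theorem h100_prod_inl {G A Ω : Type} [CommGroup G] [Group A] [MulAction A Ω] [Fintype Ω]
    (u : Ω → G) (hu : (SemidirectProduct.inl u : WR G A Ω) ∈ commutator (WR G A Ω)) :
    ∏ i, u i = 1 := by
  have h1 : (SemidirectProduct.inl u : WR G A Ω) ∈ (h100_prod G A Ω).ker :=
    Abelianization.commutator_subset_ker _ hu
  rw [MonoidHom.mem_ker] at h1
  unfold h100_prod at h1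
  rw [SemidirectProduct.lift_inl] at h1
  exact h1

theorem h100_inr (l : ℕ) (a : alternatingGroup (Fin 5)) :
    (SemidirectProduct.inr a : WR (CY l) (alternatingGroup (Fin 5)) (Fin 5)) ∈
      commutator (WR (CY l) (alternatingGroup (Fin 5)) (Fin 5)) := by
  have h1 : a ∈ commutator (alternatingGroup (Fin 5)) := by
    rw [commutator_alternatingGroup_eq_top (by simp)]
    exact Subgroup.mem_top a
  have h2 : (SemidirectProduct.inr a : WR (CY l) (alternatingGroup (Fin 5)) (Fin 5)) ∈
      (commutator (alternatingGroup (Fin 5))).map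
        (SemidirectProduct.inr : _ →* WR (CY l) (alternatingGroup (Fin 5)) (Fin 5)) :=
    Subgroup.mem_map_of_mem _ h1
  rw [commutator_def, Subgroup.map_commutator] at h2
  exact Subgroup.commutator_mono le_top le_top h2

/-- `T = [X, X]`, `X = C_l wr A_5` (acting on 5 points). `T = {(v, a) | ∏ v = 1}`: the map
`(v, a) ↦ ∏ v` is a homomorphism to an abelian group, `A_5` is perfect, `v = [w, a]` type elements.
`V = {(v, 1)}`, `H = {(1, a)}`. `C_T(V) = V` since `(v, a)`, `a ≠ 1`, moves some `e_i(c) e_j(c)⁻¹`. If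
`M ≠ 1` is normal then `M ∩ V ≠ 1` (otherwise `[M, V] ≤ M ∩ V = 1` and `M ≤ C_T(V) = V`), and
`aug_irred` shows `V ≤ M`. -/
theorem pa_T (l : ℕ) [Fact l.Prime] (hl : 60 < l) :
    PrimAffine l (commutator (WR (CY l) (alternatingGroup (Fin 5)) (Fin 5))) := by
  have hf : ∀ a : alternatingGroup (Fin 5), (∀ ω : Fin 5, a • ω = ω) → a = 1 := by
    intro a ha
    apply Subtype.ext
    apply Equiv.ext
    intro i
    exact ha i
  obtain ⟨hexp, hcent⟩ := h100_cent l (by omega) (alternatingGroup (Fin 5)) (Fin 5) hf
  set T := commutator (WR (CY l) (alternatingGroup (Fin 5)) (Fin 5)) with hT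
  set V : Subgroup T := (SemidirectProduct.rightHom.comp T.subtype).ker with hV
  have hVn : V.Normal := by
    rw [hV]
    infer_instance
  have memV : ∀ t : T, t ∈ V ↔
      (t : WR (CY l) (alternatingGroup (Fin 5)) (Fin 5)).right = 1 := fun t => Iff.rfl
  refine ⟨V, (SemidirectProduct.inr : _ →*
    WR (CY l) (alternatingGroup (Fin 5)) (Fin 5)).range.subgroupOf T, hVn, hexp, hcent, ?_, ?_, ?_⟩
  · intro M hM hne
    -- an element of `M ∩ V`
    obtain ⟨m0, hm0, hm0V, hm01⟩ : ∃ m ∈ M, m ∈ V ∧ m ≠ 1 := by
      obtain ⟨m, hm, hm1⟩ : ∃ m ∈ M, m ≠ 1 := by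
        by_contra hcon
        push Not at hcon
        exact hne (eq_bot_iff.2 fun x hx => Subgroup.mem_bot.2 (hcon x hx))
      by_cases hmV : m ∈ V
      · exact ⟨m, hm, hmV, hm1⟩
      · rw [← hcent, Subgroup.mem_centralizer_iff] at hmV
        push Not at hmV
        obtain ⟨v, hv, hvm⟩ := hmV
        have hv' : v ∈ V := hv
        refine ⟨m * v * m⁻¹ * v⁻¹, ?_, ?_, ?_⟩
        · have h1 : v * m⁻¹ * v⁻¹ ∈ M := hM.conj_mem _ (M.inv_mem hm) v
          have h2 : m * v * m⁻¹ * v⁻¹ = m * (v * m⁻¹ * v⁻¹) := by group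
          rw [h2]
          exact M.mul_mem hm h1
        · exact V.mul_mem (hVn.conj_mem _ hv' m) (V.inv_mem hv')
        · intro h
          apply hvm
          have h2 : m * v = v * m := by
            have h3 := mul_eq_one_iff_eq_inv.1 h
            rw [inv_inv] at h3
            exact mul_inv_eq_iff_eq_mul.1 h3
          exact h2.symm
    -- the subgroup of the functions
    set U : Subgroup (Fin 5 → CY l) := (M.map T.subtype).comap
      (SemidirectProduct.inl : _ →* WR (CY l) (alternatingGroup (Fin 5)) (Fin 5)) with hU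
    have memU : ∀ u : Fin 5 → CY l, u ∈ U ↔ ∃ t ∈ M,
        (t : WR (CY l) (alternatingGroup (Fin 5)) (Fin 5)) = SemidirectProduct.inl u := by
      intro u
      rw [hU, Subgroup.mem_comap, Subgroup.mem_map]
      rfl
    have hUs : ∀ u ∈ U, ∀ a ∈ alternatingGroup (Fin 5), (fun i => u (a⁻¹ i)) ∈ U := by
      intro u hu a ha
      obtain ⟨t, ht, htu⟩ := (memU u).1 hu
      set a' : alternatingGroup (Fin 5) := ⟨a, ha⟩ with ha'
      set s : T := ⟨SemidirectProduct.inr a', h100_inr l a'⟩ with hs
      refine (memU _).2 ⟨s * t * s⁻¹, hM.conj_mem t ht s, ?_⟩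
      rw [Subgroup.coe_mul, Subgroup.coe_mul, Subgroup.coe_inv, htu]
      have h1 : (fun i => u (a⁻¹ i)) =
          (mulAutArrow (G := alternatingGroup (Fin 5)) (A := Fin 5) (M := CY l)) a' u := rfl
      rw [h1, SemidirectProduct.inl_aut, map_inv]
    have hleft : ∀ t : T, t ∈ V →
        (t : WR (CY l) (alternatingGroup (Fin 5)) (Fin 5)) = SemidirectProduct.inl
          (t : WR (CY l) (alternatingGroup (Fin 5)) (Fin 5)).left := by
      intro t ht
      have hr := (memV t).1 ht
      ext
      · rw [SemidirectProduct.left_inl]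
      · rw [hr, SemidirectProduct.right_inl]
    have hprod : ∀ t : T, t ∈ V →
        ∏ i, (t : WR (CY l) (alternatingGroup (Fin 5)) (Fin 5)).left i = 1 := by
      intro t ht
      apply h100_prod_inl (A := alternatingGroup (Fin 5))
      rw [← hleft t ht]
      exact t.2
    intro v hv
    have h1 := aug_irred l (by omega) U hUs
      (m0 : WR (CY l) (alternatingGroup (Fin 5)) (Fin 5)).left
      ((memU _).2 ⟨m0, hm0, hleft m0 hm0V⟩)
      (fun h => hm01 (by
        apply Subtype.ext
        rw [hleft m0 hm0V, h, map_one]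
        rfl))
      (hprod m0 hm0V)
      (v : WR (CY l) (alternatingGroup (Fin 5)) (Fin 5)).left (hprod v hv)
    obtain ⟨t, ht, htv⟩ := (memU _).1 h1
    rw [← hleft v hv] at htv
    rw [← Subtype.ext htv]
    exact ht
  · rw [eq_bot_iff]
    intro t ht
    rw [Subgroup.mem_inf] at ht
    obtain ⟨h1, h2⟩ := ht
    rw [Subgroup.mem_subgroupOf, MonoidHom.mem_range] at h2
    obtain ⟨a, ha⟩ := h2
    have hr := (memV t).1 h1
    rw [← ha, SemidirectProduct.right_inr] at hr
    rw [Subgroup.mem_bot]
    apply Subtype.ext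
    rw [← ha, hr, map_one]
    rfl
  · rw [eq_top_iff]
    intro t _
    set s : T := ⟨SemidirectProduct.inr
      (t : WR (CY l) (alternatingGroup (Fin 5)) (Fin 5)).right, h100_inr l _⟩ with hs
    have h1 : t = (t * s⁻¹) * s := by group
    rw [h1]
    refine Subgroup.mul_mem_sup ?_ ?_
    · rw [memV, Subgroup.coe_mul, Subgroup.coe_inv, hs]
      change (t : WR (CY l) (alternatingGroup (Fin 5)) (Fin 5)).right *
        ((SemidirectProduct.inr _)⁻¹ : WR (CY l) (alternatingGroup (Fin 5)) (Fin 5)).right = 1
      rw [← map_inv, SemidirectProduct.right_inr, mul_inv_cancel]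
    · rw [Subgroup.mem_subgroupOf]
      exact ⟨_, rfl⟩

end Pool.Agent.H373.KR
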