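import Pool.Agent.H373.KR.KW
import Pool.Agent.H373.KR.LS

set_option autoImplicit false

open scoped Classical

noncomputable section

namespace Pool.Agent.H373.KR

section

variable (T A Ω : Type) [Group T] [Group A] [MulAction A Ω] [Finite Ω]

omit [Finite Ω] in
theorem h862_mul_left (x y : WR T A Ω) (ω : Ω) :
    (x * y).left ω = x.left ω * y.left (x.right⁻¹ • ω) := rfl

omit [Finite Ω] in
theorem h862_inv_left (x : WR T A Ω) (ω : Ω) :
    (x⁻¹).left ω = (x.left (x.right • ω))⁻¹ := by
  have h : (x⁻¹).left ω = (x.left ((x.right⁻¹)⁻¹ • ω))⁻¹ := rfl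
  rw [h, inv_inv]

theorem wr_perfect (hT : commutator T = ⊤) (hA : commutator A = ⊤) :
    commutator (WR T A Ω) = ⊤ := by
  have hpi : commutator (Ω → T) = ⊤ := by
    have h1 := Subgroup.commutator_pi_pi_of_finite (η := Ω) (Gs := fun _ => T)
      (fun _ => (⊤ : Subgroup T)) (fun _ => (⊤ : Subgroup T))
    have h2 : (Subgroup.pi Set.univ fun _ : Ω => (⊤ : Subgroup T)) = ⊤ := by
      rw [eq_top_iff]
      intro f _
      rw [Subgroup.mem_pi]
      intro i _
      exact Subgroup.mem_top _
    rw [commutator_def] at hT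
    rw [hT, h2] at h1
    rw [commutator_def]
    exact h1
  have hmap : ∀ {G : Type} [Group G] (f : G →* WR T A Ω), commutator G = ⊤ →
      ∀ g : G, f g ∈ commutator (WR T A Ω) := by
    intro G _ f hG g
    have h1 : f g ∈ (commutator G).map f := by
      rw [hG]
      exact Subgroup.mem_map_of_mem f (Subgroup.mem_top g)
    rw [commutator_def, Subgroup.map_commutator] at h1
    rw [commutator_def]
    exact Subgroup.commutator_mono le_top le_top h1
  rw [eq_top_iff]
  intro x _
  rw [← SemidirectProduct.inl_left_mul_inr_right x]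
  exact mul_mem (hmap SemidirectProduct.inl hpi _) (hmap SemidirectProduct.inr hA _)

/-- the functions with values in `V`, a subgroup of the base group -/
def VV (V : Subgroup T) : Subgroup (WR T A Ω) where
  carrier := {x | x.right = 1 ∧ ∀ ω, x.left ω ∈ V}
  one_mem' := ⟨rfl, fun _ => V.one_mem⟩
  mul_mem' := by
    rintro x y ⟨hx, hx'⟩ ⟨hy, hy'⟩
    refine ⟨by rw [SemidirectProduct.mul_right, hx, hy, one_mul], fun ω => ?_⟩
    rw [h862_mul_left]
    exact V.mul_mem (hx' _) (hy' _)
  inv_mem' := by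
    rintro x ⟨hx, hx'⟩
    refine ⟨by rw [SemidirectProduct.inv_right, hx, inv_one], fun ω => ?_⟩
    rw [h862_inv_left]
    exact V.inv_mem (hx' _)

/-- `H` at all points, and `A` -/
def HH (H : Subgroup T) : Subgroup (WR T A Ω) where
  carrier := {x | ∀ ω, x.left ω ∈ H}
  one_mem' := fun _ => H.one_mem
  mul_mem' := by
    intro x y hx hy ω
    rw [h862_mul_left]
    exact H.mul_mem (hx _) (hy _)
  inv_mem' := by
    intro x hx ω
    rw [h862_inv_left]
    exact H.inv_mem (hx _)

theorem vv_normal (V : Subgroup T) (h : V.Normal) : (VV T A Ω V).Normal := by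
  refine ⟨fun n hn g => ?_⟩
  obtain ⟨h1, h2⟩ := hn
  refine ⟨?_, fun ω => ?_⟩
  · rw [SemidirectProduct.mul_right, SemidirectProduct.mul_right, SemidirectProduct.inv_right, h1,
      mul_one, mul_inv_cancel]
  · rw [h862_mul_left, h862_mul_left, h862_inv_left, SemidirectProduct.mul_right, h1, mul_one,
      smul_inv_smul]
    exact h.conj_mem _ (h2 _) _

theorem vv_exp (V : Subgroup T) (l : ℕ) (h : ∀ v ∈ V, v ^ l = 1) (x : WR T A Ω)
    (hx : x ∈ VV T A Ω V) : x ^ l = 1 := by
  obtain ⟨h1, h2⟩ := hx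
  have h3 : x = SemidirectProduct.inl x.left := by
    apply SemidirectProduct.ext
    · rw [SemidirectProduct.left_inl]
    · rw [SemidirectProduct.right_inl, h1]
  have h4 : x.left ^ l = 1 := by
    funext ω
    rw [Pi.pow_apply, Pi.one_apply]
    exact h _ (h2 ω)
  rw [h3, ← map_pow, h4, map_one]

/-- an element which centralises `V` at the point `ω` fixes `ω` (as `V ≠ 1`) -/
theorem vv_cent (V : Subgroup T) (h : Subgroup.centralizer (V : Set T) = V) (hV : V ≠ ⊥)
    (hf : ∀ a : A, (∀ ω : Ω, a • ω = ω) → a = 1) :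
    Subgroup.centralizer (VV T A Ω V : Set (WR T A Ω)) = VV T A Ω V := by
  obtain ⟨⟨t, ht⟩, ht1⟩ := Subgroup.ne_bot_iff_exists_ne_one.mp hV
  have ht1' : t ≠ 1 := fun h0 => ht1 (Subtype.ext h0)
  ext x
  rw [Subgroup.mem_centralizer_iff]
  constructor
  · intro hx
    have hx' : ∀ v : Ω → T, (∀ ω, v ω ∈ V) → ∀ ω,
        v ω * x.left ω = x.left ω * v (x.right⁻¹ • ω) := by
      intro v hv ω
      have h1 := hx (⟨v, 1⟩ : WR T A Ω) ⟨rfl, hv⟩
      have h2 := congrFun (congrArg SemidirectProduct.left h1) ω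
      rw [SemidirectProduct.mul_left, SemidirectProduct.mul_left, map_one] at h2
      exact h2
    have hfix : ∀ ω : Ω, x.right⁻¹ • ω = ω := by
      intro ω
      by_contra hne
      have h1 := hx' (Function.update 1 ω t) (fun ω' => by
        rcases eq_or_ne ω' ω with rfl | h0
        · rw [Function.update_self]
          exact ht
        · rw [Function.update_of_ne h0]
          exact V.one_mem) ω
      rw [Function.update_self, Function.update_of_ne hne, Pi.one_apply, mul_one] at h1
      exact ht1' (mul_eq_right.mp h1)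
    have hr : x.right = 1 := hf _ fun ω => (inv_smul_eq_iff.mp (hfix ω)).symm
    refine ⟨hr, fun ω => ?_⟩
    rw [← h, Subgroup.mem_centralizer_iff]
    intro s hs
    exact hx' (fun _ => s) (fun _ => hs) ω
  · intro hx y hy
    have hab : ∀ a ∈ V, ∀ b ∈ V, b * a = a * b := by
      intro a ha b hb
      rw [← h] at ha
      exact Subgroup.mem_centralizer_iff.mp ha b hb
    refine SemidirectProduct.ext (funext fun ω => ?_) ?_
    · rw [SemidirectProduct.mul_left, SemidirectProduct.mul_left, hy.1, hx.1, map_one]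
      exact hab _ (hx.2 ω) _ (hy.2 ω)
    · rw [SemidirectProduct.mul_right, SemidirectProduct.mul_right, hy.1, hx.1]

theorem vv_compl (V H : Subgroup T) (h1 : V ⊓ H = ⊥) (h2 : V ⊔ H = ⊤) (hV : V.Normal) :
    VV T A Ω V ⊓ HH T A Ω H = ⊥ ∧ VV T A Ω V ⊔ HH T A Ω H = ⊤ := by
  constructor
  · rw [eq_bot_iff]
    rintro x ⟨⟨hx, hx'⟩, hx2⟩
    rw [Subgroup.mem_bot]
    apply SemidirectProduct.ext
    · funext ω
      have h3 : x.left ω ∈ V ⊓ H := ⟨hx' ω, hx2 ω⟩
      rw [h1, Subgroup.mem_bot] at h3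
      rw [h3]
      rfl
    · rw [hx]
      rfl
  · rw [eq_top_iff]
    intro x _
    have h3 : ∀ ω, ∃ v ∈ V, ∃ k ∈ H, v * k = x.left ω := by
      intro ω
      have h4 : x.left ω ∈ V ⊔ H := by rw [h2]; exact Subgroup.mem_top _
      exact Subgroup.mem_sup_of_normal_left.1 h4
    choose v hv k hk hvk using h3
    have h5 : x = (⟨v, 1⟩ : WR T A Ω) * ⟨k, x.right⟩ := by
      apply SemidirectProduct.ext
      · funext ω
        rw [h862_mul_left]
        simp only [inv_one, one_smul]
        exact (hvk ω).symm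
      · rw [SemidirectProduct.mul_right]
        simp only [one_mul]
    rw [h5]
    exact Subgroup.mul_mem_sup (show (⟨v, 1⟩ : WR T A Ω) ∈ VV T A Ω V from ⟨rfl, hv⟩)
      (show (⟨k, x.right⟩ : WR T A Ω) ∈ HH T A Ω H from hk)

/-- the element `t` at the point `ω` -/
def h263s (ω : Ω) : T →* WR T A Ω :=
  (SemidirectProduct.inl (φ := mulAutArrow (G := A) (A := Ω) (M := T))).comp
    (MonoidHom.mulSingle (fun _ : Ω => T) ω)

theorem h263s_left (ω : Ω) (t : T) : (h263s T A Ω ω t).left = Pi.mulSingle ω t := rfl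

theorem h263s_right (ω : Ω) (t : T) : (h263s T A Ω ω t).right = 1 := rfl

theorem h263_act (a : A) (f : Ω → T) (ω : Ω) :
    (mulAutArrow (G := A) (A := Ω) (M := T) a f) ω = f (a⁻¹ • ω) := rfl

/-- the conjugate of `x` by `y` in terms of the components -/
theorem h263_conj (x y : WR T A Ω) (hy : y.right = 1) (ω : Ω) :
    (x * y * x⁻¹).left ω = x.left ω * y.left (x.right⁻¹ • ω) * (x.left ω)⁻¹ := by
  rw [SemidirectProduct.mul_left, SemidirectProduct.mul_left, SemidirectProduct.inv_left,
    SemidirectProduct.mul_right, hy, mul_one]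
  show x.left ω * y.left (x.right⁻¹ • ω) *
    (mulAutArrow (G := A) (A := Ω) (M := T) x.right
      (mulAutArrow (G := A) (A := Ω) (M := T) x.right⁻¹ x.left⁻¹)) ω = _
  rw [← MulAut.mul_apply, ← map_mul, mul_inv_cancel, map_one]
  rfl

theorem h263_conj_right (x y : WR T A Ω) (hy : y.right = 1) : (x * y * x⁻¹).right = 1 := by
  rw [SemidirectProduct.mul_right, SemidirectProduct.mul_right, SemidirectProduct.inv_right, hy]
  simp

/-- an element of the base group -/
theorem h263_base (hT : Nontrivial T) (hf : ∀ a : A, (∀ ω : Ω, a • ω = ω) → a = 1)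
    (M : Subgroup (WR T A Ω)) (hM : M.Normal) (hne : M ≠ ⊥) :
    ∃ x ∈ M, x.right = 1 ∧ ∃ ω, x.left ω ≠ 1 := by
  obtain ⟨⟨x, hx⟩, hx2⟩ := Subgroup.ne_bot_iff_exists_ne_one.1 hne
  have hx1 : x ≠ 1 := fun h => hx2 (Subtype.ext h)
  by_cases hr : x.right = 1
  · refine ⟨x, hx, hr, ?_⟩
    by_contra hcon
    push Not at hcon
    exact hx1 (SemidirectProduct.ext (funext hcon) hr)
  · have h1 : ∃ ω : Ω, x.right • ω ≠ ω := by
      by_contra hcon
      push Not at hcon
      exact hr (hf _ hcon)
    obtain ⟨ω, hω⟩ := h1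
    obtain ⟨t, ht⟩ := exists_ne (1 : T)
    refine ⟨x * h263s T A Ω ω t * x⁻¹ * (h263s T A Ω ω t)⁻¹, ?_, ?_, x.right • ω, ?_⟩
    · have h2 : x * h263s T A Ω ω t * x⁻¹ * (h263s T A Ω ω t)⁻¹ =
          x * (h263s T A Ω ω t * x⁻¹ * (h263s T A Ω ω t)⁻¹) := by group
      rw [h2]
      exact M.mul_mem hx (hM.conj_mem _ (M.inv_mem hx) _)
    · rw [SemidirectProduct.mul_right, h263_conj_right T A Ω _ _ (h263s_right T A Ω ω t),
        SemidirectProduct.inv_right, h263s_right, inv_one, mul_one]
    · rw [SemidirectProduct.mul_left, h263_conj_right T A Ω _ _ (h263s_right T A Ω ω t), map_one,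
        MulAut.one_apply, Pi.mul_apply, h263_conj T A Ω _ _ (h263s_right T A Ω ω t), inv_smul_smul,
        h263s_left, Pi.mulSingle_eq_same, SemidirectProduct.inv_left, h263s_right, inv_one, map_one,
        MulAut.one_apply, h263s_left, Pi.inv_apply, Pi.mulSingle_eq_of_ne hω, inv_one, mul_one]
      intro h3
      apply ht
      rwa [conj_eq_one_iff] at h3

theorem h263_comm (hZ : Subgroup.center T = ⊥) {s : T} (hs : s ≠ 1) : ∃ t : T, s * t * s⁻¹ * t⁻¹ ≠ 1 := by
  by_contra hcon
  push Not at hcon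
  apply hs
  rw [← Subgroup.mem_bot, ← hZ, Subgroup.mem_center_iff]
  intro g
  have h1 := hcon g
  rw [mul_inv_eq_one, mul_inv_eq_iff_eq_mul] at h1
  exact h1.symm

/-- `M` contains an element of the base group `≠ 1` (if `(u, a)` is in `M`, `a ω ≠ ω`, take the
commutator with `mulSingle ω t`, `t ≠ 1`), and then, as `T` has trivial centre, an element
`mulSingle ω t ≠ 1`; the `t` with `mulSingle ω t` in `M` form a normal subgroup of `T`, so it contains
`V`; use that `A` is transitive -/
theorem vv_min (V : Subgroup T) (hmin : ∀ M : Subgroup T, M.Normal → M ≠ ⊥ → V ≤ M)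
    (hZ : Subgroup.center T = ⊥) (hT : Nontrivial T)
    (hf : ∀ a : A, (∀ ω : Ω, a • ω = ω) → a = 1) (ht : ∀ ω ω' : Ω, ∃ a : A, a • ω = ω')
    (M : Subgroup (WR T A Ω)) (hM : M.Normal) (hne : M ≠ ⊥) : VV T A Ω V ≤ M := by
  obtain ⟨x, hx, hx1, ω₀, hω₀⟩ := h263_base T A Ω hT hf M hM hne
  obtain ⟨t, hst⟩ := h263_comm T hZ hω₀
  have hN0 : (M.comap (h263s T A Ω ω₀)) ≠ ⊥ := by
    intro hbot
    apply hst
    rw [← Subgroup.mem_bot, ← hbot, Subgroup.mem_comap]
    have e : h263s T A Ω ω₀ (x.left ω₀ * t * (x.left ω₀)⁻¹ * t⁻¹) =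
        x * (h263s T A Ω ω₀ t * x⁻¹ * (h263s T A Ω ω₀ t)⁻¹) := by
      have e1 : x * (h263s T A Ω ω₀ t * x⁻¹ * (h263s T A Ω ω₀ t)⁻¹) =
          x * h263s T A Ω ω₀ t * x⁻¹ * (h263s T A Ω ω₀ t)⁻¹ := by group
      rw [e1]
      refine SemidirectProduct.ext ?_ ?_
      · funext ω
        rw [SemidirectProduct.mul_left, h263_conj_right T A Ω _ _ (h263s_right T A Ω ω₀ t), map_one,
          MulAut.one_apply, Pi.mul_apply, h263_conj T A Ω _ _ (h263s_right T A Ω ω₀ t), hx1, inv_one,
          one_smul, SemidirectProduct.inv_left, h263s_right, inv_one, map_one, MulAut.one_apply,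
          h263s_left, h263s_left, Pi.inv_apply]
        by_cases h : ω = ω₀
        · subst h
          rw [Pi.mulSingle_eq_same, Pi.mulSingle_eq_same]
        · rw [Pi.mulSingle_eq_of_ne h, Pi.mulSingle_eq_of_ne h]
          simp
      · rw [h263s_right, SemidirectProduct.mul_right, h263_conj_right T A Ω _ _ (h263s_right T A Ω ω₀ t),
          SemidirectProduct.inv_right, h263s_right, inv_one, mul_one]
    rw [e]
    exact M.mul_mem hx (hM.conj_mem _ (M.inv_mem hx) _)
  have hV0 : V ≤ M.comap (h263s T A Ω ω₀) := hmin _ (hM.comap _) hN0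
  have hV : ∀ ω : Ω, ∀ v ∈ V, h263s T A Ω ω v ∈ M := by
    intro ω v hv
    obtain ⟨a, ha⟩ := ht ω₀ ω
    have h1 := hM.conj_mem _ (hV0 hv) (SemidirectProduct.inr a)
    have e : (SemidirectProduct.inr a : WR T A Ω) * h263s T A Ω ω₀ v * (SemidirectProduct.inr a)⁻¹ =
        h263s T A Ω ω v := by
      refine SemidirectProduct.ext ?_ ?_
      · funext ω'
        rw [h263_conj T A Ω _ _ (h263s_right T A Ω ω₀ v), SemidirectProduct.left_inr,
          SemidirectProduct.right_inr, h263s_left, h263s_left, Pi.one_apply, one_mul, inv_one, mul_one]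
        by_cases h : ω' = ω
        · subst h
          rw [← ha, inv_smul_smul, Pi.mulSingle_eq_same, Pi.mulSingle_eq_same]
        · rw [Pi.mulSingle_eq_of_ne h, Pi.mulSingle_eq_of_ne]
          intro h2
          apply h
          rw [← ha, ← h2, smul_inv_smul]
      · rw [h263_conj_right T A Ω _ _ (h263s_right T A Ω ω₀ v), h263s_right]
    rwa [e] at h1
  have key : ∀ S : Finset Ω, ∀ f : Ω → T, (∀ ω, f ω ∈ V) → (∀ ω, ω ∉ S → f ω = 1) →
      (SemidirectProduct.inl f : WR T A Ω) ∈ M := by
    intro S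
    induction S using Finset.induction_on with
    | empty =>
      intro f _ h2
      have : f = 1 := funext fun ω => h2 ω (Finset.notMem_empty ω)
      rw [this, map_one]
      exact M.one_mem
    | insert ω S hω ih =>
      intro f h1 h2
      have e : f = Pi.mulSingle ω (f ω) * Function.update f ω 1 := by
        funext ω'
        rw [Pi.mul_apply]
        by_cases h : ω' = ω
        · subst h
          rw [Pi.mulSingle_eq_same, Function.update_self, mul_one]
        · rw [Pi.mulSingle_eq_of_ne h, Function.update_of_ne h, one_mul]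
      rw [e, map_mul]
      refine M.mul_mem (hV ω (f ω) (h1 ω)) (ih _ ?_ ?_)
      · intro ω'
        by_cases h : ω' = ω
        · subst h
          rw [Function.update_self]
          exact V.one_mem
        · rw [Function.update_of_ne h]
          exact h1 ω'
      · intro ω' hω'
        by_cases h : ω' = ω
        · subst h
          rw [Function.update_self]
        · rw [Function.update_of_ne h]
          exact h2 ω' fun h3 => by
            rcases Finset.mem_insert.1 h3 with h4 | h4
            · exact h h4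
            · exact hω' h4
  have := Fintype.ofFinite Ω
  intro y hy
  have h1 := key Finset.univ y.left hy.2 (fun ω hω => absurd (Finset.mem_univ ω) hω)
  have e : (SemidirectProduct.inl y.left : WR T A Ω) = y := by
    refine SemidirectProduct.ext ?_ ?_
    · rw [SemidirectProduct.left_inl]
    · rw [SemidirectProduct.right_inl]
      exact hy.1.symm
  rwa [e] at h1

/-- if `Z(T) ≠ 1` then `V ≤ Z(T)`, `T = C_T(V) = V` is abelian -/
theorem center_triv (l : ℕ) (h : PrimAffine l T) (hT : commutator T = ⊤) (hn : Nontrivial T) :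
    Subgroup.center T = ⊥ := by
  obtain ⟨V, H, h1, h2, h3, h4, h5, h6⟩ := h
  by_contra hne
  have hV : V ≤ Subgroup.center T := h4 _ inferInstance hne
  have hVt : V = ⊤ := by
    rw [← h3, eq_top_iff]
    intro x _
    rw [Subgroup.mem_centralizer_iff]
    intro y hy
    exact (Subgroup.mem_center_iff.mp (hV hy) x).symm
  rw [hVt] at hV
  have hc : commutator T = ⊥ := by
    rw [commutator_def, Subgroup.commutator_top_right_eq_bot_iff_le_center]
    exact hV
  rw [hT] at hc
  exact bot_ne_top hc.symm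

theorem pa_wr (l : ℕ) (h : PrimAffine l T) (hT : commutator T = ⊤) (hn : Nontrivial T)
    (hf : ∀ a : A, (∀ ω : Ω, a • ω = ω) → a = 1) (ht : ∀ ω ω' : Ω, ∃ a : A, a • ω = ω') :
    PrimAffine l (WR T A Ω) := by
  have hZ := center_triv T l h hT hn
  obtain ⟨V, H, h1, h2, h3, h4, h5, h6⟩ := h
  have hV : V ≠ ⊥ := by
    rintro rfl
    have : Subgroup.centralizer ((⊥ : Subgroup T) : Set T) = ⊤ := by
      rw [eq_top_iff]
      intro x _
      rw [Subgroup.mem_centralizer_iff]
      intro y hy
      rw [SetLike.mem_coe, Subgroup.mem_bot] at hy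
      rw [hy, one_mul, mul_one]
    rw [this] at h3
    exact bot_ne_top h3.symm
  refine ⟨VV T A Ω V, HH T A Ω H, vv_normal T A Ω V h1, vv_exp T A Ω V l h2,
    vv_cent T A Ω V h3 hV hf, vv_min T A Ω V h4 hZ hn hf ht, vv_compl T A Ω V H h5 h6 h1⟩

end

end Pool.Agent.H373.KR
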