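import Pool.Agent.H373.KR.KF

/-!
# The number of characters of defect zero of `[C_l wr A_5, C_l wr A_5]` is unbounded
-/

set_option autoImplicit false

open scoped Classical

noncomputable section

namespace Pool.Agent.H373.KR

open Pool.Agent.Y63.KR (chi2 KRC)
open Pool.Agent.Y63.AWC (IsIrreducibleCharacter numDefectZero)
open Pool.Agent.Results.MP_b6945b_al.WreathProducts (err Wr Cy Dz Sf err_def)

/-- the number of characters of defect zero of a wreath product -/
theorem z_wr (p : ℕ) [Fact p.Prime] (G A Ω : Type) [Group G] [Group A] [MulAction A Ω]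
    [Finite G] [Finite A] [Finite Ω] :
    (Nat.card A : ℤ) * (numDefectZero p (Wr G A Ω) : ℤ) =
      ∑ᶠ f : Ω → Dz p G, (Nat.card (Sf (A := A) f) : ℤ) *
        (numDefectZero p (Sf (A := A) f) : ℤ) :=
  Pool.Agent.Q17.WR.zed p G A Ω

theorem dz_finite (p : ℕ) (G : Type) [Group G] [Finite G] : Finite (Dz p G) :=
  Pool.Agent.Q17.WR.dz_fin p G

/-- `z_p(Z × D) = z_p(Z) z_p(D)` -/
theorem z_prod (p : ℕ) [Fact p.Prime] (Z D : Type) [Group Z] [Group D] [Finite Z] [Finite D] :
    numDefectZero p (Z × D) = numDefectZero p Z * numDefectZero p D := by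
  let _ := triv D
  have e : Wr Z D Unit ≃* Z × D :=
    { toFun := fun x => (x.left (), x.right)
      invFun := fun x => ⟨fun _ => x.1, x.2⟩
      left_inv := fun x => SemidirectProduct.ext (funext fun _ => rfl) rfl
      right_inv := fun x => rfl
      map_mul' := fun x y => rfl }
  have h1 := z_wr p Z D Unit
  rw [Pool.Agent.Y63.AWC.numDefectZero_congr e] at h1
  have h2 : ∀ f : Unit → Dz p Z, (Nat.card (Sf (A := D) f) : ℤ) *
      (numDefectZero p (Sf (A := D) f) : ℤ) = (Nat.card D : ℤ) * (numDefectZero p D : ℤ) := by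
    intro f
    have h3 : Sf (A := D) f = ⊤ := by
      rw [eq_top_iff]
      exact fun a _ ω => rfl
    rw [h3, Pool.Agent.Y63.AWC.numDefectZero_congr (Subgroup.topEquiv : (⊤ : Subgroup D) ≃* D),
      Subgroup.card_top]
  have hfin := dz_finite p Z
  have : Fintype (Unit → Dz p Z) := Fintype.ofFinite _
  rw [finsum_eq_sum_of_fintype, Finset.sum_congr rfl (fun f _ => h2 f), Finset.sum_const,
    Finset.card_univ, ← Nat.card_eq_fintype_card, nsmul_eq_mul] at h1
  have h4 : Nat.card (Unit → Dz p Z) = numDefectZero p Z := by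
    rw [Nat.card_congr (Equiv.funUnique Unit (Dz p Z))]
    rfl
  rw [h4] at h1
  have h5 : (Nat.card D : ℤ) ≠ 0 := by
    have : 0 < Nat.card D := Nat.card_pos
    positivity
  have h6 : (Nat.card D : ℤ) * (numDefectZero p (Z × D) : ℤ) =
      (Nat.card D : ℤ) * ((numDefectZero p Z * numDefectZero p D : ℕ) : ℤ) := by
    rw [h1]
    push_cast
    ring
  exact_mod_cast mul_left_cancel₀ h5 h6

/-- the alternating group of degree five -/
abbrev A5 : Type := alternatingGroup (Fin 5)

/-- the commutator subgroup of `C_l wr A_5` -/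
abbrev TL (l : ℕ) : Type := commutator (WR (CY l) A5 (Fin 5))

theorem a5_trans (i : Fin 5) : ∃ a : A5, a • (0 : Fin 5) = i := by
  by_cases hi : i = 0
  · exact ⟨1, by rw [hi, one_smul]⟩
  · obtain ⟨j, hj0, hji⟩ : ∃ j : Fin 5, j ≠ 0 ∧ j ≠ i := by
      revert i
      decide
    refine ⟨⟨Equiv.swap 0 j * Equiv.swap 0 i, ?_⟩, ?_⟩
    · rw [Equiv.Perm.mem_alternatingGroup, map_mul, Equiv.Perm.sign_swap (Ne.symm hj0),
        Equiv.Perm.sign_swap (Ne.symm hi)]
      norm_num
    · show (Equiv.swap (0 : Fin 5) j * Equiv.swap 0 i) 0 = i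
      rw [Equiv.Perm.mul_apply, Equiv.swap_apply_left, Equiv.swap_apply_of_ne_of_ne hi (Ne.symm hji)]

theorem zz_le (l : ℕ) [Fact l.Prime] : Nat.card (ZZ l A5 (Fin 5)) ≤ l := by
  have h0 : Nat.card (CY l) = l := by
    rw [Nat.card_congr Multiplicative.toAdd, Nat.card_zmod]
  have h1 : Function.Injective (fun x : ZZ l A5 (Fin 5) => (x : WR (CY l) A5 (Fin 5)).left 0) := by
    rintro ⟨x, hx1, hx2⟩ ⟨y, hy1, hy2⟩ hxy
    refine Subtype.ext (SemidirectProduct.ext (funext fun i => ?_) (hx1.trans hy1.symm))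
    obtain ⟨a, rfl⟩ := a5_trans i
    exact (hx2 a 0).trans (hxy.trans (hy2 a 0).symm)
  have hfin : Finite (CY l) := Nat.finite_of_card_ne_zero (by
    rw [h0]
    exact (Fact.out : l.Prime).ne_zero)
  calc Nat.card (ZZ l A5 (Fin 5)) ≤ Nat.card (CY l) := Nat.card_le_card_of_injective _ h1
    _ = l := h0

theorem a5_card : Nat.card A5 = 60 := by
  have h := nat_card_alternatingGroup (α := Fin 5)
  rw [h, Nat.card_eq_fintype_card, Fintype.card_fin]
  decide

theorem a5_perfect : commutator A5 = ⊤ :=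
  commutator_alternatingGroup_eq_top (by rw [Nat.card_eq_fintype_card, Fintype.card_fin])

theorem z_lower (p l : ℕ) [Fact p.Prime] [Fact l.Prime] (hl : l ≠ p) (h60 : 60 < l) :
    (l - 4) ^ 5 ≤ 60 * (l * numDefectZero p (TL l)) := by
  obtain ⟨e⟩ := comm_split l A5 (Fin 5) a5_perfect (by rw [a5_card]; exact h60)
  have hXfin : Finite (WR (CY l) A5 (Fin 5)) :=
    Finite.of_injective (fun x => (x.left, x.right)) (fun x y hxy =>
      SemidirectProduct.ext (congrArg Prod.fst hxy) (congrArg Prod.snd hxy))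
  have hz := z_wr p (CY l) A5 (Fin 5)
  rw [Pool.Agent.Y63.AWC.numDefectZero_congr e, z_prod, a5_card] at hz
  have hpz : ¬ p ∣ Nat.card (ZZ l A5 (Fin 5)) := by
    have h3 : IsPGroup l (ZZ l A5 (Fin 5)) := fun z => ⟨1, by
      rw [pow_one]
      exact Subtype.ext (zz_exp l A5 (Fin 5) z.1 z.2)⟩
    obtain ⟨n, hn⟩ := IsPGroup.iff_card.mp h3
    rw [hn]
    intro hh
    exact hl ((Nat.prime_dvd_prime_iff_eq Fact.out Fact.out).mp
      ((Fact.out : p.Prime).dvd_of_dvd_pow hh)).symm
  have hzz : numDefectZero p (ZZ l A5 (Fin 5)) ≤ l := by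
    rw [numDz_coprime p _ hpz]
    exact (Nat.card_le_card_of_surjective (ConjClasses.mk : ZZ l A5 (Fin 5) → _)
      ConjClasses.mk_surjective).trans (zz_le l)
  have hfin : Finite (Dz p (CY l)) := dz_finite p (CY l)
  have : Fintype (Dz p (CY l)) := Fintype.ofFinite _
  rw [finsum_eq_sum_of_fintype] at hz
  have hinj : ∀ f : Fin 5 → Dz p (CY l), Function.Injective f →
      (Nat.card (Sf (A := A5) f) : ℤ) * (numDefectZero p (Sf (A := A5) f) : ℤ) = 1 := by
    intro f hf
    have h3 : Sf (A := A5) f = ⊥ := by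
      rw [eq_bot_iff]
      intro a ha
      rw [Subgroup.mem_bot]
      refine Subtype.ext (Equiv.ext fun i => ?_)
      exact hf (ha i)
    have h4 : ¬ p ∣ Nat.card (⊥ : Subgroup A5) := by
      rw [Subgroup.card_bot]
      exact (Fact.out : p.Prime).one_lt.ne' ∘ Nat.dvd_one.mp
    rw [h3, numDz_coprime p _ h4, Subgroup.card_bot]
    have h5 : Nat.card (ConjClasses (⊥ : Subgroup A5)) = 1 := by
      have h6 : Nat.card (ConjClasses (⊥ : Subgroup A5)) ≤ Nat.card (⊥ : Subgroup A5) :=
        Nat.card_le_card_of_surjective _ ConjClasses.mk_surjective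
      have h7 : 0 < Nat.card (ConjClasses (⊥ : Subgroup A5)) := Nat.card_pos
      rw [Subgroup.card_bot] at h6
      omega
    rw [h5]
    norm_num
  have hcount : ((l.descFactorial 5 : ℕ) : ℤ) ≤ ∑ f : Fin 5 → Dz p (CY l),
      (Nat.card (Sf (A := A5) f) : ℤ) * (numDefectZero p (Sf (A := A5) f) : ℤ) := by
    calc ((l.descFactorial 5 : ℕ) : ℤ)
        = ∑ f ∈ Finset.univ.filter (fun f : Fin 5 → Dz p (CY l) => Function.Injective f), (1 : ℤ) := by
          rw [Finset.sum_const, nsmul_eq_mul, mul_one]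
          congr 1
          rw [← Fintype.card_subtype,
            Fintype.card_congr (Equiv.subtypeInjectiveEquivEmbedding (Fin 5) (Dz p (CY l))),
            Fintype.card_embedding_eq, Fintype.card_fin, ← Nat.card_eq_fintype_card,
            card_Dz p l hl]
      _ = ∑ f ∈ Finset.univ.filter (fun f : Fin 5 → Dz p (CY l) => Function.Injective f),
          (Nat.card (Sf (A := A5) f) : ℤ) * (numDefectZero p (Sf (A := A5) f) : ℤ) :=
        Finset.sum_congr rfl fun f hf => (hinj f (Finset.mem_filter.mp hf).2).symm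
      _ ≤ _ := Finset.sum_le_sum_of_subset_of_nonneg (Finset.subset_univ _)
        (fun f _ _ => by positivity)
  have h8 : (l + 1 - 5) ^ 5 ≤ l.descFactorial 5 := Nat.pow_sub_le_descFactorial l 5
  have h9 : l + 1 - 5 = l - 4 := by omega
  rw [h9] at h8
  rw [← hz] at hcount
  have h10 : l.descFactorial 5 ≤
      60 * (numDefectZero p (ZZ l A5 (Fin 5)) * numDefectZero p (TL l)) := by
    exact_mod_cast hcount
  calc (l - 4) ^ 5 ≤ l.descFactorial 5 := h8
    _ ≤ 60 * (numDefectZero p (ZZ l A5 (Fin 5)) * numDefectZero p (TL l)) := h10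
    _ ≤ 60 * (l * numDefectZero p (TL l)) := by gcongr

/-- the number of characters of defect zero is unbounded -/
theorem z_unbounded (p l B : ℕ) [Fact p.Prime] [Fact l.Prime] (hl : l ≠ p)
    (hB : 2000 * B + 60 < l) : B < numDefectZero p (TL l) := by
  by_contra hcon
  have h0 : numDefectZero p (TL l) ≤ B := by omega
  have h1 := z_lower p l hl (by omega)
  obtain ⟨k, rfl⟩ : ∃ k, l = k + 4 := ⟨l - 4, by omega⟩
  have hk : k + 4 - 4 = k := by omega
  rw [hk] at h1
  have h2 : k ^ 5 ≤ 60 * ((k + 4) * B) := h1.trans (by gcongr)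
  have h3 : 1 ≤ k := by omega
  have h4 : 60 * ((k + 4) * B) ≤ 60 * (5 * k * B) := by
    gcongr
    omega
  have h5 : k ^ 5 ≤ (300 * B) * k := by
    calc k ^ 5 ≤ _ := h2
      _ ≤ _ := h4
      _ = _ := by ring
  have h6 : k ^ 4 * k ≤ (300 * B) * k := by
    calc k ^ 4 * k = k ^ 5 := by ring
      _ ≤ _ := h5
  have h7 : k ^ 4 ≤ 300 * B := Nat.le_of_mul_le_mul_right h6 (by omega)
  have h8 : k ≤ k ^ 4 := Nat.le_self_pow (by norm_num) k
  omega

end Pool.Agent.H373.KR
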