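import Pool.Agent.H373.KR.KW
import Pool.Agent.H373.KR.KC

set_option autoImplicit false

open scoped Classical

noncomputable section

namespace Pool.Agent.H373.KR

/-- the coboundaries (helper385) -/
def h385cob {l : ℕ} {N Ω : Type} [Group N] [MulAction N Ω] (K : Subgroup N) (w : Ω → CY l) :
    {v : K → (Ω → CY l) // ∀ (k k' : K) (ω : Ω), v (k * k') ω = v k ω * v k' ((k : N)⁻¹ • ω)} :=
  ⟨fun k ω => w ω * (w ((k : N)⁻¹ • ω))⁻¹, by
    intro k k' ω
    have h : ((k * k' : K) : N)⁻¹ • ω = (k' : N)⁻¹ • (k : N)⁻¹ • ω := by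
      rw [Subgroup.coe_mul, mul_inv_rev, mul_smul]
    show w ω * (w (((k * k' : K) : N)⁻¹ • ω))⁻¹ = w ω * (w ((k : N)⁻¹ • ω))⁻¹ *
      (w ((k : N)⁻¹ • ω) * (w ((k' : N)⁻¹ • (k : N)⁻¹ • ω))⁻¹)
    rw [h, mul_assoc, inv_mul_cancel_left]⟩

theorem h385pow {l : ℕ} (x : CY l) : x ^ l = 1 := by
  show Multiplicative.ofAdd (l • x.toAdd) = 1
  rw [nsmul_eq_mul, ZMod.natCast_self, zero_mul]
  rfl

/-- the average -/
theorem h385surj {l : ℕ} [Fact l.Prime] {N Ω : Type} [Group N] [Finite N] [MulAction N Ω]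
    (K : Subgroup N) (hK : ¬ l ∣ Nat.card K)
    (v : {v : K → (Ω → CY l) // ∀ (k k' : K) (ω : Ω), v (k * k') ω = v k ω * v k' ((k : N)⁻¹ • ω)}) :
    ∃ w : Ω → CY l, h385cob K w = v := by
  have hl : l.Prime := Fact.out
  obtain ⟨m, -, hm⟩ := Nat.exists_mul_mod_eq_one_of_coprime
    ((Nat.Prime.coprime_iff_not_dvd hl).2 hK).symm hl.one_lt
  have : Fintype K := Fintype.ofFinite K
  have key : ∀ (k : K) (ω : Ω), (∏ k' : K, v.1 k' ω) * (∏ k' : K, v.1 k' ((k : N)⁻¹ • ω))⁻¹ =
      (v.1 k ω) ^ Nat.card K := by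
    intro k ω
    have h1 : (∏ k' : K, v.1 k' ω) = ∏ k' : K, (v.1 k ω * v.1 k' ((k : N)⁻¹ • ω)) := by
      rw [← Equiv.prod_comp (Equiv.mulLeft k) (fun k' : K => v.1 k' ω)]
      exact Finset.prod_congr rfl fun k' _ => v.2 k k' ω
    rw [h1, Finset.prod_mul_distrib, Finset.prod_const, Finset.card_univ, mul_inv_cancel_right,
      Nat.card_eq_fintype_card]
  refine ⟨fun ω => (∏ k' : K, v.1 k' ω) ^ m, Subtype.ext (funext fun k => funext fun ω => ?_)⟩
  show (∏ k' : K, v.1 k' ω) ^ m * ((∏ k' : K, v.1 k' ((k : N)⁻¹ • ω)) ^ m)⁻¹ = v.1 k ω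
  rw [← inv_pow, ← mul_pow, key, ← pow_mul, pow_eq_pow_mod _ (h385pow (v.1 k ω)), hm, pow_one]

/-- the functions and the cocycles -/
theorem h385equiv {l : ℕ} [Fact l.Prime] {N Ω : Type} [Group N] [Finite N] [MulAction N Ω]
    (K : Subgroup N) (hK : ¬ l ∣ Nat.card K) : Nonempty ((Ω → CY l) ≃
    {v : K → (Ω → CY l) // ∀ (k k' : K) (ω : Ω), v (k * k') ω = v k ω * v k' ((k : N)⁻¹ • ω)} ×
      {f : Ω → CY l // ∀ k ∈ K, ∀ ω, f (k • ω) = f ω}) := by
  choose s hs using h385surj (l := l) (N := N) (Ω := Ω) K hK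
  have hinv : ∀ w w' : Ω → CY l, h385cob K w = h385cob K w' →
      ∀ k ∈ K, ∀ ω, w (k • ω) * (w' (k • ω))⁻¹ = w ω * (w' ω)⁻¹ := by
    intro w w' h k hk ω
    have h1 := congrFun (congrFun (congrArg Subtype.val h) (⟨k, hk⟩⁻¹ : K)) ω
    have h2 : w ω * (w (((⟨k, hk⟩⁻¹ : K) : N)⁻¹ • ω))⁻¹ =
      w' ω * (w' (((⟨k, hk⟩⁻¹ : K) : N)⁻¹ • ω))⁻¹ := h1
    have h3 : ((⟨k, hk⟩⁻¹ : K) : N)⁻¹ • ω = k • ω := by
      rw [Subgroup.coe_inv, inv_inv]
    rw [h3, ← div_eq_mul_inv, ← div_eq_mul_inv, div_eq_div_iff_mul_eq_mul] at h2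
    rw [← div_eq_mul_inv, ← div_eq_mul_inv, div_eq_div_iff_mul_eq_mul, h2, mul_comm]
  have hinv' : ∀ (f : {f : Ω → CY l // ∀ k ∈ K, ∀ ω, f (k • ω) = f ω}) (w : Ω → CY l),
      h385cob K (f.1 * w) = h385cob K w := by
    intro f w
    refine Subtype.ext (funext fun k => funext fun ω => ?_)
    show f.1 ω * w ω * (f.1 ((k : N)⁻¹ • ω) * w ((k : N)⁻¹ • ω))⁻¹ = w ω * (w ((k : N)⁻¹ • ω))⁻¹
    rw [f.2 _ (K.inv_mem k.2) ω, mul_inv_rev, mul_comm (f.1 ω) (w ω), mul_assoc,
      mul_comm (w ((k : N)⁻¹ • ω))⁻¹, mul_inv_cancel_left]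
  refine ⟨{
    toFun := fun w => (h385cob K w, ⟨fun ω => w ω * (s (h385cob K w) ω)⁻¹,
      hinv _ _ (hs (h385cob K w)).symm⟩)
    invFun := fun x => x.2.1 * s x.1
    left_inv := fun w => ?_
    right_inv := fun x => ?_ }⟩
  · funext ω
    show w ω * (s (h385cob K w) ω)⁻¹ * s (h385cob K w) ω = w ω
    rw [inv_mul_cancel_right]
  · have h1 : h385cob K (x.2.1 * s x.1) = x.1 := by rw [hinv', hs]
    refine Prod.ext h1 (Subtype.ext (funext fun ω => ?_))
    show x.2.1 ω * s x.1 ω * (s (h385cob K (x.2.1 * s x.1)) ω)⁻¹ = x.2.1 ω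
    rw [h1, mul_inv_cancel_right]

section

variable (l : ℕ) [Fact l.Prime] (N Ω : Type) [Group N] [Finite N] [MulAction N Ω] [Finite Ω]

/-- the cocycles -/
def Coc (K : Subgroup N) : Type :=
  {v : K → (Ω → CY l) // ∀ (k k' : K) (ω : Ω), v (k * k') ω = v k ω * v k' ((k : N)⁻¹ • ω)}

/-- the section of a cocycle -/
def h93_sec (K : Subgroup N) (v : Coc l N Ω K) : K →* WR (CY l) N Ω :=
  MonoidHom.mk' (fun k => (⟨v.1 k, (k : N)⟩ : WR (CY l) N Ω)) (by
    intro k k'
    refine SemidirectProduct.ext ?_ ?_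
    · funext ω
      exact v.2 k k' ω
    · rfl)

theorem h93_sec_inj (K : Subgroup N) (v : Coc l N Ω K) : Function.Injective (h93_sec l N Ω K v) := by
  intro k k' hkk
  have h1 := congrArg SemidirectProduct.right hkk
  exact Subtype.ext h1

theorem h93_mem (K : Subgroup N) (v : Coc l N Ω K) (k : K) (x : WR (CY l) N Ω)
    (hx : x ∈ (h93_sec l N Ω K v).range) (hk : x.right = k) : x.left = v.1 k := by
  obtain ⟨k', rfl⟩ := hx
  have h1 : k' = k := Subtype.ext hk
  rw [h1]
  rfl

/-- the subgroups which are mapped isomorphically onto `K` correspond to the cocycles `v`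
(`{(v k, k)}`) -/
theorem compl_coc (K : Subgroup N) :
    Nat.card {K' : Subgroup (WR (CY l) N Ω) // Nat.card K' = Nat.card K ∧
      K'.map (SemidirectProduct.rightHom : WR (CY l) N Ω →* N) = K} = Nat.card (Coc l N Ω K) := by
  have hF : ∀ v : Coc l N Ω K, Nat.card (h93_sec l N Ω K v).range = Nat.card K ∧
      (h93_sec l N Ω K v).range.map (SemidirectProduct.rightHom : WR (CY l) N Ω →* N) = K := by
    intro v
    constructor
    · exact (Nat.card_congr (MonoidHom.ofInjective (h93_sec_inj l N Ω K v)).toEquiv).symm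
    · rw [MonoidHom.map_range]
      have h1 : (SemidirectProduct.rightHom : WR (CY l) N Ω →* N).comp (h93_sec l N Ω K v) =
          K.subtype := by
        ext k
        rfl
      rw [h1, Subgroup.range_subtype]
  let F : Coc l N Ω K → {K' : Subgroup (WR (CY l) N Ω) // Nat.card K' = Nat.card K ∧
      K'.map (SemidirectProduct.rightHom : WR (CY l) N Ω →* N) = K} :=
    fun v => ⟨(h93_sec l N Ω K v).range, hF v⟩
  refine (Nat.card_congr (Equiv.ofBijective F ⟨?_, ?_⟩)).symm
  · intro v w hvw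
    have h1 : (h93_sec l N Ω K v).range = (h93_sec l N Ω K w).range := congrArg Subtype.val hvw
    apply Subtype.ext
    funext k
    have h2 : h93_sec l N Ω K v k ∈ (h93_sec l N Ω K w).range := h1 ▸ ⟨k, rfl⟩
    exact h93_mem l N Ω K w k _ h2 rfl
  · rintro ⟨K', hc, hm⟩
    have hpos : 0 < Nat.card K := Nat.card_pos
    have hfin : Finite K' := Nat.finite_of_card_ne_zero (by omega)
    have hr : ∀ x : K', (x : WR (CY l) N Ω).right ∈ K := by
      intro x
      rw [← hm]
      exact ⟨x.1, x.2, rfl⟩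
    let ρ : K' → K := fun x => ⟨(x : WR (CY l) N Ω).right, hr x⟩
    have hsurj : Function.Surjective ρ := by
      rintro ⟨k, hk⟩
      rw [← hm] at hk
      obtain ⟨x, hx, hxk⟩ := hk
      exact ⟨⟨x, hx⟩, Subtype.ext hxk⟩
    have hbij : Function.Bijective ρ := hsurj.bijective_of_nat_card_le hc.le
    choose t ht using hsurj
    have htr : ∀ k, (t k : WR (CY l) N Ω).right = k := fun k => congrArg Subtype.val (ht k)
    have htm : ∀ k k', t (k * k') = t k * t k' := by
      intro k k'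
      apply hbij.1
      apply Subtype.ext
      change (t (k * k') : WR (CY l) N Ω).right = ((t k : WR (CY l) N Ω) * (t k' : WR (CY l) N Ω)).right
      rw [htr, SemidirectProduct.mul_right, htr, htr]
      rfl
    refine ⟨⟨fun k => (t k : WR (CY l) N Ω).left, ?_⟩, ?_⟩
    · intro k k' ω
      have h1 : (t (k * k') : WR (CY l) N Ω) = (t k : WR (CY l) N Ω) * (t k' : WR (CY l) N Ω) := by
        rw [htm]; rfl
      change (t (k * k') : WR (CY l) N Ω).left ω = _
      rw [h1, SemidirectProduct.mul_left, htr]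
      rfl
    · apply Subtype.ext
      change (h93_sec l N Ω K _).range = K'
      ext x
      constructor
      · rintro ⟨k, rfl⟩
        have h2 : h93_sec l N Ω K ⟨fun k => (t k : WR (CY l) N Ω).left, by
            intro k k' ω
            have h1 : (t (k * k') : WR (CY l) N Ω) = (t k : WR (CY l) N Ω) * (t k' : WR (CY l) N Ω) := by
              rw [htm]; rfl
            change (t (k * k') : WR (CY l) N Ω).left ω = _
            rw [h1, SemidirectProduct.mul_left, htr]
            rfl⟩ k = (t k : WR (CY l) N Ω) :=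
          SemidirectProduct.ext rfl (htr k).symm
        rw [h2]
        exact (t k).2
      · intro hx
        refine ⟨ρ ⟨x, hx⟩, ?_⟩
        have h3 : t (ρ ⟨x, hx⟩) = ⟨x, hx⟩ := hbij.1 (ht _)
        refine SemidirectProduct.ext ?_ rfl
        change (t (ρ ⟨x, hx⟩) : WR (CY l) N Ω).left = x.left
        rw [h3]

/-- all cocycles are of the form `k ↦ w (k w)⁻¹` (average: `w = (∏_k v k) ^ m`, `m |K| = 1` modulo
`l`), and two `w` give the same cocycle if they differ by an invariant function; `card_inv` -/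
theorem coc_card (K : Subgroup N) (hK : ¬ l ∣ Nat.card K) :
    Nat.card (Coc l N Ω K) * l ^ orb (Ω := Ω) K = l ^ Nat.card Ω := by
  have hfin : Finite (CY l) := inferInstanceAs (Finite (ZMod l))
  have hcard : Nat.card (CY l) = l := Nat.card_zmod l
  obtain ⟨e⟩ := h385equiv (l := l) (N := N) (Ω := Ω) K hK
  have h1 := Nat.card_congr e
  rw [Nat.card_prod, card_inv (Ω := Ω) (X := CY l) K, Nat.card_fun, hcard] at h1
  exact h1.symm

theorem compl_card (K : Subgroup N) (hK : ¬ l ∣ Nat.card K) :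
    Nat.card {K' : Subgroup (WR (CY l) N Ω) // Nat.card K' = Nat.card K ∧
      K'.map (SemidirectProduct.rightHom : WR (CY l) N Ω →* N) = K} * l ^ orb (Ω := Ω) K =
      l ^ Nat.card Ω := by
  rw [compl_coc, coc_card l N Ω K hK]

omit [Finite N] [Finite Ω] in
/-- the kernel of the projection consists of elements with `x ^ l = 1` -/
theorem h267_ker_pow (x : WR (CY l) N Ω)
    (hx : (SemidirectProduct.rightHom : WR (CY l) N Ω →* N) x = 1) : x ^ l = 1 := by
  obtain ⟨f, rfl⟩ : ∃ f : Ω → CY l, SemidirectProduct.inl f = x := by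
    have : x ∈ (SemidirectProduct.rightHom : WR (CY l) N Ω →* N).ker := hx
    rw [← SemidirectProduct.range_inl_eq_ker_rightHom] at this
    exact this
  rw [← map_pow]
  have h1 : f ^ l = 1 := by
    funext ω
    rw [Pi.pow_apply, Pi.one_apply]
    have h2 : Fintype.card (CY l) = l := by
      rw [Fintype.card_multiplicative, ZMod.card]
    have h3 := pow_card_eq_one (x := f ω)
    rwa [h2] at h3
  rw [h1, map_one]

omit [Finite N] [Finite Ω] in
theorem h267_inj (K' : Subgroup (WR (CY l) N Ω)) (hn : ¬ l ∣ Nat.card K') :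
    Function.Injective ((SemidirectProduct.rightHom : WR (CY l) N Ω →* N).subgroupMap K') := by
  rw [injective_iff_map_eq_one]
  rintro ⟨x, hx⟩ h
  have h1 : (SemidirectProduct.rightHom : WR (CY l) N Ω →* N) x = 1 := by
    have := congrArg Subtype.val h
    simpa using this
  have h2 := h267_ker_pow l N Ω x h1
  have h3 : (⟨x, hx⟩ : K') ^ l = 1 := Subtype.ext h2
  have h4 : (⟨x, hx⟩ : K') ^ Nat.card K' = 1 := pow_card_eq_one'
  have h5 : Nat.Coprime l (Nat.card K') := (Nat.Prime.coprime_iff_not_dvd Fact.out).2 hn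
  have h6 : orderOf (⟨x, hx⟩ : K') ∣ Nat.gcd l (Nat.card K') :=
    Nat.dvd_gcd (orderOf_dvd_of_pow_eq_one h3) (orderOf_dvd_of_pow_eq_one h4)
  rw [h5.gcd_eq_one] at h6
  exact orderOf_eq_one_iff.1 (Nat.dvd_one.1 h6)

/-- the sum over the subgroups `K'` of order `n` of the wreath product; `K'` is mapped isomorphically
onto its image `K` as `l` does not divide `n`; `e` is constant on isomorphism classes -/
theorem sum_compl (n : ℕ) (hn : ¬ l ∣ n) (e : Subgroup N → ℚ) (e' : Subgroup (WR (CY l) N Ω) → ℚ)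
    (he : ∀ K K', Nonempty ((K : Subgroup N) ≃* (K' : Subgroup (WR (CY l) N Ω))) → e K = e' K')
    [Fintype (Subgroup N)] [Fintype (Subgroup (WR (CY l) N Ω))] :
    (∑ K' ∈ Finset.univ.filter (fun K' : Subgroup (WR (CY l) N Ω) => Nat.card K' = n), e' K') =
      ∑ K ∈ Finset.univ.filter (fun K : Subgroup N => Nat.card K = n),
        e K * (Nat.card {K' : Subgroup (WR (CY l) N Ω) // Nat.card K' = Nat.card K ∧
          K'.map (SemidirectProduct.rightHom : WR (CY l) N Ω →* N) = K} : ℚ) := by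
  have hequiv : ∀ K' : Subgroup (WR (CY l) N Ω), Nat.card K' = n →
      Nonempty (K' ≃* K'.map (SemidirectProduct.rightHom : WR (CY l) N Ω →* N)) := by
    intro K' hK'
    refine ⟨MulEquiv.ofBijective _ ⟨h267_inj l N Ω K' (by rw [hK']; exact hn), ?_⟩⟩
    exact MonoidHom.subgroupMap_surjective _ K'
  have hmaps : ∀ K' ∈ Finset.univ.filter (fun K' : Subgroup (WR (CY l) N Ω) => Nat.card K' = n),
      K'.map (SemidirectProduct.rightHom : WR (CY l) N Ω →* N) ∈
        Finset.univ.filter (fun K : Subgroup N => Nat.card K = n) := by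
    intro K' hK'
    rw [Finset.mem_filter] at hK' ⊢
    refine ⟨Finset.mem_univ _, ?_⟩
    obtain ⟨f⟩ := hequiv K' hK'.2
    rw [← hK'.2]
    exact (Nat.card_congr f.toEquiv).symm
  rw [← Finset.sum_fiberwise_of_maps_to hmaps]
  refine Finset.sum_congr rfl fun K hK => ?_
  rw [Finset.mem_filter] at hK
  have h1 : ∀ K' ∈ (Finset.univ.filter (fun K' : Subgroup (WR (CY l) N Ω) => Nat.card K' = n)).filter
      (fun K' => K'.map (SemidirectProduct.rightHom : WR (CY l) N Ω →* N) = K), e' K' = e K := by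
    intro K' hK'
    rw [Finset.mem_filter, Finset.mem_filter] at hK'
    obtain ⟨f⟩ := hequiv K' hK'.1.2
    rw [hK'.2] at f
    exact (he K K' ⟨f.symm⟩).symm
  rw [Finset.sum_congr rfl h1, Finset.sum_const, nsmul_eq_mul, mul_comm]
  congr 2
  rw [Nat.card_eq_fintype_card, Fintype.card_subtype]
  congr 1
  ext K'
  simp only [Finset.mem_filter, Finset.mem_univ, true_and, hK.2]

end

/-- if all the subgroups of order `n` of `X` lie in `D` then the sums over the subgroups of order `n`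
of `X` and `D` are equal -/
theorem sum_sub {X : Type} [Group X] [Finite X] (D : Subgroup X) (n : ℕ)
    (hD : ∀ K : Subgroup X, Nat.card K = n → K ≤ D) (e : Subgroup D → ℚ) (e' : Subgroup X → ℚ)
    (he : ∀ K K', Nonempty ((K : Subgroup D) ≃* (K' : Subgroup X)) → e K = e' K')
    [Fintype (Subgroup D)] [Fintype (Subgroup X)] :
    (∑ K' ∈ Finset.univ.filter (fun K' : Subgroup X => Nat.card K' = n), e' K') =
      ∑ K ∈ Finset.univ.filter (fun K : Subgroup D => Nat.card K = n), e K := by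
  symm
  refine Finset.sum_bij (fun K _ => K.map D.subtype) ?_ ?_ ?_ ?_
  · intro K hK
    rw [Finset.mem_filter] at hK ⊢
    refine ⟨Finset.mem_univ _, ?_⟩
    rw [← hK.2]
    exact (Nat.card_congr (K.equivMapOfInjective D.subtype D.subtype_injective).toEquiv).symm
  · intro K _ K₂ _ h
    exact Subgroup.map_injective D.subtype_injective h
  · intro K' hK'
    rw [Finset.mem_filter] at hK'
    have h1 : (K'.subgroupOf D).map D.subtype = K' := by
      rw [Subgroup.subgroupOf_map_subtype, inf_eq_left]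
      exact hD K' hK'.2
    refine ⟨K'.subgroupOf D, ?_, h1⟩
    rw [Finset.mem_filter]
    refine ⟨Finset.mem_univ _, ?_⟩
    rw [← hK'.2]
    exact Nat.card_congr (Subgroup.subgroupOfEquivOfLe (hD K' hK'.2)).toEquiv
  · intro K _
    exact he K _ ⟨K.equivMapOfInjective D.subtype D.subtype_injective⟩

end Pool.Agent.H373.KR
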