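import Pool.Agent.H373.KR.L4
import Pool.Agent.H373.KR.L1b
import Pool.Agent.H373.KR.L2
import Pool.Agent.H373.KR.L5

/-!
# The Knörr-Robinson conjecture for perfect affine primitive groups implies it for all groups
-/

set_option autoImplicit false

open scoped Classical

noncomputable section

namespace Pool.Agent.H373.KR

open Pool.Agent.Y63.KR (chi2 KRC)
open Pool.Agent.Y63.AWC (IsIrreducibleCharacter numDefectZero)
open Pool.Agent.Results.MP_b6945b_al.WreathProducts (err Wr Cy Dz Sf err_def)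

/-- a polynomial with arbitrarily large zeros vanishes -/
theorem coeff_of_unbounded {ι : Type} [Fintype ι] (g : ι → ℚ) (c : ι → ℕ)
    (h : ∀ B : ℕ, ∃ m : ℕ, B < m ∧ ∑ i, g i * (m : ℚ) ^ c i = 0) (c0 : ℕ) :
    ∑ i ∈ Finset.univ.filter (fun i => c i = c0), g i = 0 := by
  let P : Polynomial ℚ := ∑ i, Polynomial.C (g i) * Polynomial.X ^ c i
  have hinf : {l : ℕ | ∑ i, g i * (l : ℚ) ^ c i = 0}.Infinite := by
    rw [Set.infinite_iff_exists_gt]
    intro a
    obtain ⟨m, hm, hp⟩ := h a
    exact ⟨m, hp, hm⟩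
  have h0 : P = 0 := by
    apply Polynomial.eq_zero_of_infinite_isRoot
    refine (hinf.image (f := fun l : ℕ => (l : ℚ)) (Nat.cast_injective.injOn)).mono ?_
    rintro _ ⟨l, hl, rfl⟩
    simp only [Set.mem_ofPred_eq, Polynomial.IsRoot.def, P, Polynomial.eval_finsetSum,
      Polynomial.eval_mul, Polynomial.eval_C, Polynomial.eval_pow, Polynomial.eval_X]
    exact hl
  have h1 : P.coeff c0 = 0 := by rw [h0, Polynomial.coeff_zero]
  rw [← h1]
  simp only [P, Polynomial.finsetSum_coeff, Polynomial.coeff_C_mul, Polynomial.coeff_X_pow]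
  rw [Finset.sum_filter]
  refine Finset.sum_congr rfl fun i _ => ?_
  by_cases hi : c i = c0
  · rw [if_pos hi, if_pos hi.symm, mul_one]
  · rw [if_neg hi, if_neg (Ne.symm hi), mul_zero]

theorem wr_finite (G A Ω : Type) [Group G] [Group A] [MulAction A Ω] [Finite G] [Finite A]
    [Finite Ω] : Finite (WR G A Ω) :=
  Finite.of_injective (fun x => (x.left, x.right)) (fun x y hxy =>
    SemidirectProduct.ext (congrArg Prod.fst hxy) (congrArg Prod.snd hxy))

/-- the subgroups of order prime to `l` lie in the commutator subgroup -/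
theorem le_comm (l : ℕ) [Fact l.Prime] (N Ω : Type) [Group N] [Finite N] [MulAction N Ω]
    [Finite Ω] (hN : commutator N = ⊤) (hd : Nat.card N < l)
    (K : Subgroup (WR (CY l) N Ω)) (hK : ¬ l ∣ Nat.card K) : K ≤ commutator (WR (CY l) N Ω) := by
  intro x hx
  have hfin := wr_finite (CY l) N Ω
  obtain ⟨z, hz, d, hd', rfl⟩ := zz_sup l N Ω hN hd x
  have h1 : (z * d) ^ Nat.card K = 1 := by
    have := pow_card_eq_one' (x := (⟨z * d, hx⟩ : K))
    exact congrArg Subtype.val this
  have h2 : Commute z d := zz_central l N Ω z hz d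
  rw [h2.mul_pow] at h1
  have h3 : z ^ Nat.card K = 1 := by
    refine zz_inf l N Ω hd _ (Subgroup.pow_mem _ hz _) ?_
    rw [eq_inv_of_mul_eq_one_left h1]
    exact Subgroup.inv_mem _ (Subgroup.pow_mem _ hd' _)
  have h4 : z ^ l = 1 := zz_exp l N Ω z hz
  have h5 : orderOf z ∣ Nat.gcd (Nat.card K) l :=
    Nat.dvd_gcd (orderOf_dvd_of_pow_eq_one h3) (orderOf_dvd_of_pow_eq_one h4)
  have h6 : Nat.gcd (Nat.card K) l = 1 :=
    ((Nat.Prime.coprime_iff_not_dvd Fact.out).mpr hK).symm
  rw [h6, Nat.dvd_one, orderOf_eq_one_iff] at h5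
  rw [h5, one_mul]
  exact hd'

section

variable (p : ℕ) [Fact p.Prime]
  (H : ∀ (X : Type) [Group X] [Finite X], commutator X = ⊤ →
    (∃ l : ℕ, l.Prime ∧ l ≠ p ∧ PrimAffine l X) → KRC p X)

include H

theorem r1 (Y : Type) [Group Y] [Finite Y] (hY : commutator Y = ⊤) [Fintype (Subgroup Y)]
    (g : Subgroup Y → ℚ) (hg : ∀ x : Subgroup Y, (Nat.card x : ℚ) * err p x =
      ∑ y ∈ Finset.univ.filter (fun y => y ≤ x), g y) (n : ℕ) :
    ∑ K ∈ Finset.univ.filter (fun K : Subgroup Y => Nat.card K = n), g K = 0 := by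
  have key : ∀ c0 : ℕ,
      ∑ K ∈ Finset.univ.filter (fun K : Subgroup Y => orb (Ω := Y) K = c0), g K = 0 := by
    refine coeff_of_unbounded g (fun K : Subgroup Y => orb (Ω := Y) K) (fun B => ?_)
    obtain ⟨l, hl, hlp⟩ := Nat.exists_infinite_primes (2000 * B + 2061 + p)
    have : Fact l.Prime := ⟨hlp⟩
    have hne : l ≠ p := by omega
    have h60 : 60 < l := by omega
    have hXfin : Finite (WR (CY l) A5 (Fin 5)) := wr_finite _ _ _
    have hT : commutator (TL l) = ⊤ :=
      comm_perfect l A5 (Fin 5) a5_perfect (by rw [a5_card]; exact h60)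
    have hz : 1 < numDefectZero p (TL l) := z_unbounded p l 1 hne (by omega)
    have hnt : Nontrivial (TL l) := by
      by_contra hcon
      have hs : Subsingleton (TL l) := not_nontrivial_iff_subsingleton.mp hcon
      have h1 : Nat.card (TL l) = 1 := Nat.card_unique
      have h2 : ¬ p ∣ Nat.card (TL l) := by
        rw [h1]
        exact (Fact.out : p.Prime).one_lt.ne' ∘ Nat.dvd_one.mp
      rw [numDz_coprime p _ h2] at hz
      have h3 : Nat.card (ConjClasses (TL l)) ≤ Nat.card (TL l) :=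
        Nat.card_le_card_of_surjective _ ConjClasses.mk_surjective
      omega
    have hPA : PrimAffine l (TL l) := pa_T l h60
    have hK1 : KRC p (TL l) := H _ hT ⟨l, hlp, hne, hPA⟩
    have hfin : Finite (WR (TL l) Y Y) := wr_finite _ _ _
    have hK2 : KRC p (Wr (TL l) Y Y) := by
      refine H _ (wr_perfect (TL l) Y Y hT hY) ⟨l, hlp, hne,
        pa_wr (TL l) Y Y l hPA hT hnt (fun a ha => ?_) (fun a b => ⟨b * a⁻¹, ?_⟩)⟩
      · have := ha 1
        rwa [smul_eq_mul, mul_one] at this
      · rw [smul_eq_mul, inv_mul_cancel_right]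
    rw [krc_iff] at hK2
    have h3 := err_wr p (TL l) Y Y hK1
    rw [hK2, mul_zero] at h3
    have hfinD : Finite (Dz p (TL l)) := dz_finite p (TL l)
    have h4 := double_count (Ω := Y) (X := Dz p (TL l)) (fun S : Subgroup Y =>
      (Nat.card S : ℚ) * err p S) g hg (fun f => Sf (A := Y) f) (fun f a => Iff.rfl)
    refine ⟨numDefectZero p (TL l), z_unbounded p l B hne (by omega), ?_⟩
    have h5 : Nat.card (Dz p (TL l)) = numDefectZero p (TL l) := rfl
    rw [h5] at h4
    rw [← h4]
    exact h3.symm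
  by_cases hex : ∃ K0 : Subgroup Y, Nat.card K0 = n
  · obtain ⟨K0, hK0⟩ := hex
    rw [← key (orb (Ω := Y) K0)]
    refine Finset.sum_congr (Finset.filter_congr fun K _ => ?_) fun _ _ => rfl
    have e0 := orb_reg K0
    have e1 := orb_reg K
    have hYpos : 0 < Nat.card Y := Nat.card_pos
    constructor
    · intro h
      rw [h] at e1
      rw [hK0] at e0
      have hn : 0 < n := hK0 ▸ Nat.card_pos
      exact Nat.eq_of_mul_eq_mul_right hn (e1.trans e0.symm)
    · intro h
      rw [h] at e1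
      have hpos : 0 < orb (Ω := Y) K0 := by
        rcases Nat.eq_zero_or_pos (orb (Ω := Y) K0) with h' | h'
        · rw [h', zero_mul] at e0
          omega
        · exact h'
      have := Nat.eq_of_mul_eq_mul_left hpos (e1.trans e0.symm)
      rw [this, hK0]
  · rw [Finset.filter_false_of_mem (fun K _ hK => hex ⟨K, hK⟩), Finset.sum_empty]

theorem r2 (n : ℕ) (ih : ∀ (K : Type) [Group K] [Finite K], Nat.card K < n → KRC p K)
    (Y : Type) [Group Y] [Finite Y] (hY : commutator Y = ⊤) [Fintype (Subgroup Y)] :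
    ∑ K ∈ Finset.univ.filter (fun K : Subgroup Y => Nat.card K = n), err p K = 0 := by
  obtain ⟨g, hg⟩ := exists_mob (fun x : Subgroup Y => (Nat.card x : ℚ) * err p x)
  have h1 := r1 p H Y hY g hg n
  have h2 : ∀ K ∈ Finset.univ.filter (fun K : Subgroup Y => Nat.card K = n),
      g K = (n : ℚ) * err p K := by
    intro K hK
    have hn : Nat.card K = n := (Finset.mem_filter.mp hK).2
    have h4 := mob_eq _ g hg K (fun y hy => by
      have h5 : Nat.card y < n := by
        rw [← hn]
        rcases lt_or_ge (Nat.card y) (Nat.card K) with h | h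
        · exact h
        · exact absurd (Subgroup.eq_of_le_of_card_ge hy.le h) hy.ne
      have h6 := ih y h5
      rw [krc_iff] at h6
      show (Nat.card y : ℚ) * err p y = 0
      rw [h6, mul_zero])
    rw [h4]
    show (Nat.card K : ℚ) * err p K = _
    rw [hn]
  rw [Finset.sum_congr rfl h2, ← Finset.mul_sum] at h1
  rcases Nat.eq_zero_or_pos n with h0 | h0
  · rw [Finset.filter_false_of_mem, Finset.sum_empty]
    intro K _ hK
    have : 0 < Nat.card K := Nat.card_pos
    omega
  · refine (mul_eq_zero.mp h1).resolve_left ?_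
    positivity

theorem r3 (n : ℕ) (ih : ∀ (K : Type) [Group K] [Finite K], Nat.card K < n → KRC p K)
    (N Ω : Type) [Group N] [Finite N] [MulAction N Ω] [Finite Ω] (hN : commutator N = ⊤)
    [Fintype (Subgroup N)] (c0 : ℕ) :
    ∑ K ∈ Finset.univ.filter (fun K : Subgroup N => Nat.card K = n ∧ orb (Ω := Ω) K = c0),
      err p K = 0 := by
  have key := coeff_of_primes (fun K : Subgroup N => if Nat.card K = n then err p K else 0)
    (fun K : Subgroup N => Nat.card Ω - orb (Ω := Ω) K) (Nat.card N + n) (fun l hl hM => ?_)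
    (Nat.card Ω - c0)
  · by_cases hc : c0 ≤ Nat.card Ω
    · rw [Finset.sum_filter] at key
      rw [Finset.sum_filter]
      refine Eq.trans (Finset.sum_congr rfl fun K _ => ?_) key
      have h1 := orb_le (Ω := Ω) K
      by_cases h2 : orb (Ω := Ω) K = c0
      · rw [if_pos (show Nat.card Ω - orb (Ω := Ω) K = Nat.card Ω - c0 by rw [h2])]
        by_cases h3 : Nat.card K = n
        · rw [if_pos ⟨h3, h2⟩, if_pos h3]
        · rw [if_neg (fun h => h3 h.1), if_neg h3]
      · rw [if_neg (fun h => h2 h.2), if_neg (show ¬ Nat.card Ω - orb (Ω := Ω) K =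
          Nat.card Ω - c0 by omega)]
    · rw [Finset.filter_false_of_mem, Finset.sum_empty]
      intro K _ hK
      have h1 := orb_le (Ω := Ω) K
      omega
  · have : Fact l.Prime := ⟨hl⟩
    have hfin := wr_finite (CY l) N Ω
    have hd : Nat.card N < l := by omega
    rcases Nat.eq_zero_or_pos n with h0 | h0
    · refine Finset.sum_eq_zero fun K _ => ?_
      have : 0 < Nat.card K := Nat.card_pos
      rw [if_neg (by omega), zero_mul]
    have hln : ¬ l ∣ n := fun h => absurd (Nat.le_of_dvd h0 h) (by omega)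
    have hD : commutator (commutator (WR (CY l) N Ω)) = ⊤ := comm_perfect l N Ω hN hd
    have i1 : Fintype (Subgroup (WR (CY l) N Ω)) := Fintype.ofFinite _
    have i2 : Fintype (Subgroup (commutator (WR (CY l) N Ω))) := Fintype.ofFinite _
    have h1 := r2 p H n ih (commutator (WR (CY l) N Ω)) hD
    have h2 := sum_sub (commutator (WR (CY l) N Ω)) n
      (fun K hK => le_comm l N Ω hN hd K (hK ▸ hln))
      (fun K => err p K) (fun K => err p K) (fun K K' ⟨e⟩ => err_congr p _ _ e)
    have h3 := sum_compl l N Ω n hln (fun K => err p K) (fun K => err p K)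
      (fun K K' ⟨e⟩ => err_congr p _ _ e)
    rw [h3, h1, Finset.sum_filter] at h2
    refine Eq.trans (Finset.sum_congr rfl fun K _ => ?_) h2
    by_cases hK : Nat.card K = n
    · rw [if_pos hK, if_pos hK]
      congr 1
      have h4 := compl_card l N Ω K (hK ▸ hln)
      have h5 : l ^ Nat.card Ω = l ^ (Nat.card Ω - orb (Ω := Ω) K) * l ^ orb (Ω := Ω) K := by
        rw [← pow_add, Nat.sub_add_cancel (orb_le (Ω := Ω) K)]
      rw [h5] at h4
      have h6 := Nat.eq_of_mul_eq_mul_right (pow_pos hl.pos _) h4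
      rw [h6]
      push_cast
      rfl
    · rw [if_neg hK, if_neg hK, zero_mul]

theorem krc_of_smaller2 (G : Type) [Group G] [Finite G]
    (ih : ∀ (K : Type) [Group K] [Finite K], Nat.card K < Nat.card G → KRC p K) : KRC p G := by
  obtain ⟨P, _, _, hP, hn⟩ := exists_alt (Nat.card G) Nat.card_pos
  let N := NN G P
  have hWfin : Finite (WR G P P) :=
    Finite.of_injective (fun x => (x.left, x.right)) (fun x y hxy =>
      SemidirectProduct.ext (congrArg Prod.fst hxy) (congrArg Prod.snd hxy))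
  have hN : commutator N = ⊤ := nn_perfect G P hP
  have hc : ∀ g : G, (SemidirectProduct.inl (fun _ : P => g) : WR G P P) ∈ N :=
    const_mem G P hn
  -- the actions
  let T := Nat.card N + Nat.card (G × P) + 1
  let i1 : MulAction N P := @Subgroup.instMulAction _ _ _ (actP G P) N
  let i2 : MulAction N (G × P) := @Subgroup.instMulAction _ _ _ (actGP G P) N
  let i3 : MulAction N ((G × P) × Fin T) := copyAct N (G × P) (Fin T)
  let i4 : MulAction N (P × Fin (T ^ 2)) := copyAct N P (Fin (T ^ 2))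
  let i5 : MulAction N (((G × P) × Fin T) ⊕ (P × Fin (T ^ 2))) := inferInstance
  let i6 : MulAction N (N ⊕ (((G × P) × Fin T) ⊕ (P × Fin (T ^ 2)))) := inferInstance
  let Ω := N ⊕ (((G × P) × Fin T) ⊕ (P × Fin (T ^ 2)))
  have hΩ : ∀ K : Subgroup N, orb (Ω := N ⊕ (((G × P) × Fin T) ⊕ (P × Fin (T ^ 2)))) K =
      orb (Ω := N) K + (@orb N (G × P) _ i2 K * T + @orb N P _ i1 K * T ^ 2) := by
    intro K
    rw [orb_sum, orb_sum]
    congr 2
    · exact orb_copy K T
    · exact orb_copy K (T ^ 2)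
  have : Fintype (Subgroup N) := Fintype.ofFinite _
  -- the diagonal
  let D : Subgroup N := Subgroup.subgroupOf (MonoidHom.range
    ((SemidirectProduct.inl : (P → G) →* WR G P P).comp (Pi.constMonoidHom P G))) N
  have hD : ∀ x : N, x ∈ D ↔
      ∃ g : G, (x : WR G P P) = SemidirectProduct.inl (fun _ : P => g) := by
    intro x
    rw [Subgroup.mem_subgroupOf, MonoidHom.mem_range]
    constructor
    · rintro ⟨g, hg⟩
      exact ⟨g, hg.symm⟩
    · rintro ⟨g, hg⟩
      exact ⟨g, hg.symm⟩
  have hcD : Nat.card D = Nat.card G := by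
    let f : G → D := fun g => ⟨⟨SemidirectProduct.inl (fun _ : P => g), hc g⟩,
      (hD _).mpr ⟨g, rfl⟩⟩
    have hf : Function.Bijective f := by
      constructor
      · intro a b hab
        have h1 : (SemidirectProduct.inl (fun _ : P => a) : WR G P P) =
            SemidirectProduct.inl (fun _ : P => b) :=
          congrArg (fun x : D => ((x : N) : WR G P P)) hab
        exact congrFun (SemidirectProduct.inl_injective h1) 1
      · intro x
        obtain ⟨g, hg⟩ := (hD x.1).mp x.2
        exact ⟨g, Subtype.ext (Subtype.ext hg.symm)⟩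
    exact (Nat.card_congr (Equiv.ofBijective f hf)).symm
  obtain ⟨hD1, hD2⟩ := orb_diag G P N D hc hD
  have key := r3 p H (Nat.card G) ih N (N ⊕ (((G × P) × Fin T) ⊕ (P × Fin (T ^ 2)))) hN
    (orb (Ω := N ⊕ (((G × P) × Fin T) ⊕ (P × Fin (T ^ 2)))) D)
  have hK : ∀ K ∈ Finset.univ.filter (fun K : Subgroup N => Nat.card K = Nat.card G ∧
      orb (Ω := N ⊕ (((G × P) × Fin T) ⊕ (P × Fin (T ^ 2)))) K =
      orb (Ω := N ⊕ (((G × P) × Fin T) ⊕ (P × Fin (T ^ 2)))) D),
      err p K = err p G := by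
    intro K hK
    obtain ⟨h3, h1⟩ := (Finset.mem_filter.mp hK).2
    rw [hΩ, hΩ] at h1
    have ha : orb (Ω := N) K < T := lt_of_le_of_lt (orb_le (Ω := N) K) (by
      simp only [T]; omega)
    have ha' : orb (Ω := N) D < T := lt_of_le_of_lt (orb_le (Ω := N) D) (by
      simp only [T]; omega)
    have hv : @orb N (G × P) _ i2 K < T := lt_of_le_of_lt (orb_le (Ω := G × P) K) (by
      simp only [T]; omega)
    have hv' : @orb N (G × P) _ i2 D < T := lt_of_le_of_lt (orb_le (Ω := G × P) D) (by
      simp only [T]; omega)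
    have h2 : orb (Ω := N) K = orb (Ω := N) D ∧ @orb N (G × P) _ i2 K = @orb N (G × P) _ i2 D ∧
        @orb N P _ i1 K = @orb N P _ i1 D :=
      digits3 T _ _ _ _ _ _ h1 ha ha' hv hv'
    obtain ⟨e1, e2, e3⟩ := h2
    obtain ⟨e⟩ := iso_of_orb G P N K h3 (e3.trans hD1) (e2.trans hD2)
    exact err_congr p _ _ e
  rw [Finset.sum_congr rfl hK, Finset.sum_const, nsmul_eq_mul] at key
  rw [krc_iff]
  have h7 : (Finset.univ.filter (fun K : Subgroup N => Nat.card K = Nat.card G ∧
      orb (Ω := N ⊕ (((G × P) × Fin T) ⊕ (P × Fin (T ^ 2)))) K =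
      orb (Ω := N ⊕ (((G × P) × Fin T) ⊕ (P × Fin (T ^ 2)))) D)).card ≠ 0 :=
    Finset.card_ne_zero_of_mem (a := D) (Finset.mem_filter.mpr ⟨Finset.mem_univ _, hcD, rfl⟩)
  have h9 : ((Finset.univ.filter (fun K : Subgroup N => Nat.card K = Nat.card G ∧
      orb (Ω := N ⊕ (((G × P) × Fin T) ⊕ (P × Fin (T ^ 2)))) K =
      orb (Ω := N ⊕ (((G × P) × Fin T) ⊕ (P × Fin (T ^ 2)))) D)).card : ℚ) ≠ 0 :=
    Nat.cast_ne_zero.mpr h7
  exact (mul_eq_zero.mp key).resolve_left h9

theorem krc_all2 (G : Type) [Group G] [Finite G] : KRC p G := by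
  have h : ∀ n : ℕ, ∀ (G : Type) [Group G] [Finite G], Nat.card G = n → KRC p G := by
    intro n
    induction n using Nat.strong_induction_on with
    | _ n ih =>
      intro G _ _ hG
      exact krc_of_smaller2 p H G (fun K _ _ hK => ih (Nat.card K) (hG ▸ hK) K rfl)
  exact h _ G rfl

end

end Pool.Agent.H373.KR
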