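import Mathlib

/-!
# Groups with a unique minimal normal subgroup, a direct power of a given group
-/

set_option autoImplicit false

namespace Pool.Agent.H373.KR

/-- `X` has a normal subgroup `N` which is isomorphic to a direct power `S ^ ι` (`ι` finite and not
empty) of `S` and is contained in all nontrivial normal subgroups of `X`. -/
def SoclePower (S X : Type) [Group S] [Group X] : Prop :=
  ∃ N : Subgroup X, N.Normal ∧ (∀ M : Subgroup X, M.Normal → M ≠ ⊥ → N ≤ M) ∧
    ∃ (ι : Type) (_ : Finite ι) (_ : Nonempty ι), Nonempty (N ≃* (ι → S))

end Pool.Agent.H373.KR
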