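import Pool.Agent.H373.KR.L2
import Pool.Agent.H373.KR.LT

/-!
# Wreath products with a unique minimal normal subgroup
-/

set_option autoImplicit false

open scoped Classical

noncomputable section

namespace Pool.Agent.H373.KR

section

variable (S : Type) [Group S]

theorem socle_self [IsSimpleGroup S] : SoclePower S S := by
  refine ⟨⊤, inferInstance, fun M hM hne => ?_, Unit, inferInstance, inferInstance,
    ⟨(Subgroup.topEquiv (G := S)).trans (MulEquiv.funUnique Unit S).symm⟩⟩
  rcases IsSimpleGroup.eq_bot_or_eq_top_of_normal M hM with h | h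
  · exact absurd h hne
  · exact h.ge

theorem h738_pi {X : Type} [Group X] {ι : Type} [Nonempty ι] (hS : ∃ a b : S, a * b ≠ b * a)
    (e : X ≃* (ι → S)) : ∃ x y : X, x * y ≠ y * x := by
  obtain ⟨a, b, hab⟩ := hS
  refine ⟨e.symm fun _ => a, e.symm fun _ => b, fun h => hab ?_⟩
  rw [← map_mul, ← map_mul] at h
  have h1 := e.symm.injective h
  obtain ⟨i⟩ := ‹Nonempty ι›
  exact congrFun h1 i

theorem socle_center (hS : ∃ a b : S, a * b ≠ b * a) (T : Type) [Group T]
    (h : SoclePower S T) : Subgroup.center T = ⊥ := by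
  obtain ⟨N, hN, hmin, ι, hfin, hne, ⟨e⟩⟩ := h
  by_contra hc
  have hle : N ≤ Subgroup.center T := hmin _ inferInstance hc
  obtain ⟨x, y, hxy⟩ := h738_pi S hS e
  apply hxy
  apply Subtype.ext
  rw [Subgroup.coe_mul, Subgroup.coe_mul]
  exact (Subgroup.mem_center_iff.1 (hle x.2) y).symm

theorem socle_nontrivial (hS : ∃ a b : S, a * b ≠ b * a) (T : Type) [Group T]
    (h : SoclePower S T) : Nontrivial T := by
  obtain ⟨N, hN, hmin, ι, hfin, hne, ⟨e⟩⟩ := h
  obtain ⟨x, y, hxy⟩ := h738_pi S hS e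
  refine ⟨⟨((x * y : N) : T), ((y * x : N) : T), fun h => hxy (Subtype.ext h)⟩⟩

/-- the subgroup `VV` is a power of the subgroup -/
def h738_vvEquiv (T A Ω : Type) [Group T] [Group A] [MulAction A Ω] (N : Subgroup T) :
    VV T A Ω N ≃* (Ω → N) where
  toFun x ω := ⟨x.1.left ω, x.2.2 ω⟩
  invFun f := ⟨(⟨fun ω => (f ω : T), 1⟩ : WR T A Ω), ⟨rfl, fun ω => (f ω).2⟩⟩
  left_inv x := Subtype.ext (SemidirectProduct.ext rfl x.2.1.symm)
  right_inv f := rfl
  map_mul' x y := by
    funext ω
    apply Subtype.ext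
    change ((x : WR T A Ω) * (y : WR T A Ω)).left ω =
      (x : WR T A Ω).left ω * (y : WR T A Ω).left ω
    rw [h862_mul_left, x.2.1, inv_one, one_smul]

/-- currying -/
def h738_curry (G Ω ι : Type) [Group G] : (Ω → ι → G) ≃* (Ω × ι → G) where
  toFun f p := f p.1 p.2
  invFun g ω i := g (ω, i)
  left_inv _ := rfl
  right_inv _ := rfl
  map_mul' _ _ := rfl

theorem socle_wr (hS : ∃ a b : S, a * b ≠ b * a) (T A Ω : Type) [Group T] [Group A]
    [MulAction A Ω] [Finite Ω] [Nonempty Ω]
    (h : SoclePower S T) (hf : ∀ a : A, (∀ ω : Ω, a • ω = ω) → a = 1)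
    (ht : ∀ ω ω' : Ω, ∃ a : A, a • ω = ω') : SoclePower S (WR T A Ω) := by
  have hZ := socle_center S hS T h
  have hT := socle_nontrivial S hS T h
  obtain ⟨N, hN, hmin, ι, hfin, hne, ⟨e⟩⟩ := h
  exact ⟨VV T A Ω N, vv_normal T A Ω N hN, vv_min T A Ω N hmin hZ hT hf ht, Ω × ι, inferInstance,
    inferInstance, ⟨((h738_vvEquiv T A Ω N).trans
      (MulEquiv.piCongrRight fun _ : Ω => e)).trans (h738_curry _ Ω ι)⟩⟩

open scoped commutatorElement in
/-- a simple group which is not abelian is perfect -/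
theorem simple_perfect [IsSimpleGroup S] (hS : ∃ a b : S, a * b ≠ b * a) : commutator S = ⊤ := by
  rcases IsSimpleGroup.eq_bot_or_eq_top_of_normal (commutator S) inferInstance with h | h
  · exfalso
    obtain ⟨a, b, hab⟩ := hS
    have h1 : ⁅a, b⁆ ∈ commutator S := by
      rw [commutator_def]
      exact Subgroup.commutator_mem_commutator (Subgroup.mem_top a) (Subgroup.mem_top b)
    rw [h, Subgroup.mem_bot, commutatorElement_eq_one_iff_mul_comm] at h1
    exact hab h1
  · exact h

end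

end Pool.Agent.H373.KR
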