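import Mathlib

set_option autoImplicit false

namespace Pool.Agent.H373.KR

set_option maxRecDepth 100000 in
theorem h21_card : Fintype.card (alternatingGroup (Fin 5)) = 60 := by decide +kernel

set_option maxRecDepth 100000 in
theorem h21_comm : Fintype.card {p : alternatingGroup (Fin 5) × alternatingGroup (Fin 5) //
    p.1 * p.2 = p.2 * p.1} = 300 := by decide +kernel

theorem h21_comm' : Nat.card {p : alternatingGroup (Fin 5) × alternatingGroup (Fin 5) //
    Commute p.1 p.2} = 300 := by
  have h : Nat.card {p : alternatingGroup (Fin 5) × alternatingGroup (Fin 5) //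
    p.1 * p.2 = p.2 * p.1} = 300 := by
    rw [Nat.card_eq_fintype_card]
    exact h21_comm
  exact h

theorem h21_card' : Nat.card (alternatingGroup (Fin 5)) = 60 := by
  rw [Nat.card_eq_fintype_card]
  exact h21_card

open scoped Classical

/-- `A_5` has five conjugacy classes (there are 300 commuting pairs) -/
theorem a5_classes : Nat.card (ConjClasses (alternatingGroup (Fin 5))) = 5 := by
  have h := card_comm_eq_card_conjClasses_mul_card (alternatingGroup (Fin 5))
  rw [h21_comm', h21_card'] at h
  omega

end Pool.Agent.H373.KR
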