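import Mathlib

set_option autoImplicit false

namespace Pool.Agent.H373.KR

/-- the boolean check -/
def h103_chk (a b c d e : ℕ) : Bool :=
  (a == 0 || b == 0 || c == 0 || d == 0 || e == 0) ||
  !(a * a + b * b + c * c + d * d + e * e == 60) ||
  ((a == 1 && b == 1) || (a == 1 && c == 1) || (a == 1 && d == 1) || (a == 1 && e == 1) ||
    (b == 1 && c == 1) || (b == 1 && d == 1) || (b == 1 && e == 1) ||
    (c == 1 && d == 1) || (c == 1 && e == 1) || (d == 1 && e == 1)) ||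
  ((a == 3 || b == 3 || c == 3 || d == 3 || e == 3) &&
    (a == 4 || b == 4 || c == 4 || d == 4 || e == 4) &&
    (a == 5 || b == 5 || c == 5 || d == 5 || e == 5))

theorem h103_key : ∀ a b c d e : Fin 8, h103_chk a b c d e = true := by
  decide +kernel

/-- the degrees: five positive integers `d i`, divisors of `60`, with `∑ d² = 60` and only one of them
equal to `1`, are `1, 3, 3, 4, 5`; only the following is needed -/
theorem five_degrees (ι : Type) [Fintype ι] (hc : Fintype.card ι = 5) (d : ι → ℕ)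
    (hd : ∀ i, d i ∣ 60) (hs : ∑ i, d i ^ 2 = 60) (i0 : ι) (h1 : ∀ i, d i = 1 → i = i0) :
    (∃ i, d i = 3) ∧ (∃ i, d i = 4) ∧ ∃ i, d i = 5 := by
  classical
  have e : ι ≃ Fin 5 := Fintype.equivFinOfCardEq hc
  set f : Fin 5 → ℕ := fun j => d (e.symm j) with hf
  have hsum : ∑ j, f j ^ 2 = 60 := by
    rw [← hs]
    exact (Equiv.sum_comp e.symm (fun i => d i ^ 2))
  have hpos : ∀ j, 0 < f j := fun j => Nat.pos_of_dvd_of_pos (hd _) (by norm_num)
  have hle : ∀ j, f j < 8 := by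
    intro j
    have h : f j ^ 2 ≤ ∑ j, f j ^ 2 := Finset.single_le_sum (f := fun j => f j ^ 2)
      (fun i _ => Nat.zero_le _) (Finset.mem_univ j)
    rw [hsum] at h
    nlinarith
  have hone : ∀ j j', f j = 1 → f j' = 1 → j = j' := by
    intro j j' h h'
    have h2 := (h1 _ h).trans (h1 _ h').symm
    exact e.symm.injective h2
  have hk := h103_key ⟨f 0, hle 0⟩ ⟨f 1, hle 1⟩ ⟨f 2, hle 2⟩ ⟨f 3, hle 3⟩ ⟨f 4, hle 4⟩
  rw [Fin.sum_univ_five] at hsum
  have p0 := hpos 0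
  have p1 := hpos 1
  have p2 := hpos 2
  have p3 := hpos 3
  have p4 := hpos 4
  have q01 : f 0 = 1 → f 1 = 1 → False := fun h h' => absurd (hone 0 1 h h') (by decide)
  have q02 : f 0 = 1 → f 2 = 1 → False := fun h h' => absurd (hone 0 2 h h') (by decide)
  have q03 : f 0 = 1 → f 3 = 1 → False := fun h h' => absurd (hone 0 3 h h') (by decide)
  have q04 : f 0 = 1 → f 4 = 1 → False := fun h h' => absurd (hone 0 4 h h') (by decide)
  have q12 : f 1 = 1 → f 2 = 1 → False := fun h h' => absurd (hone 1 2 h h') (by decide)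
  have q13 : f 1 = 1 → f 3 = 1 → False := fun h h' => absurd (hone 1 3 h h') (by decide)
  have q14 : f 1 = 1 → f 4 = 1 → False := fun h h' => absurd (hone 1 4 h h') (by decide)
  have q23 : f 2 = 1 → f 3 = 1 → False := fun h h' => absurd (hone 2 3 h h') (by decide)
  have q24 : f 2 = 1 → f 4 = 1 → False := fun h h' => absurd (hone 2 4 h h') (by decide)
  have q34 : f 3 = 1 → f 4 = 1 → False := fun h h' => absurd (hone 3 4 h h') (by decide)
  have hsum' : f 0 * f 0 + f 1 * f 1 + f 2 * f 2 + f 3 * f 3 + f 4 * f 4 = 60 := by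
    rw [← hsum]; ring
  unfold h103_chk at hk
  simp only [Bool.or_eq_true, Bool.and_eq_true, beq_iff_eq, Bool.not_eq_true', beq_eq_false_iff_ne,
    ne_eq] at hk
  have hex : ∀ k : ℕ, (∃ j, f j = k) → ∃ i, d i = k := fun k ⟨j, hj⟩ => ⟨e.symm j, hj⟩
  have key : (f 0 = 3 ∨ f 1 = 3 ∨ f 2 = 3 ∨ f 3 = 3 ∨ f 4 = 3) ∧
      (f 0 = 4 ∨ f 1 = 4 ∨ f 2 = 4 ∨ f 3 = 4 ∨ f 4 = 4) ∧
      (f 0 = 5 ∨ f 1 = 5 ∨ f 2 = 5 ∨ f 3 = 5 ∨ f 4 = 5) := by
    rcases hk with ((h | h) | h) | h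
    · omega
    · exact absurd hsum' h
    · rcases h with (((((((((h | h) | h) | h) | h) | h) | h) | h) | h) | h)
      · exact (q01 h.1 h.2).elim
      · exact (q02 h.1 h.2).elim
      · exact (q03 h.1 h.2).elim
      · exact (q04 h.1 h.2).elim
      · exact (q12 h.1 h.2).elim
      · exact (q13 h.1 h.2).elim
      · exact (q14 h.1 h.2).elim
      · exact (q23 h.1 h.2).elim
      · exact (q24 h.1 h.2).elim
      · exact (q34 h.1 h.2).elim
    · obtain ⟨⟨h3, h4⟩, h5⟩ := h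
      simp only [or_assoc] at h3 h4 h5
      exact ⟨h3, h4, h5⟩
  have fin5 : ∀ k : ℕ, (f 0 = k ∨ f 1 = k ∨ f 2 = k ∨ f 3 = k ∨ f 4 = k) → ∃ j, f j = k := by
    rintro k (h | h | h | h | h)
    exacts [⟨0, h⟩, ⟨1, h⟩, ⟨2, h⟩, ⟨3, h⟩, ⟨4, h⟩]
  exact ⟨hex 3 (fin5 3 key.1), hex 4 (fin5 4 key.2.1), hex 5 (fin5 5 key.2.2)⟩

end Pool.Agent.H373.KR
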