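import Pool.Agent.H373.KR.L4
import Pool.Agent.H373.KR.M1
import Pool.Agent.H373.KR.M2

/-!
# `A_5` has a character of `p`-defect zero for each prime `p`
-/

set_option autoImplicit false

open scoped Classical

noncomputable section

namespace Pool.Agent.H373.KR

open Pool.Agent.Y63.KR (chi2 KRC dg dg_spec)
open Pool.Agent.Y63.AWC (IsIrreducibleCharacter numDefectZero)
open Pool.Agent.Results.MP_b6945b_al.WreathProducts (err Wr Cy Dz Sf err_def)
open Pool.Agent.Helper884.IC (Irr mem_Irr IsIrrChar IsClass B expand)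

theorem sum_dg_sq (G : Type) [Group G] [Fintype G] : ∑ chi ∈ Irr G, dg chi ^ 2 = Nat.card G := by
  let f : G → ℂ := fun g => if g = 1 then 1 else 0
  have hf : IsClass f := by
    intro g y
    show (if y * g * y⁻¹ = 1 then (1 : ℂ) else 0) = if g = 1 then 1 else 0
    congr 1
    simp only [eq_iff_iff]
    constructor
    · intro h
      have : g = y⁻¹ * (y * g * y⁻¹) * y := by group
      rw [this, h]
      group
    · rintro rfl
      group
  have hB : ∀ chi : G → ℂ, B f chi = (Nat.card G : ℂ)⁻¹ * chi 1 := by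
    intro chi
    unfold B
    congr 1
    rw [Finset.sum_eq_single 1]
    · show (if (1 : G) = 1 then (1 : ℂ) else 0) * chi 1⁻¹ = _
      rw [if_pos rfl, one_mul, inv_one]
    · intro b _ hb
      show (if b = 1 then (1 : ℂ) else 0) * chi b⁻¹ = 0
      rw [if_neg hb, zero_mul]
    · intro h
      exact absurd (Finset.mem_univ _) h
  have h1 := congrFun (expand f hf) 1
  rw [Finset.sum_apply] at h1
  have h2 : f 1 = 1 := if_pos rfl
  rw [h2] at h1
  have h3 : (Nat.card G : ℂ) ≠ 0 := by
    have : 0 < Nat.card G := Nat.card_pos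
    exact_mod_cast this.ne'
  have h4 : (Nat.card G : ℂ) = ∑ chi ∈ Irr G, ((dg chi ^ 2 : ℕ) : ℂ) := by
    have h5 : (Nat.card G : ℂ) = (Nat.card G : ℂ) * ∑ chi ∈ Irr G, (B f chi • chi) 1 := by
      rw [← h1, mul_one]
    rw [h5, Finset.mul_sum]
    refine Finset.sum_congr rfl fun chi hchi => ?_
    rw [hB, Pi.smul_apply, smul_eq_mul, (dg_spec (mem_Irr.mp hchi)).1]
    push_cast
    field_simp
  have h6 : ((∑ chi ∈ Irr G, dg chi ^ 2 : ℕ) : ℂ) = (Nat.card G : ℂ) := by
    rw [h4]
    push_cast
    rfl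
  exact_mod_cast h6

/-- the only linear character of a perfect group is the trivial one -/
theorem linear_triv (G : Type) [Group G] [Fintype G] (hG : commutator G = ⊤) (chi : G → ℂ)
    (h : IsIrrChar chi) (h1 : dg chi = 1) : chi = fun _ => 1 := by
  have h2 := (dg_spec h).1
  rw [h1] at h2
  obtain ⟨V, _, _, _, rho, hr, rfl⟩ := h
  have h3 : Module.finrank ℂ V = 1 := by
    have h4 : rho.character 1 = (Module.finrank ℂ V : ℂ) := rho.char_one
    rw [h4] at h2
    exact_mod_cast h2
  obtain ⟨v, hv, hspan⟩ := finrank_eq_one_iff'.mp h3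
  have hcomm : ∀ a b : V →ₗ[ℂ] V, a * b = b * a := by
    intro a b
    obtain ⟨x, hx⟩ := hspan (a v)
    obtain ⟨y, hy⟩ := hspan (b v)
    ext w
    obtain ⟨c, rfl⟩ := hspan w
    show a (b (c • v)) = b (a (c • v))
    rw [map_smul, map_smul, map_smul, map_smul, ← hx, ← hy, map_smul, map_smul, ← hx, ← hy,
      smul_comm x y]
  have hker : commutator G ≤ MonoidHom.ker rho := by
    rw [commutator_def, Subgroup.commutator_le]
    intro x _ y _
    rw [MonoidHom.mem_ker, commutatorElement_def, map_mul, map_mul, map_mul,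
      hcomm (rho x) (rho y), mul_assoc (rho y), ← map_mul, mul_inv_cancel, map_one, mul_one,
      ← map_mul, mul_inv_cancel, map_one]
  funext g
  have hg : rho g = 1 := hker (hG ▸ Subgroup.mem_top g)
  have h5 : rho.character g = rho.character 1 := by
    have h6 : rho g = rho 1 := by rw [hg, map_one]
    unfold Representation.character
    exact congrArg (LinearMap.trace ℂ V) h6
  rw [h5, h2]
  norm_num

theorem a5_dz (p : ℕ) [Fact p.Prime] : Nonempty (Dz p A5) := by
  have hfin : Fintype A5 := Fintype.ofFinite _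
  by_cases hp : p ∣ 60
  · have h5 : Fintype.card (Irr A5) = 5 := by
      have e1 : Nat.card (ConjClasses A5) = (Irr A5).card := by
        rw [← Pool.Agent.Y63.KR.surfaceCount_one,
          show (1 : ℕ) = 0 + 1 from rfl, Pool.Agent.Y63.KR.surfaceCount_eq]
        unfold Pool.Agent.Y63.KR.zsum
        simp
      exact (Fintype.card_coe (Irr A5)).trans (e1.symm.trans a5_classes)
    have hdiv : ∀ i : Irr A5, dg i.1 ∣ 60 := by
      intro i
      have h := Pool.Agent.Y63.AWC.deg_dvd (mem_Irr.mp i.2) (dg_spec (mem_Irr.mp i.2)).1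
      rwa [a5_card] at h
    have hsum : ∑ i : Irr A5, dg i.1 ^ 2 = 60 := by
      rw [Finset.sum_coe_sort (Irr A5) (fun chi => dg chi ^ 2), sum_dg_sq, a5_card]
    have hone : ∃ i0 : Irr A5, ∀ i : Irr A5, dg i.1 = 1 → i = i0 := by
      by_cases hex : ∃ i0 : Irr A5, dg i0.1 = 1
      · obtain ⟨i0, h0⟩ := hex
        refine ⟨i0, fun i hi => Subtype.ext ?_⟩
        rw [linear_triv A5 a5_perfect i.1 (mem_Irr.mp i.2) hi,
          linear_triv A5 a5_perfect i0.1 (mem_Irr.mp i0.2) h0]
      · have hne : Nonempty (Irr A5) := Fintype.card_pos_iff.mp (by rw [h5]; norm_num)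
        exact ⟨hne.some, fun i hi => absurd ⟨i, hi⟩ hex⟩
    obtain ⟨i0, hi0⟩ := hone
    obtain ⟨⟨a, ha⟩, ⟨b, hb⟩, ⟨c, hc⟩⟩ :=
      five_degrees (Irr A5) h5 (fun i => dg i.1) hdiv hsum i0 hi0
    have mk : ∀ (i : Irr A5), (dg i.1).factorization p = (60 : ℕ).factorization p →
        Nonempty (Dz p A5) := fun i hi =>
      ⟨⟨i.1, mem_Irr.mp i.2, dg i.1, (dg_spec (mem_Irr.mp i.2)).1, by rw [a5_card]; exact hi⟩⟩
    have hpp : p.Prime := Fact.out
    have h60 : p = 2 ∨ p = 3 ∨ p = 5 := by
      have h1 : p ∣ 2 * 2 * 3 * 5 := by norm_num; exact hp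
      rcases hpp.dvd_mul.mp h1 with h1 | h1
      · rcases hpp.dvd_mul.mp h1 with h1 | h1
        · rcases hpp.dvd_mul.mp h1 with h1 | h1
          · exact Or.inl ((Nat.prime_dvd_prime_iff_eq hpp Nat.prime_two).mp h1)
          · exact Or.inl ((Nat.prime_dvd_prime_iff_eq hpp Nat.prime_two).mp h1)
        · exact Or.inr (Or.inl ((Nat.prime_dvd_prime_iff_eq hpp Nat.prime_three).mp h1))
      · exact Or.inr (Or.inr ((Nat.prime_dvd_prime_iff_eq hpp Nat.prime_five).mp h1))
    have e60 : (60 : ℕ) = 2 ^ 2 * 15 := by norm_num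
    rcases h60 with rfl | rfl | rfl
    · refine mk b ?_
      rw [hb]
      simp only [Nat.factorization_def _ Nat.prime_two]
      have v1 : padicValNat 2 4 = 2 := by
        rw [show (4 : ℕ) = 2 ^ 2 by norm_num]
        exact padicValNat.prime_pow 2
      have v2 : padicValNat 2 60 = 2 := by
        rw [show (60 : ℕ) = 2 ^ 2 * 15 by norm_num, padicValNat.mul (by norm_num) (by norm_num),
          padicValNat.prime_pow, padicValNat.eq_zero_of_not_dvd (by norm_num)]
      rw [v1, v2]
    · refine mk a ?_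
      rw [ha]
      simp only [Nat.factorization_def _ Nat.prime_three]
      have v1 : padicValNat 3 3 = 1 := by
        exact padicValNat.self (by norm_num)
      have v2 : padicValNat 3 60 = 1 := by
        rw [show (60 : ℕ) = 3 * 20 by norm_num, padicValNat.mul (by norm_num) (by norm_num),
          padicValNat.self (by norm_num), padicValNat.eq_zero_of_not_dvd (by norm_num)]
      rw [v1, v2]
    · refine mk c ?_
      rw [hc]
      simp only [Nat.factorization_def _ Nat.prime_five]
      have v1 : padicValNat 5 5 = 1 := by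
        exact padicValNat.self (by norm_num)
      have v2 : padicValNat 5 60 = 1 := by
        rw [show (60 : ℕ) = 5 * 12 by norm_num, padicValNat.mul (by norm_num) (by norm_num),
          padicValNat.self (by norm_num), padicValNat.eq_zero_of_not_dvd (by norm_num)]
      rw [v1, v2]
  · have h1 : ¬ p ∣ Nat.card A5 := by rwa [a5_card]
    have h2 : Nat.card (Dz p A5) = numDefectZero p A5 := rfl
    rw [numDz_coprime p A5 h1, a5_classes] at h2
    have : Finite (Dz p A5) := dz_finite p A5
    exact (Nat.card_pos_iff.mp (by rw [h2]; norm_num)).1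

/-- `z_p(T wr Y) ≥ z_p(Y)` if `T` has a character of defect zero -/
theorem z_ge (p : ℕ) [Fact p.Prime] (T Y : Type) [Group T] [Group Y] [Finite T] [Finite Y]
    (h : Nonempty (Dz p T)) : numDefectZero p Y ≤ numDefectZero p (WR T Y Y) := by
  obtain ⟨χ⟩ := h
  have h1 := z_wr p T Y Y
  have hfin : Finite (Dz p T) := dz_finite p T
  have : Fintype (Y → Dz p T) := Fintype.ofFinite _
  rw [finsum_eq_sum_of_fintype] at h1
  have h2 : (Nat.card (Sf (A := Y) (fun _ : Y => χ)) : ℤ) *
      (numDefectZero p (Sf (A := Y) (fun _ : Y => χ)) : ℤ) =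
      (Nat.card Y : ℤ) * (numDefectZero p Y : ℤ) := by
    have h3 : Sf (A := Y) (fun _ : Y => χ) = ⊤ := by
      rw [eq_top_iff]
      exact fun a _ ω => rfl
    rw [h3, Pool.Agent.Y63.AWC.numDefectZero_congr (Subgroup.topEquiv : (⊤ : Subgroup Y) ≃* Y),
      Subgroup.card_top]
  have h4 : (Nat.card Y : ℤ) * (numDefectZero p Y : ℤ) ≤
      (Nat.card Y : ℤ) * (numDefectZero p (Wr T Y Y) : ℤ) := by
    rw [h1, ← h2]
    exact Finset.single_le_sum (f := fun f : Y → Dz p T => (Nat.card (Sf (A := Y) f) : ℤ) *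
      (numDefectZero p (Sf (A := Y) f) : ℤ)) (fun f _ => by positivity) (Finset.mem_univ _)
  have h5 : (0 : ℤ) < Nat.card Y := by
    have : 0 < Nat.card Y := Nat.card_pos
    exact_mod_cast this
  exact_mod_cast le_of_mul_le_mul_left h4 h5

end Pool.Agent.H373.KR
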