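import Mathlib

/-!
# Primitive permutation groups
-/

set_option autoImplicit false

namespace Pool.Agent.H373.KR

/-- `X` is isomorphic to a primitive permutation group: it has a maximal subgroup with trivial core. -/
def Primitive (X : Type) [Group X] : Prop :=
  ∃ K : Subgroup X, IsCoatom K ∧ K.normalCore = ⊥

end Pool.Agent.H373.KR
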