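import Pool.Agent.H373.KR.LS
import Pool.Agent.H373.KR.LT
import Pool.Agent.H373.KR.LU

/-!
# Primitivity
-/

set_option autoImplicit false

open scoped Classical

noncomputable section

namespace Pool.Agent.H373.KR

/-- take `K = H`. `H ≠ ⊤` since otherwise `V = ⊥` and `C_X(V) = ⊤ = ⊥`. Maximal: if `H < K` then
`K ⊓ V` is normal in `X = V H` (`V` is abelian), so it is `⊥` (then `K = H`, as `k = v h` gives
`v ∈ K ⊓ V`) or contains `V` (then `K = ⊤`). The core of `H`, if not trivial, contains `V`. -/
theorem prim_affine (l : ℕ) (X : Type) [Group X] [Nontrivial X] (h : PrimAffine l X) :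
    Primitive X := by
  obtain ⟨V, H, hVn, -, hC, hmin, hinf, hsup⟩ := h
  have hV : V ≠ ⊥ := by
    intro h0
    have h1 : Subgroup.centralizer (V : Set X) = ⊤ := by
      rw [h0, eq_top_iff]
      intro g _
      rw [Subgroup.mem_centralizer_iff]
      intro k hk
      have hk1 : k = 1 := by
        rw [SetLike.mem_coe, Subgroup.mem_bot] at hk
        exact hk
      rw [hk1, one_mul, mul_one]
    rw [hC, h0] at h1
    exact bot_ne_top h1
  have hab : ∀ v ∈ V, ∀ w ∈ V, v * w = w * v := by
    intro v hv w hw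
    have h1 : w ∈ Subgroup.centralizer (V : Set X) := by
      rw [hC]
      exact hw
    exact Subgroup.mem_centralizer_iff.1 h1 v hv
  have hdec : ∀ g : X, ∃ v ∈ V, ∃ k ∈ H, v * k = g := by
    intro g
    have h1 : g ∈ ((V ⊔ H : Subgroup X) : Set X) := by
      rw [hsup]
      trivial
    rw [Subgroup.normal_mul, Set.mem_mul] at h1
    exact h1
  refine ⟨H, ⟨?_, ?_⟩, ?_⟩
  · intro h0
    rw [h0, inf_top_eq] at hinf
    exact hV hinf
  · intro K hK
    have hn : (K ⊓ V).Normal := by
      refine ⟨fun n hn g => ?_⟩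
      obtain ⟨v, hv, k, hk, rfl⟩ := hdec g
      have h1 : k * n * k⁻¹ ∈ K ⊓ V := by
        refine ⟨K.mul_mem (K.mul_mem (hK.le hk) hn.1) (K.inv_mem (hK.le hk)), ?_⟩
        exact hVn.conj_mem n hn.2 k
      have h2 : v * k * n * (v * k)⁻¹ = k * n * k⁻¹ := by
        have h3 := hab v hv _ h1.2
        calc v * k * n * (v * k)⁻¹ = (v * (k * n * k⁻¹)) * v⁻¹ := by group
          _ = ((k * n * k⁻¹) * v) * v⁻¹ := by rw [h3]
          _ = k * n * k⁻¹ := by group
      rw [h2]
      exact h1
    by_cases h0 : K ⊓ V = ⊥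
    · exfalso
      refine hK.not_ge fun g hg => ?_
      obtain ⟨v, hv, k, hk, rfl⟩ := hdec g
      have h1 : v ∈ K ⊓ V := by
        refine ⟨?_, hv⟩
        have h2 := K.mul_mem hg (K.inv_mem (hK.le hk))
        rwa [mul_inv_cancel_right] at h2
      rw [h0, Subgroup.mem_bot] at h1
      rw [h1, one_mul]
      exact hk
    · have h1 : V ≤ K := (hmin _ hn h0).trans inf_le_left
      rw [eq_top_iff, ← hsup]
      exact sup_le h1 hK.le
  · by_contra h0
    have h1 : V ≤ H := (hmin _ (Subgroup.normalCore_normal H) h0).trans (Subgroup.normalCore_le H)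
    rw [inf_eq_left.2 h1] at hinf
    exact hV hinf

/-- `N ≅ S ^ ι` is not solvable (`IsSimpleGroup.comm_iff_isSolvable`), so not contained in the Frattini
subgroup (`frattini_nilpotent`), so some maximal subgroup `K` does not contain `N`; its core is
trivial, otherwise it would contain `N` -/
theorem prim_socle (S : Type) [Group S] [IsSimpleGroup S] (hS : ∃ a b : S, a * b ≠ b * a)
    (X : Type) [Group X] [Finite X] (h : SoclePower S X) : Primitive X := by
  obtain ⟨N, hN, hmin, ι, hι, ⟨i⟩, ⟨e⟩⟩ := h
  have hnle : ¬ N ≤ frattini X := by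
    intro hle
    have hnil : Group.IsNilpotent (frattini X) := frattini_nilpotent
    have h1 : Group.IsSolvable (frattini X) := inferInstance
    have h2 : Group.IsSolvable N :=
      Group.isSolvable_of_isSolvable_injective (Subgroup.inclusion_injective hle)
    have h3 : Group.IsSolvable (ι → S) :=
      Group.isSolvable_of_surjective (f := e.toMonoidHom) e.surjective
    have h4 : Group.IsSolvable S :=
      Group.isSolvable_of_surjective (f := Pi.evalMonoidHom (fun _ : ι => S) i) (Function.surjective_eval i)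
    obtain ⟨a, b, hab⟩ := hS
    exact hab (IsSimpleGroup.comm_iff_isSolvable.2 h4 a b)
  obtain ⟨K, hK, hNK⟩ : ∃ K : Subgroup X, IsCoatom K ∧ ¬ N ≤ K := by
    by_contra hcon
    exact hnle (le_iInf₂ fun K hK => not_not.1 fun h1 => hcon ⟨K, hK, h1⟩)
  refine ⟨K, hK, ?_⟩
  by_contra hne
  exact hNK ((hmin _ K.normalCore_normal hne).trans K.normalCore_le)

end Pool.Agent.H373.KR
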