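import Pool.Agent.H373.KR.L8
import Pool.Agent.H373.KR.M6

/-!
# The Knörr-Robinson conjecture: two classes of perfect primitive groups (final form)
-/

set_option autoImplicit false

open scoped Classical

noncomputable section

namespace Pool.Agent.H373.KR

open Pool.Agent.Y63.KR (chi2 KRC)
open Pool.Agent.Y63.AWC (IsIrreducibleCharacter numDefectZero)
open Pool.Agent.Results.MP_b6945b_al.WreathProducts (err Wr Cy Dz Sf err_def)

theorem tl_nontrivial (p l : ℕ) [Fact p.Prime] [Fact l.Prime] (hne : l ≠ p) (h : 2060 < l) :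
    Nontrivial (TL l) := by
  have hXfin : Finite (WR (CY l) A5 (Fin 5)) := wr_finite _ _ _
  have hz : 1 < numDefectZero p (TL l) := z_unbounded p l 1 hne (by omega)
  by_contra hcon
  have hs : Subsingleton (TL l) := not_nontrivial_iff_subsingleton.mp hcon
  have h1 : Nat.card (TL l) = 1 := Nat.card_unique
  have h2 : ¬ p ∣ Nat.card (TL l) := by
    rw [h1]
    exact (Fact.out : p.Prime).one_lt.ne' ∘ Nat.dvd_one.mp
  rw [numDz_coprime p _ h2] at hz
  have h3 : Nat.card (ConjClasses (TL l)) ≤ Nat.card (TL l) :=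
    Nat.card_le_card_of_surjective _ ConjClasses.mk_surjective
  omega

theorem regular_act (Z : Type) [Group Z] : (∀ a : Z, (∀ ω : Z, a • ω = ω) → a = 1) ∧
    ∀ a b : Z, ∃ c : Z, c • a = b := by
  refine ⟨fun a ha => ?_, fun a b => ⟨b * a⁻¹, ?_⟩⟩
  · have := ha 1
    rwa [smul_eq_mul, mul_one] at this
  · rw [smul_eq_mul, inv_mul_cancel_right]

/-- the affine class -/
theorem krc_all_affine (p : ℕ) [Fact p.Prime]
    (H : ∀ (X : Type) [Group X] [Finite X], commutator X = ⊤ → Primitive X →
      (∃ l : ℕ, l.Prime ∧ l ≠ p ∧ PrimAffine l X) → KRC p X)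
    (G : Type) [Group G] [Finite G] : KRC p G := by
  refine krc_all3 p (fun Y _ _ hY _ g hg n => r1_gen p Y (fun B => ?_) g hg n) G
  obtain ⟨l, hl, hlp⟩ := Nat.exists_infinite_primes (2000 * B + 2061 + p)
  have : Fact l.Prime := ⟨hlp⟩
  have hne : l ≠ p := by omega
  have h60 : 60 < l := by omega
  have hXfin : Finite (WR (CY l) A5 (Fin 5)) := wr_finite _ _ _
  have hT : commutator (TL l) = ⊤ :=
    comm_perfect l A5 (Fin 5) a5_perfect (by rw [a5_card]; exact h60)
  have hnt : Nontrivial (TL l) := tl_nontrivial p l hne (by omega)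
  have hPA : PrimAffine l (TL l) := pa_T l h60
  have hfin : Finite (WR (TL l) Y Y) := wr_finite _ _ _
  have hPA2 : PrimAffine l (WR (TL l) Y Y) :=
    pa_wr (TL l) Y Y l hPA hT hnt (regular_act Y).1 (regular_act Y).2
  have hnt2 : Nontrivial (WR (TL l) Y Y) := by
    obtain ⟨a, b, hab⟩ := exists_pair_ne (TL l)
    refine ⟨SemidirectProduct.inl (fun _ => a), SemidirectProduct.inl (fun _ => b), fun h => hab ?_⟩
    exact congrFun (SemidirectProduct.inl_injective h) 1
  exact ⟨TL l, inferInstance, inferInstance, z_unbounded p l B hne (by omega),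
    H _ hT (prim_affine l _ hPA) ⟨l, hlp, hne, hPA⟩,
    H _ (wr_perfect (TL l) Y Y hT hY) (prim_affine l _ hPA2) ⟨l, hlp, hne, hPA2⟩⟩

/-- the class of the groups with socle a power of `S` -/
theorem krc_all_socle' (p : ℕ) [Fact p.Prime] (S : Type) [Group S] [Finite S] [IsSimpleGroup S]
    (hS : ∃ a b : S, a * b ≠ b * a) (hz : numDefectZero p S ≠ 0)
    (H : ∀ (X : Type) [Group X] [Finite X], commutator X = ⊤ → Primitive X → SoclePower S X →
      KRC p X)
    (G : Type) [Group G] [Finite G] : KRC p G :=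
  krc_all_socle p S hS hz (fun X _ _ h1 h2 => H X h1 (prim_socle S hS X h2) h2) G

/-- `A_5` has a character of defect zero -/
theorem a5_ne (p : ℕ) [Fact p.Prime] : numDefectZero p (alternatingGroup (Fin 5)) ≠ 0 := by
  have h1 : Nonempty (Dz p A5) := a5_dz p
  have h2 : Finite (Dz p A5) := dz_finite p A5
  have h3 : Nat.card (Dz p A5) ≠ 0 := Nat.card_ne_zero.mpr ⟨h1, h2⟩
  exact h3

end Pool.Agent.H373.KR
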